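import Pool.Agent.K4H57.UN.Main

/-!
# All roots are near integers
-/

set_option autoImplicit false

open Finset Polynomial

namespace Pool.Agent.K4H57.UH

open Pool.Agent.R920.CH Pool.Agent.K4H57.CI Pool.Agent.K4H57.UN

/-- Division by the factors which belong to the integral roots. -/
theorem factor (P : ℤ[X]) (hP : P.Monic) (r ρ : ℕ) (hρ : 1 ≤ ρ)
    (x : Fin r → ℂ) (hx : rootsOf P = univ.val.map x) (hroot : ∀ j, ‖x j‖ ≤ ρ)
    (h0 : ∀ j, x j ≠ 0) (ε : ℝ)
    (hnear : ∀ w : ℂ, ‖w‖ ≤ 1 / 4 →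
      ‖∏ j, (1 - Complex.exp ((-(2 * Real.pi * Complex.I) - w) * x j)) -
        ∏ j, (1 - Complex.exp (-w * x j))‖ ≤ ε) :
    (∃ a : Multiset ℤ, P = (a.map fun x => X - C x).prod) ∨
    ∃ (f : ℤ[X]) (m : ℕ) (y : Fin m → ℂ), f.Monic ∧ 1 ≤ m ∧ m ≤ r ∧ rootsOf f = univ.val.map y ∧
      (∀ κ : ℤ, f.eval κ ≠ 0) ∧ (∀ i, ‖y i‖ ≤ ρ) ∧ ∑ i, ‖y i‖ ≤ ∑ j, ‖x j‖ ∧
      ∀ w : ℂ, ‖w‖ ≤ 1 / (2 * (ρ + 1)) →
        ‖∏ i, (1 - Complex.exp ((-(2 * Real.pi * Complex.I) - w) * y i)) -
          ∏ i, (1 - Complex.exp (-w * y i))‖ ≤ ε * (4 * (ρ + 1)) ^ r := by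
  obtain ⟨f, hf, -, hfr⟩ := exists_prod_multiset_X_sub_C_mul P
  set A : Multiset ℤ := P.roots with hA
  have hAm : (A.map fun a => X - C a).prod.Monic := monic_multiset_prod_of_monic _ _
    fun a _ => monic_X_sub_C a
  have hfm : f.Monic := by
    refine Monic.of_mul_monic_left hAm ?_
    rw [hf]
    exact hP
  by_cases hm : f.natDegree = 0
  · left
    refine ⟨A, ?_⟩
    rw [← hf, hfm.natDegree_eq_zero.1 hm, mul_one]
  right
  obtain ⟨m, hmdef⟩ : ∃ m, f.natDegree = m := ⟨_, rfl⟩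
  -- the roots
  have hroots : rootsOf P = (A.map fun a : ℤ => (a : ℂ)) + rootsOf f := by
    have h1 : ((A.map fun a => X - C a).prod * f).map (Int.castRingHom ℂ) =
        ((A.map fun a : ℤ => (a : ℂ)).map fun a => X - C a).prod * f.map (Int.castRingHom ℂ) := by
      rw [Polynomial.map_mul, Polynomial.map_multiset_prod, Multiset.map_map, Multiset.map_map]
      congr 2
      refine Multiset.map_congr rfl fun a _ => ?_
      simp
    have h2 : ((A.map fun a : ℤ => (a : ℂ)).map fun a => X - C a).prod ≠ 0 :=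
      (monic_multiset_prod_of_monic _ _ fun a _ => monic_X_sub_C a).ne_zero
    have h3 : f.map (Int.castRingHom ℂ) ≠ 0 := (hfm.map _).ne_zero
    rw [rootsOf, ← hf, h1, roots_mul (mul_ne_zero h2 h3), roots_multiset_prod_X_sub_C, rootsOf]
  have hroot' : ∀ a ∈ rootsOf P, ‖a‖ ≤ ρ := by
    intro a ha
    rw [hx, Multiset.mem_map] at ha
    obtain ⟨j, _, rfl⟩ := ha
    exact hroot j
  have h0' : ∀ a ∈ rootsOf P, a ≠ 0 := by
    intro a ha
    rw [hx, Multiset.mem_map] at ha
    obtain ⟨j, _, rfl⟩ := ha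
    exact h0 j
  obtain ⟨y, hy⟩ := exists_fun (rootsOf f) (r := m) (by
    rw [rootsOf, splits_iff_card_roots.1 (IsAlgClosed.splits _), hfm.natDegree_map, hmdef])
  have hno : ∀ κ : ℤ, f.eval κ ≠ 0 := by
    intro κ h
    have h1 : κ ∈ f.roots := (mem_roots hfm.ne_zero).2 h
    rw [hfr] at h1
    simp at h1
  have hcard : Multiset.card A + m = r := by
    have h1 : Multiset.card (rootsOf P) = r := by rw [hx]; simp
    have h2 : Multiset.card (rootsOf f) = m := by rw [← hy]; simp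
    rw [hroots, Multiset.card_add, Multiset.card_map, h2] at h1
    exact h1
  have hyρ : ∀ i, ‖y i‖ ≤ ρ := by
    intro i
    refine hroot' _ ?_
    rw [hroots, Multiset.mem_add, ← hy]
    exact Or.inr (Multiset.mem_map_of_mem _ (mem_univ i))
  have hsum : ∑ i, ‖y i‖ ≤ ∑ j, ‖x j‖ := by
    have h1 : ∑ j, ‖x j‖ = ((rootsOf P).map fun a => ‖a‖).sum := by
      rw [hx, Multiset.map_map]
      rfl
    have h2 : ∑ i, ‖y i‖ = ((rootsOf f).map fun a => ‖a‖).sum := by
      rw [← hy, Multiset.map_map]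
      rfl
    rw [h1, h2, hroots, Multiset.map_add, Multiset.sum_add]
    have h3 : 0 ≤ ((A.map fun a : ℤ => (a : ℂ)).map fun a => ‖a‖).sum := by
      refine Multiset.sum_nonneg fun a ha => ?_
      rw [Multiset.mem_map] at ha
      obtain ⟨b, _, rfl⟩ := ha
      exact norm_nonneg _
    linarith
  have hρ' : (1 : ℝ) ≤ ρ := by exact_mod_cast hρ
  set H : ℂ → ℂ := fun w => ∏ i, (1 - Complex.exp ((-(2 * Real.pi * Complex.I) - w) * y i)) -
    ∏ i, (1 - Complex.exp (-w * y i)) with hH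
  have hHd : Differentiable ℂ H := by
    rw [hH]
    refine Differentiable.sub ?_ ?_
    · exact Differentiable.fun_finsetProd fun i _ => by fun_prop
    · exact Differentiable.fun_finsetProd fun i _ => by fun_prop
  have hfac : ∀ w : ℂ, ∏ j, (1 - Complex.exp ((-(2 * Real.pi * Complex.I) - w) * x j)) -
      ∏ j, (1 - Complex.exp (-w * x j)) =
      (A.map fun a : ℤ => 1 - Complex.exp (-w * a)).prod * H w := by
    intro w
    have e1 : ∀ u : ℂ, ∏ j, (1 - Complex.exp (u * x j)) =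
        ((rootsOf P).map fun a => 1 - Complex.exp (u * a)).prod := by
      intro u
      rw [hx, Multiset.map_map]
      rfl
    rw [e1, e1, hroots, Multiset.map_add, Multiset.map_add, Multiset.prod_add, Multiset.prod_add,
      Multiset.map_map, Multiset.map_map, ← hy, Multiset.map_map, Multiset.map_map]
    have h1 : (A.map ((fun a : ℂ => 1 - Complex.exp ((-(2 * Real.pi * Complex.I) - w) * a)) ∘
        fun a : ℤ => (a : ℂ))) = A.map fun a : ℤ => 1 - Complex.exp (-w * a) := by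
      refine Multiset.map_congr rfl fun a _ => ?_
      show 1 - Complex.exp ((-(2 * Real.pi * Complex.I) - w) * (a : ℂ)) = _
      have h2 : (-(2 * Real.pi * Complex.I) - w) * (a : ℂ) = -w * a +
          ((-a : ℤ) : ℂ) * (2 * Real.pi * Complex.I) := by
        push_cast
        ring
      rw [h2, Complex.exp_add, Complex.exp_int_mul_two_pi_mul_I, mul_one]
    rw [h1]
    show _ - (A.map fun a : ℤ => 1 - Complex.exp (-w * a)).prod * _ = _
    rw [← mul_sub]
    rfl
  set s : ℝ := 1 / (2 * (ρ + 1)) with hs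
  have hs0 : 0 < s := by positivity
  have hs2 : s ≤ 1 / 4 := by
    rw [hs]
    apply one_div_le_one_div_of_le (by norm_num)
    linarith
  have hI : ∀ w : ℂ, ‖w‖ = s → (1 / (4 * (ρ + 1)) : ℝ) ^ r ≤
      ‖(A.map fun a : ℤ => 1 - Complex.exp (-w * a)).prod‖ := by
    intro w hw
    have h1 : (1 / (4 * (ρ + 1)) : ℝ) ^ r ≤ (1 / (4 * (ρ + 1)) : ℝ) ^ Multiset.card A := by
      apply pow_le_pow_of_le_one (by positivity) _ (by omega)
      rw [div_le_one (by positivity)]
      linarith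
    refine h1.trans ?_
    apply prod_lower A _ _ (by positivity)
    intro a ha
    have ha' : (a : ℂ) ∈ rootsOf P := by
      rw [hroots, Multiset.mem_add]
      exact Or.inl (Multiset.mem_map_of_mem _ ha)
    have h2 := hroot' _ ha'
    have h3 : (1 : ℝ) ≤ ‖(a : ℂ)‖ := by
      rw [Complex.norm_intCast]
      have h4 : a ≠ 0 := fun h => h0' _ ha' (by rw [h]; simp)
      have h5 : 1 ≤ |a| := Int.one_le_abs h4
      have h6 : ((1 : ℤ) : ℝ) ≤ ((|a| : ℤ) : ℝ) := by exact_mod_cast h5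
      push_cast at h6
      exact h6
    have h4 : ‖-w * (a : ℂ)‖ = s * ‖(a : ℂ)‖ := by rw [norm_mul, norm_neg, hw]
    have h5 : s * ‖(a : ℂ)‖ ≤ 1 / 2 := by
      rw [hs, one_div_mul_eq_div, div_le_div_iff₀ (by positivity) (by norm_num)]
      linarith
    have h6 := half_le (-w * a) (by rw [h4]; exact h5)
    rw [h4] at h6
    refine le_trans ?_ h6
    have h7 : (1 / (4 * (ρ + 1)) : ℝ) = s / 2 := by
      rw [hs]
      field_simp
      norm_num
    rw [h7]
    nlinarith
  have hHB : ∀ w : ℂ, ‖w‖ = s → ‖H w‖ ≤ ε * (4 * (ρ + 1)) ^ r := by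
    intro w hw
    have h1 := hnear w (by rw [hw]; linarith)
    rw [hfac, norm_mul] at h1
    have h2 := hI w hw
    have h3 : (1 / (4 * (ρ + 1)) : ℝ) ^ r * ‖H w‖ ≤ ε :=
      (mul_le_mul_of_nonneg_right h2 (norm_nonneg _)).trans h1
    have h4 : (1 / (4 * (ρ + 1)) : ℝ) ^ r * (4 * (ρ + 1)) ^ r = 1 := by
      rw [← mul_pow, one_div_mul_cancel (by positivity), one_pow]
    calc ‖H w‖ = ((1 / (4 * (ρ + 1)) : ℝ) ^ r * ‖H w‖) * (4 * (ρ + 1)) ^ r := by
          rw [mul_right_comm, h4, one_mul]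
      _ ≤ _ := mul_le_mul_of_nonneg_right h3 (by positivity)
  refine ⟨f, m, y, hfm, by omega, by omega, hy.symm, hno, hyρ, hsum, fun w hw => ?_⟩
  refine Complex.norm_le_of_forall_mem_frontier_norm_le (U := Metric.ball 0 s)
    Metric.isBounded_ball hHd.diffContOnCl (fun z hz => ?_) ?_
  · rw [frontier_ball _ hs0.ne', mem_sphere_zero_iff_norm] at hz
    exact hHB z hz
  · rw [closure_ball _ hs0.ne', mem_closedBall_zero_iff]
    exact hw

lemma one_sub_sum_le {ι : Type*} (s : Finset ι) (b : ι → ℝ) (h0 : ∀ i ∈ s, 0 ≤ b i)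
    (h1 : ∀ i ∈ s, b i ≤ 1) : 1 - ∑ i ∈ s, b i ≤ ∏ i ∈ s, (1 - b i) := by
  classical
  induction s using Finset.induction_on with
  | empty => simp
  | insert a s ha ih =>
    rw [sum_insert ha, prod_insert ha]
    have h2 := ih (fun i hi => h0 i (mem_insert_of_mem hi)) (fun i hi => h1 i (mem_insert_of_mem hi))
    have h3 := h0 a (mem_insert_self a s)
    have h4 := h1 a (mem_insert_self a s)
    have h5 : 0 ≤ ∑ i ∈ s, b i := sum_nonneg fun i hi => h0 i (mem_insert_of_mem hi)
    have h6 : (1 - b a) * (1 - ∑ i ∈ s, b i) ≤ (1 - b a) * ∏ i ∈ s, (1 - b i) :=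
      mul_le_mul_of_nonneg_left h2 (by linarith)
    nlinarith

lemma norm_int_le (a : ℂ) (κ κ' : ℤ) (h : |a.re - κ| ≤ |a.re - κ'|) : ‖a - κ‖ ≤ ‖a - κ'‖ := by
  have h1 : ‖a - κ‖ ^ 2 ≤ ‖a - κ'‖ ^ 2 := by
    rw [Complex.sq_norm, Complex.sq_norm, Complex.normSq_apply, Complex.normSq_apply]
    simp only [Complex.sub_re, Complex.intCast_re, Complex.sub_im, Complex.intCast_im, sub_zero]
    have h2 := sq_le_sq.2 h
    nlinarith
  exact (pow_le_pow_iff_left₀ (norm_nonneg _) (norm_nonneg _) (by norm_num)).1 h1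

/-- **All roots are near integers.** -/
theorem close {m : ℕ} (y : Fin m → ℂ) (hm : 1 ≤ m) (ρ : ℕ)
    (hy : ∀ i, ‖y i‖ ≤ ρ) (hprod : 1 ≤ ∏ i, ‖y i‖) (s δ η k : ℝ)
    (hs : s = 1 / (2 * (ρ + 1))) (hδ : 0 < δ)
    (hH : ∀ w : ℂ, ‖w‖ ≤ s → ‖∏ i, (1 - Complex.exp ((-(2 * Real.pi * Complex.I) - w) * y i)) -
          ∏ i, (1 - Complex.exp (-w * y i))‖ ≤ δ ^ m)
    (hη : 0 < η) (hηs : 80 * η ≤ s) (hk : ∑ i, ‖y i‖ ≤ k) (hηk : 20 * (k * η) ≤ 1)
    (hδη : 4 * m * δ ≤ η) (i : Fin m) : ‖y i - round (y i).re‖ ≤ δ * ‖y i‖ := by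
  have hpi := Real.pi_pos
  have hpi3 := Real.pi_gt_three
  have hpi2 : Real.pi < 3.15 := Real.pi_lt_d2
  have hm1 : (1 : ℝ) ≤ m := by exact_mod_cast hm
  have hs0 : 0 < s := by rw [hs]; positivity
  have hy0 : ∀ i, 0 < ‖y i‖ := by
    intro i
    rcases (norm_nonneg (y i)).eq_or_lt with h | h
    · exfalso
      rw [prod_eq_zero (mem_univ i) h.symm] at hprod
      linarith
    · exact h
  have hsy : ∀ i, s * ‖y i‖ ≤ 1 / 2 := by
    intro i
    rw [hs, one_div_mul_eq_div, div_le_div_iff₀ (by positivity) (by norm_num)]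
    have := hy i
    linarith
  have hyk : ∀ i, ‖y i‖ ≤ k := fun i =>
    (single_le_sum (fun j _ => norm_nonneg (y j)) (mem_univ i)).trans hk
  set κ : Fin m → ℤ := fun i => round (y i).re with hκ
  set W : Fin m → ℂ := fun i => -(2 * Real.pi * Complex.I) * (y i - κ i) / y i with hW
  have hWy : ∀ i, W i * y i = -(2 * Real.pi * Complex.I) * (y i - κ i) := by
    intro i
    rw [hW]
    exact div_mul_cancel₀ _ (norm_pos_iff.1 (hy0 i))
  have hWn : ∀ i, ‖W i‖ * ‖y i‖ = 2 * Real.pi * ‖y i - κ i‖ := by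
    intro i
    rw [← norm_mul, hWy, norm_mul, norm_neg, norm_mul, norm_mul, Complex.norm_I, Complex.norm_real,
      Complex.norm_two, Real.norm_of_nonneg hpi.le, mul_one]
  -- the factor at a point `w`
  have hfacw : ∀ (i : Fin m) (w : ℂ), Complex.exp ((-(2 * Real.pi * Complex.I) - w) * y i) =
      Complex.exp (-((w - W i) * y i)) := by
    intro i w
    have h1 : (-(2 * Real.pi * Complex.I) - w) * y i = -((w - W i) * y i) +
        ((-κ i : ℤ) : ℂ) * (2 * Real.pi * Complex.I) := by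
      have h2 : -((w - W i) * y i) = -(w * y i) + W i * y i := by ring
      rw [h2, hWy]
      push_cast
      ring
    rw [h1, Complex.exp_add, Complex.exp_int_mul_two_pi_mul_I, mul_one]
  -- small zeros are very small
  have hsmall : ∀ i, ‖W i‖ ≤ s → ‖W i‖ ≤ 2 * δ := by
    intro i hi
    have h1 := hH (W i) hi
    have h2 : ∏ j, (1 - Complex.exp ((-(2 * Real.pi * Complex.I) - W i) * y j)) = 0 := by
      refine prod_eq_zero (mem_univ i) ?_
      rw [hfacw]
      simp
    rw [h2, zero_sub, norm_neg, norm_prod] at h1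
    have h3 : ∏ j, (‖W i‖ / 2 * ‖y j‖) ≤ ∏ j, ‖1 - Complex.exp (-W i * y j)‖ := by
      refine prod_le_prod (fun _ _ => by positivity) fun j _ => ?_
      have h4 : ‖-W i * y j‖ = ‖W i‖ * ‖y j‖ := by rw [norm_mul, norm_neg]
      have h5 : ‖W i‖ * ‖y j‖ ≤ 1 / 2 :=
        (mul_le_mul_of_nonneg_right hi (norm_nonneg _)).trans (hsy j)
      have h6 := half_le (-W i * y j) (by rw [h4]; exact h5)
      rw [h4] at h6
      linarith
    rw [prod_mul_distrib, prod_const, card_univ, Fintype.card_fin] at h3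
    have h4 : (‖W i‖ / 2) ^ m ≤ δ ^ m := by
      refine le_trans ?_ (h3.trans h1)
      exact le_mul_of_one_le_right (by positivity) hprod
    have h5 : ‖W i‖ / 2 ≤ δ :=
      (pow_le_pow_iff_left₀ (by positivity) hδ.le (by omega)).1 h4
    linarith
  -- all zeros are small
  have hall : ∀ i, ‖W i‖ ≤ s := by
    intro i₀
    by_contra hlt
    push Not at hlt
    set ψ : Fin m → ℝ := fun i => (1 - 2 * δ / η) * (1 - 2 * η * ‖y i‖) with hψ
    have ha1 : 2 * δ / η ≤ 1 / (2 * m) := by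
      rw [div_le_div_iff₀ hη (by positivity)]
      linarith
    have ha0 : 0 ≤ 2 * δ / η := by positivity
    have ha2 : 2 * δ / η ≤ 1 / 2 := by
      refine ha1.trans ?_
      rw [div_le_div_iff₀ (by positivity) (by norm_num)]
      linarith
    have hb0 : ∀ i, 0 ≤ 2 * η * ‖y i‖ := fun i => by positivity
    have hb1 : ∀ i, 2 * η * ‖y i‖ ≤ 1 / 10 := by
      intro i
      have h1 := mul_le_mul_of_nonneg_left (hyk i) hη.le
      linarith
    have hψ0 : ∀ i, 0 ≤ ψ i := fun i => mul_nonneg (by linarith) (by linarith [hb1 i])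
    have hψ1 : ∀ i, ψ i ≤ 1 := fun i =>
      mul_le_one₀ (by linarith) (by linarith [hb1 i]) (by linarith [hb0 i])
    have hZ : ∀ i, s < ‖W i‖ → 3 * (η * ‖y i‖) ≤
        ‖1 - Complex.exp ((-(2 * Real.pi * Complex.I) - η) * y i)‖ := by
      intro i hi
      set a' : ℂ := y i + η * y i / (2 * Real.pi * Complex.I) with ha'
      have h1 : (-(2 * Real.pi * Complex.I) - (η : ℂ)) * y i = -(2 * Real.pi * Complex.I) * a' := by
        rw [ha']
        have h3 : (2 * Real.pi * Complex.I : ℂ) ≠ 0 := Complex.two_pi_I_ne_zero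
        have h4 : (2 * Real.pi * Complex.I) * (η * y i / (2 * Real.pi * Complex.I)) = η * y i :=
          mul_div_cancel₀ _ h3
        linear_combination h4
      rw [h1]
      refine le_trans ?_ (dist_exp a')
      have h2 : ‖y i - κ i‖ ≤ ‖y i - round a'.re‖ := by
        exact norm_int_le _ _ _ (round_le _ _)
      have h3 : ‖y i - round a'.re‖ ≤ ‖a' - round a'.re‖ + η * ‖y i‖ / (2 * Real.pi) := by
        have h4 : y i - round a'.re = (a' - round a'.re) - η * y i / (2 * Real.pi * Complex.I) := by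
          rw [ha']
          ring
        have h5 : ‖(η : ℂ) * y i / (2 * Real.pi * Complex.I)‖ = η * ‖y i‖ / (2 * Real.pi) := by
          rw [norm_div, norm_mul, norm_mul, norm_mul, Complex.norm_I, Complex.norm_real,
            Complex.norm_real, Complex.norm_two, Real.norm_of_nonneg hpi.le,
            Real.norm_of_nonneg hη.le, mul_one]
        rw [h4, ← h5]
        exact norm_sub_le _ _
      have h4 := hWn i
      have h5 : s * ‖y i‖ ≤ 2 * Real.pi * ‖y i - κ i‖ := by
        rw [← h4]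
        exact mul_le_mul_of_nonneg_right hi.le (norm_nonneg _)
      have h6 : s * ‖y i‖ / 6.4 ≤ ‖a' - round a'.re‖ := by
        have h7 : s * ‖y i‖ / (2 * Real.pi) ≤ ‖a' - round a'.re‖ + η * ‖y i‖ / (2 * Real.pi) := by
          rw [div_le_iff₀ (by positivity)]
          calc s * ‖y i‖ ≤ 2 * Real.pi * ‖y i - κ i‖ := h5
            _ ≤ 2 * Real.pi * (‖a' - round a'.re‖ + η * ‖y i‖ / (2 * Real.pi)) :=
              mul_le_mul_of_nonneg_left (h2.trans h3) (by positivity)
            _ = _ := by ring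
        have h8 : s * ‖y i‖ / (2 * Real.pi) - η * ‖y i‖ / (2 * Real.pi) =
            (s - η) * ‖y i‖ / (2 * Real.pi) := by ring
        have h9 : s * ‖y i‖ / 6.4 ≤ (s - η) * ‖y i‖ / (2 * Real.pi) := by
          rw [div_le_div_iff₀ (by norm_num) (by positivity)]
          have h10 : s * (2 * Real.pi) ≤ (s - η) * 6.4 := by nlinarith
          have h11 := mul_le_mul_of_nonneg_right h10 (norm_nonneg (y i))
          linarith
        linarith
      have h7 : s * ‖y i‖ / 6.4 ≤ min 1 ‖a' - round a'.re‖ := by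
        refine le_min ?_ h6
        have := hsy i
        rw [div_le_one (by norm_num)]
        linarith
      have h8 : 80 * (η * ‖y i‖) ≤ s * ‖y i‖ := by
        have := mul_le_mul_of_nonneg_right hηs (norm_nonneg (y i))
        linarith
      have h9 : 0 ≤ η * ‖y i‖ := by positivity
      have h10 : s * ‖y i‖ / 6.4 = (s * ‖y i‖) * (10 / 64) := by ring
      rw [h10] at h7
      linarith
    have hY : ∀ i, ‖W i‖ ≤ s → η * ‖y i‖ * ψ i ≤
        ‖1 - Complex.exp ((-(2 * Real.pi * Complex.I) - η) * y i)‖ := by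
      intro i hi
      have h1 := hsmall i hi
      rw [hfacw]
      set u : ℂ := -((η - W i) * y i) with hu
      have hun : ‖u‖ = ‖(η : ℂ) - W i‖ * ‖y i‖ := by rw [hu, norm_neg, norm_mul]
      have hηn : ‖(η : ℂ)‖ = η := by rw [Complex.norm_real, Real.norm_of_nonneg hη.le]
      have h2 : η - 2 * δ ≤ ‖(η : ℂ) - W i‖ := by
        have := norm_sub_norm_le (η : ℂ) (W i)
        rw [hηn] at this
        linarith
      have h2δ : 2 * δ ≤ η := by
        have h3 : 4 * δ ≤ 4 * m * δ := by nlinarith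
        linarith
      have h3 : ‖(η : ℂ) - W i‖ ≤ 2 * η := by
        have := norm_sub_le (η : ℂ) (W i)
        rw [hηn] at this
        linarith
      have h4 : (η - 2 * δ) * ‖y i‖ ≤ ‖u‖ := by
        rw [hun]
        exact mul_le_mul_of_nonneg_right h2 (norm_nonneg _)
      have h5 : ‖u‖ ≤ 2 * η * ‖y i‖ := by
        rw [hun]
        exact mul_le_mul_of_nonneg_right h3 (norm_nonneg _)
      have h6 := Complex.norm_exp_sub_one_sub_id_le (x := u) (by linarith [hb1 i])
      have h7 : ‖u‖ ≤ ‖1 - Complex.exp u‖ + ‖Complex.exp u - 1 - u‖ := by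
        calc ‖u‖ = ‖-((1 - Complex.exp u) + (Complex.exp u - 1 - u))‖ := by
              congr 1
              ring
          _ ≤ _ := by rw [norm_neg]; exact norm_add_le _ _
      have h8 : ((η - 2 * δ) * ‖y i‖) * (1 - 2 * η * ‖y i‖) ≤ ‖u‖ * (1 - ‖u‖) :=
        mul_le_mul h4 (by linarith) (by linarith [hb1 i]) (norm_nonneg _)
      have h9 : η * ‖y i‖ * ψ i = ((η - 2 * δ) * ‖y i‖) * (1 - 2 * η * ‖y i‖) := by
        rw [hψ]
        field_simp
      rw [h9]
      nlinarith
    have hgen : ∀ i, η * ‖y i‖ * ψ i ≤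
        ‖1 - Complex.exp ((-(2 * Real.pi * Complex.I) - η) * y i)‖ := by
      intro i
      rcases le_or_gt ‖W i‖ s with h | h
      · exact hY i h
      · refine le_trans ?_ (hZ i h)
        have h1 : 0 ≤ η * ‖y i‖ := by positivity
        have h2 := mul_le_mul_of_nonneg_left (hψ1 i) h1
        linarith
    have h3 : 3 * ∏ i, (η * ‖y i‖ * ψ i) ≤
        ∏ i, ‖1 - Complex.exp ((-(2 * Real.pi * Complex.I) - η) * y i)‖ := by
      rw [← mul_prod_erase univ _ (mem_univ i₀),
        ← mul_prod_erase univ (fun i => ‖1 - Complex.exp ((-(2 * Real.pi * Complex.I) - η) * y i)‖)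
          (mem_univ i₀), ← mul_assoc]
      refine mul_le_mul ?_ (prod_le_prod (fun i _ => mul_nonneg (by positivity) (hψ0 i))
        fun i _ => hgen i) (prod_nonneg fun i _ => mul_nonneg (by positivity) (hψ0 i)) (norm_nonneg _)
      refine le_trans ?_ (hZ i₀ hlt)
      have h1 : 0 ≤ η * ‖y i₀‖ := by positivity
      have h2 := mul_le_mul_of_nonneg_left (hψ1 i₀) h1
      linarith
    rw [prod_mul_distrib, prod_mul_distrib, prod_mul_distrib, prod_const, prod_const, card_univ,
      Fintype.card_fin] at h3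
    set q : ℝ := ∏ i, ‖y i‖ with hq
    have h4 : 1 / 2 ≤ (1 - 2 * δ / η) ^ m := by
      have h5 := one_add_mul_le_pow (by linarith : (-2 : ℝ) ≤ -(2 * δ / η)) m
      have h6 : (m : ℝ) * (2 * δ / η) ≤ 1 / 2 := by
        have h7 := mul_le_mul_of_nonneg_left ha1 (by linarith : (0 : ℝ) ≤ m)
        have h8 : (m : ℝ) * (1 / (2 * m)) = 1 / 2 := by
          field_simp
        linarith
      have h7 : (1 : ℝ) + -(2 * δ / η) = 1 - 2 * δ / η := by ring
      rw [h7] at h5
      linarith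
    have h5 : 9 / 10 ≤ ∏ i, (1 - 2 * η * ‖y i‖) := by
      have h6 := one_sub_sum_le univ (fun i => 2 * η * ‖y i‖) (fun i _ => hb0 i)
        (fun i _ => (hb1 i).trans (by norm_num))
      rw [← mul_sum] at h6
      have h7 := mul_le_mul_of_nonneg_left hk hη.le
      linarith
    have h6 : (η ^ m * q) * (27 / 20) ≤
        ∏ i, ‖1 - Complex.exp ((-(2 * Real.pi * Complex.I) - η) * y i)‖ := by
      refine le_trans ?_ h3
      have h7 : (1 / 2) * (9 / 10) ≤ (1 - 2 * δ / η) ^ m * ∏ i, (1 - 2 * η * ‖y i‖) :=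
        mul_le_mul h4 h5 (by norm_num) (le_trans (by norm_num) h4)
      have h8 : 0 ≤ η ^ m * q := by positivity
      have h9 := mul_le_mul_of_nonneg_left h7 h8
      linarith
    have h7 := hH η (by
      rw [Complex.norm_real, Real.norm_of_nonneg hη.le]
      linarith)
    have h8 : ∏ i, ‖1 - Complex.exp ((-(2 * Real.pi * Complex.I) - η) * y i)‖ ≤
        ∏ i, ‖1 - Complex.exp (-(η : ℂ) * y i)‖ + δ ^ m := by
      rw [← norm_prod, ← norm_prod]
      have h9 := norm_sub_norm_le (∏ i, (1 - Complex.exp ((-(2 * Real.pi * Complex.I) - η) * y i)))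
        (∏ i, (1 - Complex.exp (-(η : ℂ) * y i)))
      linarith
    have h9 : ∏ i, ‖1 - Complex.exp (-(η : ℂ) * y i)‖ ≤ η ^ m * q * (20 / 19) := by
      have h10 : ∏ i, ‖1 - Complex.exp (-(η : ℂ) * y i)‖ ≤
          ∏ i, (η * ‖y i‖ * Real.exp (η * ‖y i‖)) := by
        refine prod_le_prod (fun _ _ => norm_nonneg _) fun i _ => ?_
        have h11 := Complex.norm_exp_sub_sum_le_norm_mul_exp (-(η : ℂ) * y i) 1
        simp only [sum_range_one, pow_zero, Nat.factorial_zero, Nat.cast_one, div_one,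
          pow_one] at h11
        rw [norm_sub_rev, norm_mul, norm_neg, Complex.norm_real, Real.norm_of_nonneg hη.le] at h11
        exact h11
      refine h10.trans ?_
      rw [prod_mul_distrib, prod_mul_distrib, prod_const, card_univ, Fintype.card_fin,
        ← Real.exp_sum, ← mul_sum]
      refine mul_le_mul_of_nonneg_left ?_ (by positivity)
      have h11 : η * ∑ i, ‖y i‖ ≤ 1 / 20 := by
        have := mul_le_mul_of_nonneg_left hk hη.le
        linarith
      refine (Real.exp_le_exp.2 h11).trans ?_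
      have h12 := Real.add_one_le_exp (-(1 / 20 : ℝ))
      have h13 : Real.exp (-(1 / 20)) * Real.exp (1 / 20) = 1 := by
        rw [← Real.exp_add]
        norm_num
      nlinarith [Real.exp_pos (1 / 20 : ℝ)]
    have h10 : δ ^ m ≤ η ^ m * q * (1 / 4) := by
      have h11 : δ ≤ η * (1 / 4) := by
        have h12 : 4 * δ ≤ 4 * m * δ := by nlinarith
        linarith
      have h12 : δ ^ m ≤ (η * (1 / 4)) ^ m := pow_le_pow_left₀ hδ.le h11 m
      rw [mul_pow] at h12
      have h13 : ((1 / 4 : ℝ)) ^ m ≤ (1 / 4) ^ 1 :=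
        pow_le_pow_of_le_one (by norm_num) (by norm_num) hm
      rw [pow_one] at h13
      have h14 : 0 < η ^ m := by positivity
      calc δ ^ m ≤ η ^ m * (1 / 4) ^ m := h12
        _ ≤ η ^ m * (1 / 4) := mul_le_mul_of_nonneg_left h13 h14.le
        _ ≤ η ^ m * q * (1 / 4) := by nlinarith
    have h11 : 0 < η ^ m * q := by
      have : 0 < q := by linarith
      positivity
    linarith
  have h1 := hsmall i (hall i)
  have h2 := hWn i
  have h3 : ‖y i - κ i‖ * (2 * Real.pi) ≤ (2 * δ) * ‖y i‖ := by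
    rw [mul_comm, ← h2]
    exact mul_le_mul_of_nonneg_right h1 (norm_nonneg _)
  have h4 : 0 ≤ δ * ‖y i‖ := by positivity
  show ‖y i - κ i‖ ≤ _
  nlinarith [norm_nonneg (y i - κ i)]

end Pool.Agent.K4H57.UH
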