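import Pool.Agent.K4H57.UH.Mom
import Pool.Agent.K4H57.CI.Defs

/-!
# The Hilbert polynomial of a smooth subvariety of a projective space
-/

set_option autoImplicit false

open Polynomial

namespace Pool.Agent.K4H57.UH

open Pool.Agent.R920.CH

/-- The number `∑ (-1) ^ |S| binom (N + t - a_S, N)`, the sum over all subfamilies `S` of the family
of the complex roots of `P`, with the sums `a_S`. If the roots of `P` are the Chern roots of the
normal bundle of a smooth subvariety `X` of `ℙ ^ N`, this is the Euler characteristic
`χ (X, 𝒪_X (t))`, by the theorem of Hirzebruch, Riemann and Roch. -/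
noncomputable def eulerChar (N : ℕ) (P : ℤ[X]) (t : ℤ) : ℂ :=
  ((rootsOf P).powerset.map fun S => (-1) ^ Multiset.card S * B N (N + t - S.sum)).sum

/-- The Hilbert polynomial is `∑ δ l binom (n + t - l, n)`, the sum over the `l ≤ e`: the Hilbert
series of `X`, of dimension `n` and codimension `r`, is `(∑ δ l z ^ l) / (1 - z) ^ (n + 1)`. For a
smooth Fano subvariety this holds with natural numbers `δ l`, as the ring of the sections of the
`𝒪_X (t)` is Cohen-Macaulay (by the vanishing theorem of Kodaira), `e` is `n + 1` minus the index. -/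
def HilbertNumerator (n r : ℕ) (P : ℤ[X]) (e : ℕ) (δ : ℕ → ℕ) : Prop :=
  ∀ t : ℤ, eulerChar (n + r) P t = ∑ l ∈ Finset.range (e + 1), (δ l : ℂ) * B n (n + t - l)

end Pool.Agent.K4H57.UH
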