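import Pool.Agent.R920.CH.Mod

/-!
# An integral polynomial whose roots are very near to integers
-/

set_option autoImplicit false

open Finset Polynomial

namespace Pool.Agent.K4H57.UH

open Pool.Agent.R920.CH

/-- The value at an integer is at least `1`. -/
lemma val_ge (f : ℤ[X]) (hf : f.Monic) {m : ℕ} (y : Fin m → ℂ)
    (hy : rootsOf f = univ.val.map y) (hno : ∀ κ : ℤ, f.eval κ ≠ 0) (κ : ℤ) :
    1 ≤ ∏ i, ‖y i - κ‖ := by
  have h1 : ((f.eval κ : ℤ) : ℂ) = ∏ i, ((κ : ℂ) - y i) := by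
    have h2 : f.map (Int.castRingHom ℂ) = ((rootsOf f).map fun a => X - C a).prod :=
      (IsAlgClosed.splits (f.map (Int.castRingHom ℂ))).eq_prod_roots_of_monic (hf.map _)
    have h3 := congrArg (eval (κ : ℂ)) h2
    rw [hy, Multiset.map_map, eval_multiset_prod, Multiset.map_map] at h3
    have h4 : eval (κ : ℂ) (f.map (Int.castRingHom ℂ)) = ((f.eval κ : ℤ) : ℂ) := by
      rw [eval_intCast_map]
      simp
    rw [← h4, h3]
    show (Multiset.map _ univ.val).prod = (Multiset.map _ univ.val).prod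
    refine congrArg Multiset.prod (Multiset.map_congr rfl fun i _ => ?_)
    simp
  have h2 : ∏ i, ‖y i - κ‖ = |((f.eval κ : ℤ) : ℝ)| := by
    rw [← Complex.norm_intCast, h1, norm_prod]
    exact prod_congr rfl fun i _ => norm_sub_rev _ _
  rw [h2]
  have h3 : 1 ≤ |f.eval κ| := Int.one_le_abs (hno κ)
  have h4 : ((1 : ℤ) : ℝ) ≤ ((|f.eval κ| : ℤ) : ℝ) := by exact_mod_cast h3
  push_cast at h4
  exact h4

/-- **Integral polynomials whose roots are near to integers, but not integral.** -/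
theorem liouville (f : ℤ[X]) (hf : f.Monic) (m : ℕ) (hm : 1 ≤ m) (y : Fin m → ℂ)
    (hy : rootsOf f = univ.val.map y) (hno : ∀ κ : ℤ, f.eval κ ≠ 0) (k T : ℝ)
    (hk : ∑ i, ‖y i‖ ≤ k) (hmk : 4 * (m : ℝ) ≤ k)
    (hclose : ∀ i, ‖y i - round (y i).re‖ ≤ Real.exp (-T) * ‖y i‖) :
    ∃ ν : ℕ, 1 ≤ ν ∧ (m : ℝ) ^ 2 ≤ 9 * k * ν ∧ ν * T ≤ m * (Real.log (k / m) + 2.2) := by
  classical
  have hm1 : (1 : ℝ) ≤ m := by exact_mod_cast hm
  have hm0 : (0 : ℝ) < m := by linarith
  have hk0 : 0 < k := by linarith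
  set lam : ℝ := k / m with hlam
  have hlam4 : 4 ≤ lam := by rw [hlam, le_div_iff₀ hm0]; exact hmk
  have hlam0 : 0 < lam := by linarith
  set I : Finset (Fin m) := univ.filter fun i => ‖y i‖ ≤ 2 * lam with hI
  -- Markov
  have hIcard : (m : ℝ) / 2 ≤ I.card := by
    have h1 : ∑ i ∈ univ.filter (fun i => ¬ ‖y i‖ ≤ 2 * lam), (2 * lam) ≤ k := by
      refine le_trans ?_ hk
      refine (sum_le_sum (g := fun i => ‖y i‖) fun i hi => ?_).trans
        (sum_le_univ_sum_of_nonneg fun i => norm_nonneg _)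
      have := (mem_filter.1 hi).2
      push Not at this
      exact this.le
    rw [sum_const, nsmul_eq_mul] at h1
    have h2 : (I.card : ℝ) + (univ.filter (fun i => ¬ ‖y i‖ ≤ 2 * lam)).card = m := by
      have h3 := card_filter_add_card_filter_not (s := (univ : Finset (Fin m))) (fun i => ‖y i‖ ≤ 2 * lam)
      rw [card_univ, Fintype.card_fin] at h3
      exact_mod_cast h3
    obtain ⟨q, hq⟩ : ∃ q : ℝ, ((univ.filter (fun i => ¬ ‖y i‖ ≤ 2 * lam)).card : ℝ) = q := ⟨_, rfl⟩
    rw [hq] at h1 h2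
    have hmul : k = m * lam := by rw [hlam]; field_simp
    have h6 : q * 2 ≤ m := by
      rw [hmul] at h1
      have h7 : (q * 2) * lam ≤ m * lam := by linarith
      exact le_of_mul_le_mul_right h7 hlam0
    linarith
  set b : ℕ := ⌊2 * lam + 1 / 2⌋₊ with hb
  have hb1 : (b : ℝ) ≤ 2 * lam + 1 / 2 := Nat.floor_le (by positivity)
  have hmaps : ∀ i ∈ I, round (y i).re ∈ Finset.Icc (-(b : ℤ)) b := by
    intro i hi
    have h1 := (mem_filter.1 hi).2
    have h2 : |(y i).re| ≤ 2 * lam := (Complex.abs_re_le_norm _).trans h1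
    have h3 := abs_sub_round (y i).re
    rw [abs_le] at h2 h3
    have h4 : (2 * lam + 1 / 2) < b + 1 := Nat.lt_floor_add_one _
    rw [mem_Icc]
    constructor
    · have h5 : (-(b : ℤ) - 1 : ℝ) < round (y i).re := by
        push_cast
        linarith [h2.1, h3.2]
      have h6 : (-(b : ℤ) - 1 : ℤ) < round (y i).re := by exact_mod_cast h5
      omega
    · have h5 : (round (y i).re : ℝ) < (b : ℤ) + 1 := by
        push_cast
        linarith [h2.2, h3.1]
      have h6 : round (y i).re < (b : ℤ) + 1 := by exact_mod_cast h5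
      omega
  have hcard : ((Finset.Icc (-(b : ℤ)) b).card : ℝ) ≤ 4 * lam + 2 := by
    rw [Int.card_Icc]
    have h1 : ((b : ℤ) + 1 - -(b : ℤ)).toNat = 2 * b + 1 := by omega
    rw [h1]
    push_cast
    linarith
  have hcard0 : (0 : ℝ) < ((Finset.Icc (-(b : ℤ)) b).card : ℝ) := by
    rw [Int.card_Icc]
    have h1 : ((b : ℤ) + 1 - -(b : ℤ)).toNat = 2 * b + 1 := by omega
    rw [h1]
    positivity
  obtain ⟨κ, hκ, hκ2⟩ := Finset.exists_le_card_fiber_of_nsmul_le_card_of_maps_to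
    (s := I) (t := Finset.Icc (-(b : ℤ)) b) (f := fun i => round (y i).re)
    (b := (I.card : ℝ) / (Finset.Icc (-(b : ℤ)) b).card) hmaps
    ⟨0, by rw [mem_Icc]; omega⟩ (by
      rw [nsmul_eq_mul, mul_div_cancel₀ _ hcard0.ne'])
  set Wt : Finset (Fin m) := I.filter fun i => round (y i).re = κ with hWt
  have hν : (m : ℝ) / 2 / (4 * lam + 2) ≤ Wt.card := by
    refine le_trans ?_ hκ2
    exact div_le_div₀ (by positivity) hIcard hcard0 hcard
  have hκb : (|κ| : ℝ) ≤ 2 * lam + 1 / 2 := by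
    rw [mem_Icc] at hκ
    have h1 : |κ| ≤ b := abs_le.2 hκ
    have h2 : ((|κ| : ℤ) : ℝ) ≤ ((b : ℕ) : ℝ) := by exact_mod_cast h1
    push_cast at h2
    linarith
  -- the value at κ
  have hval : 1 ≤ ∏ i, ‖y i - κ‖ := val_ge f hf y hy hno κ
  have hterm : ∀ i, ‖y i‖ + |(κ : ℝ)| ≤ lam * Real.exp ((‖y i‖ + |(κ : ℝ)|) / lam - 1) := by
    intro i
    have h1 := Real.add_one_le_exp ((‖y i‖ + |(κ : ℝ)|) / lam - 1)
    have h2 := mul_le_mul_of_nonneg_left h1 hlam0.le
    have h3 : lam * ((‖y i‖ + |(κ : ℝ)|) / lam - 1 + 1) = ‖y i‖ + |(κ : ℝ)| := by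
      field_simp
      ring
    linarith
  have hupper : ∏ i, ‖y i - κ‖ ≤ Real.exp (-T) ^ Wt.card * ∏ i, (‖y i‖ + |(κ : ℝ)|) := by
    have h1 : ∏ i, ‖y i - κ‖ ≤ ∏ i, ((if i ∈ Wt then Real.exp (-T) else 1) *
        (‖y i‖ + |(κ : ℝ)|)) := by
      refine prod_le_prod (fun _ _ => norm_nonneg _) fun i _ => ?_
      split_ifs with h
      · have h2 : round (y i).re = κ := (mem_filter.1 h).2
        have h3 := hclose i
        rw [h2] at h3
        refine h3.trans ?_
        exact mul_le_mul_of_nonneg_left (by linarith [abs_nonneg (κ : ℝ)]) (Real.exp_pos _).le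
      · rw [one_mul]
        refine (norm_sub_le _ _).trans ?_
        rw [Complex.norm_intCast]
    rw [prod_mul_distrib] at h1
    have h2 : ∏ i, (if i ∈ Wt then Real.exp (-T) else 1) = Real.exp (-T) ^ Wt.card := by
      rw [prod_ite_mem, univ_inter, prod_const]
    rwa [h2] at h1
  have hupper2 : ∏ i, (‖y i‖ + |(κ : ℝ)|) ≤ lam ^ m * Real.exp (m * 2.2) := by
    have h1 : ∏ i, (‖y i‖ + |(κ : ℝ)|) ≤
        ∏ i, (lam * Real.exp ((‖y i‖ + |(κ : ℝ)|) / lam - 1)) :=
      prod_le_prod (fun _ _ => by positivity) fun i _ => hterm i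
    refine h1.trans ?_
    rw [prod_mul_distrib, prod_const, card_univ, Fintype.card_fin, ← Real.exp_sum,
      sum_sub_distrib, ← sum_div, sum_add_distrib, sum_const, sum_const, card_univ,
      Fintype.card_fin, nsmul_eq_mul, nsmul_eq_mul, mul_one]
    refine mul_le_mul_of_nonneg_left (Real.exp_le_exp.2 ?_) (by positivity)
    have h2 : (∑ i, ‖y i‖ + m * |(κ : ℝ)|) / lam ≤ m * 3.2 := by
      rw [div_le_iff₀ hlam0]
      have h3 : k = m * lam := by rw [hlam]; field_simp
      have h4 : (m : ℝ) * |(κ : ℝ)| ≤ m * (2 * lam + 1 / 2) := mul_le_mul_of_nonneg_left hκb hm0.le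
      nlinarith
    linarith
  have hfin : Real.exp (T * Wt.card) ≤ lam ^ m * Real.exp (m * 2.2) := by
    have h1 := hval.trans (hupper.trans (mul_le_mul_of_nonneg_left hupper2 (by positivity)))
    have h2 : Real.exp (T * Wt.card) * Real.exp (-T) ^ Wt.card = 1 := by
      rw [← Real.exp_nat_mul, ← Real.exp_add]
      simp only [Real.exp_eq_one_iff]
      ring
    calc Real.exp (T * Wt.card) = Real.exp (T * Wt.card) * 1 := (mul_one _).symm
      _ ≤ Real.exp (T * Wt.card) * (Real.exp (-T) ^ Wt.card * (lam ^ m * Real.exp (m * 2.2))) :=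
        mul_le_mul_of_nonneg_left h1 (Real.exp_pos _).le
      _ = (Real.exp (T * Wt.card) * Real.exp (-T) ^ Wt.card) * (lam ^ m * Real.exp (m * 2.2)) := by
        ring
      _ = _ := by rw [h2, one_mul]
  refine ⟨Wt.card, ?_, ?_, ?_⟩
  · have h1 : (0 : ℝ) < Wt.card := lt_of_lt_of_le (by positivity) hν
    exact_mod_cast h1
  · rw [div_div, div_le_iff₀ (by positivity)] at hν
    have h1 : (m : ℝ) * lam = k := by rw [hlam]; field_simp
    have h2 : (0 : ℝ) ≤ Wt.card := by positivity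
    have h3 := mul_le_mul_of_nonneg_left hν hm0.le
    have h4 : (m : ℝ) * (Wt.card * (2 * (4 * lam + 2))) = Wt.card * (8 * k + 4 * m) := by
      rw [← h1]
      ring
    rw [h4] at h3
    nlinarith
  · have h1 := Real.log_le_log (Real.exp_pos _) hfin
    rw [Real.log_exp, Real.log_mul (by positivity) (Real.exp_pos _).ne', Real.log_pow,
      Real.log_exp] at h1
    linarith

end Pool.Agent.K4H57.UH
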