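import Pool.Agent.K4H57.UH.Bound
import Pool.Agent.K4H57.UH.Close
import Pool.Agent.K4H57.UH.Liou
import Pool.Agent.K4H57.UH.Defs
import Pool.Agent.K4H57.UN.Fin

/-!
# Smooth subvarieties of any codimension and large index
-/

set_option autoImplicit false

open Finset Polynomial

namespace Pool.Agent.K4H57.UH

open Pool.Agent.R920.CH Pool.Agent.K4H57.CI Pool.Agent.K4H57.UN

/-- The condition for the family. -/
lemma fam_of {n r e : ℕ} (P : ℤ[X]) (δ : ℕ → ℕ) (hH : HilbertNumerator n r P e δ) (x : Fin r → ℂ)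
    (hx : rootsOf P = univ.val.map x) (m : ℕ) (hm : m ≤ n + r) :
    ∑ i ∈ TT r e, cc r δ i * vv x i ^ m = 0 := by
  refine mom_fam e x δ n (fun t => ?_) m hm
  have h1 := hH t
  rw [eulerChar, hx, sum_powerset_fin] at h1
  rw [← h1]
  refine sum_congr rfl fun S _ => ?_
  rw [Multiset.card_map]
  rfl

/-- The conditions imply the integrality conditions. -/
theorem rr_of {n r e : ℕ} (P : ℤ[X]) (δ : ℕ → ℕ) (hH : HilbertNumerator n r P e δ) (x : Fin r → ℂ)
    (hx : rootsOf P = univ.val.map x) : RiemannRochSub (n + r) P := by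
  intro f hf hfd
  have h1 : ∑ i ∈ TT r e, cc r δ i * aeval (vv x i) f = 0 := by
    have h2 : ∀ i, aeval (vv x i) f =
        ∑ m ∈ range (n + r + 1), (f.coeff m : ℂ) * vv x i ^ m := by
      intro i
      rw [aeval_eq_sum_range' (Nat.lt_succ_of_le hfd)]
      refine sum_congr rfl fun m _ => ?_
      rw [Algebra.smul_def]
      rfl
    simp only [h2, mul_sum]
    rw [sum_comm]
    refine sum_eq_zero fun m hm => ?_
    rw [mem_range] at hm
    have h3 := fam_of P δ hH x hx m (by omega)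
    have h4 : ∑ i ∈ TT r e, cc r δ i * ((f.coeff m : ℂ) * vv x i ^ m) =
        (f.coeff m : ℂ) * ∑ i ∈ TT r e, cc r δ i * vv x i ^ m := by
      rw [mul_sum]
      exact sum_congr rfl fun i _ => by ring
    rw [h4, h3, mul_zero]
  rw [sum_fam e x δ fun z => aeval z f, sub_eq_zero] at h1
  have h2 : altSum P f = ∑ S ∈ (univ : Finset (Fin r)).powerset,
      (-1 : ℂ) ^ S.card * aeval (∑ i ∈ S, x i) f := by
    rw [altSum, hx, sum_powerset_fin]
    refine sum_congr rfl fun S _ => ?_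
    rw [Multiset.card_map]
    rfl
  rw [h2, h1]
  have h3 : ∀ (l : ℕ) (S : Finset (Fin r)), ∃ z : ℤ, aeval ((l : ℂ) + S.card) f = z := by
    intro l S
    obtain ⟨z, hz⟩ := hf ((l : ℤ) + S.card)
    refine ⟨z, ?_⟩
    have h4 := Polynomial.aeval_algebraMap_apply ℂ (((l : ℤ) + S.card : ℤ) : ℚ) f
    rw [Polynomial.coe_aeval_eq_eval, hz] at h4
    have h5 : (algebraMap ℚ ℂ) (((l : ℤ) + S.card : ℤ) : ℚ) = (l : ℂ) + S.card := by
      simp
    rw [h5] at h4
    rw [h4]
    simp
  choose z hz using h3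
  refine ⟨∑ l ∈ range (e + 1), (δ l : ℤ) * ∑ S ∈ (univ : Finset (Fin r)).powerset,
    (-1) ^ S.card * z l S, ?_⟩
  push_cast
  simp only [hz]

/-- **Large index, any codimension.** -/
theorem large_index (n r : ℕ) (hr : 1 ≤ r) (c : ℕ → ℤ) (h0 : c 0 = 1)
    (hpos : ∀ i ≤ r, 0 ≤ c i) (hle : ∀ i ≤ r, c i ≤ c 1 ^ i) (e : ℕ) (hee : c 1 = e)
    (δ : ℕ → ℕ) (hH : HilbertNumerator n r (chernPoly r c) e δ)
    (hN : 5000 * ((r + e : ℝ) + min ((r : ℝ) ^ 2) (r + e) * Real.log (r + e)) ≤ n + r) :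
    ∃ a : Multiset ℤ, (∀ x ∈ a, 1 ≤ x) ∧ Multiset.card a = r ∧
      chernPoly r c = (a.map fun x => X - C x).prod := by
  obtain ⟨hM, hD⟩ := chernPoly_monic r c h0
  obtain ⟨hcard, hnorm, hne, -⟩ := root_facts r hr c h0 hpos hle e hee
  obtain ⟨x, hx'⟩ := exists_fun (rootsOf (chernPoly r c)) (r := r) hcard
  have hx := hx'.symm
  have hxmem : ∀ j, x j ∈ rootsOf (chernPoly r c) := fun j => by
    rw [hx]
    exact Multiset.mem_map_of_mem _ (mem_univ j)
  set A : ℕ := r + e with hA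
  set N : ℕ := n + r with hNdef
  have hAr : ((r : ℝ) + e) = A := by rw [hA]; push_cast; ring
  have hNr : ((n : ℝ) + r) = N := by rw [hNdef]; push_cast; ring
  rw [hAr, hNr] at hN
  have hr1 : (1 : ℝ) ≤ r := by exact_mod_cast hr
  have hrA : (r : ℝ) ≤ A := by
    have : r ≤ A := by omega
    exact_mod_cast this
  have hA1 : (1 : ℝ) ≤ A := hr1.trans hrA
  have hlog0 : 0 ≤ Real.log A := Real.log_nonneg hA1
  have hrmin : (r : ℝ) ≤ min ((r : ℝ) ^ 2) A := le_min (by nlinarith) hrA
  have hmin0 : 0 ≤ min ((r : ℝ) ^ 2) A * Real.log A := mul_nonneg (by linarith) hlog0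
  have hN1 : 5000 * A ≤ N := by
    have h1 : ((5000 * A : ℕ) : ℝ) ≤ N := by
      push_cast
      linarith
    exact_mod_cast h1
  have hN1' : (5000 : ℝ) * A ≤ N := by linarith
  have hN2 : 5000 * (r * Real.log A) ≤ N := by
    have h1 : (r : ℝ) * Real.log A ≤ min ((r : ℝ) ^ 2) A * Real.log A :=
      mul_le_mul_of_nonneg_right hrmin hlog0
    linarith
  have hm : ∀ m ≤ N, ∑ i ∈ TT r e, cc r δ i * vv x i ^ m = 0 := fun m hm =>
    fam_of (chernPoly r c) δ hH x hx m hm
  have hxn : ∀ j, ‖x j‖ ≤ 2 * e + 1 := fun j => hnorm _ (hxmem j)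
  have hx0 : ∀ j, x j ≠ 0 := fun j => hne _ (hxmem j)
  have hsize := size e x δ N hm A hA hr hxn hx0 hN1 hN2
  have hnear := near2 e x δ N hm A hA hr hxn hx0 hN1 hN2
  rcases factor (chernPoly r c) hM r (2 * e + 1) (by omega) x hx (fun j => by
    have := hxn j
    push_cast
    exact this) hx0 _ hnear with ⟨a, ha⟩ | ⟨f, m, y, hfm, hm1, hmr, hy, hno, hyρ, hysum, hHw⟩
  · refine ⟨a, ?_, ?_, ha⟩
    · intro z hz
      apply root_pos r c h0 hpos
      rw [ha, eval_multiset_prod, Multiset.prod_eq_zero_iff, Multiset.map_map, Multiset.mem_map]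
      exact ⟨z, hz, by simp⟩
    · have h1 := congrArg natDegree ha
      rw [hD] at h1
      rw [h1]
      have h2 := natDegree_multiset_prod_X_sub_C_eq_card a
      exact h2.symm
  exfalso
  have hm1' : (1 : ℝ) ≤ m := by exact_mod_cast hm1
  have hm0 : (0 : ℝ) < m := by linarith
  have hmr' : (m : ℝ) ≤ r := by exact_mod_cast hmr
  have hN0 : (0 : ℝ) < N := by linarith
  have hk : ∑ i, ‖y i‖ ≤ 43 * A := hysum.trans hsize
  set T : ℝ := N / (2 * m) with hT
  have hT0 : 0 ≤ T := by positivity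
  -- the bound for `H`
  have hlogsm : (8 * A : ℝ) ^ r ≤ Real.exp (N / 500) :=
    log_small e N A hA hr hN1 hN2 8 (by norm_num) (by norm_num)
  have heps : Real.exp (-N) * (4 * (((2 * e + 1 : ℕ) : ℝ) + 1)) ^ r ≤ Real.exp (-T) ^ m := by
    have h1 : Real.exp (-T) ^ m = Real.exp (-(N / 2)) := by
      rw [← Real.exp_nat_mul, hT]
      congr 1
      field_simp
    have h2 : (4 * (((2 * e + 1 : ℕ) : ℝ) + 1)) ^ r ≤ (8 * A : ℝ) ^ r := by
      refine pow_le_pow_left₀ (by positivity) ?_ r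
      have : (e : ℝ) + 1 ≤ A := by rw [← hAr]; linarith
      push_cast
      linarith
    rw [h1]
    calc Real.exp (-N) * (4 * (((2 * e + 1 : ℕ) : ℝ) + 1)) ^ r ≤
        Real.exp (-N) * Real.exp (N / 500) :=
          mul_le_mul_of_nonneg_left (h2.trans hlogsm) (Real.exp_pos _).le
      _ = Real.exp (-N + N / 500) := by rw [Real.exp_add]
      _ ≤ _ := Real.exp_le_exp.2 (by linarith)
  have hprod : 1 ≤ ∏ i, ‖y i‖ := by
    have h1 := val_ge f hfm y hy hno 0
    simpa using h1
  have hclose := close y hm1 (2 * e + 1) hyρ hprod (1 / (2 * (((2 * e + 1 : ℕ) : ℝ) + 1)))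
    (Real.exp (-T)) (1 / (1000 * A)) (43 * A) rfl (Real.exp_pos _)
    (fun w hw => (hHw w hw).trans heps) (by positivity) (by
      rw [mul_one_div, div_le_div_iff₀ (by positivity) (by positivity)]
      have : (e : ℝ) + 1 ≤ A := by rw [← hAr]; linarith
      push_cast
      linarith) hk (by
      rw [mul_one_div, ← mul_div_assoc, div_le_one (by positivity)]
      linarith) (by
      rw [le_div_iff₀ (by positivity)]
      have h1 : (4000 : ℝ) * A ^ 2 ≤ Real.exp T := by
        have h2 : (4000 : ℝ) * A ^ 2 = Real.exp (Real.log 4000 + 2 * Real.log A) := by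
          rw [Real.exp_add, Real.exp_log (by norm_num), two_mul, Real.exp_add,
            Real.exp_log (by linarith)]
          ring
        rw [h2]
        refine Real.exp_le_exp.2 ?_
        have h3 : Real.log 4000 ≤ 9 := by
          have h4 : Real.log 4000 ≤ Real.log (2 ^ 12) := Real.log_le_log (by norm_num) (by norm_num)
          rw [Real.log_pow] at h4
          have := Real.log_two_lt_d9
          push_cast at h4
          linarith
        rw [hT, le_div_iff₀ (by positivity)]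
        have h5 : (m : ℝ) * Real.log A ≤ r * Real.log A := mul_le_mul_of_nonneg_right hmr' hlog0
        have h6 : (m : ℝ) * Real.log 4000 ≤ m * 9 := mul_le_mul_of_nonneg_left h3 hm0.le
        have h7 : (Real.log 4000 + 2 * Real.log A) * (2 * m) =
            2 * (m * Real.log 4000) + 4 * (m * Real.log A) := by ring
        rw [h7]
        linarith
      have h2 : Real.exp (-T) * Real.exp T = 1 := by
        rw [← Real.exp_add]
        simp
      have h3 : Real.exp (-T) * (4000 * A ^ 2) ≤ 1 := by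
        rw [← h2]
        exact mul_le_mul_of_nonneg_left h1 (Real.exp_pos _).le
      have h4 : (m : ℝ) * A ≤ A ^ 2 := by nlinarith
      have h5 := Real.exp_pos (-T)
      nlinarith)
  obtain ⟨ν, hν1, hν2, hν3⟩ := liouville f hfm m hm1 y hy hno (43 * A) T hk (by linarith) hclose
  have hν1' : (1 : ℝ) ≤ ν := by exact_mod_cast hν1
  have hL : Real.log (43 * A / m) + 2.2 ≤ Real.log A + 6.1 := by
    have h1 : Real.log (43 * A / m) ≤ Real.log (43 * A) :=
      Real.log_le_log (by positivity) (div_le_self (by positivity) hm1')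
    have h2 : 2 * Real.log 43 ≤ 11 * Real.log 2 := by
      have h3 : Real.log (43 ^ 2) ≤ Real.log (2 ^ 11) := Real.log_le_log (by norm_num) (by norm_num)
      rw [Real.log_pow, Real.log_pow] at h3
      push_cast at h3
      exact h3
    have := Real.log_two_lt_d9
    rw [Real.log_mul (by norm_num) (by positivity)] at h1
    linarith
  have hmain : ν * (N : ℝ) ≤ 2 * m ^ 2 * (Real.log A + 6.1) := by
    have h1 : (m : ℝ) * (Real.log (43 * A / m) + 2.2) ≤ m * (Real.log A + 6.1) :=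
      mul_le_mul_of_nonneg_left hL hm0.le
    have h2 : (ν : ℝ) * T = ν * N / (2 * m) := by rw [hT]; ring
    have h3 := hν3.trans h1
    rw [h2, div_le_iff₀ (by positivity)] at h3
    linarith
  have hΛ0 : 0 ≤ Real.log A + 6.1 := by linarith
  rcases le_total ((r : ℝ) ^ 2) A with hcase | hcase
  · rw [min_eq_left hcase] at hN
    have h1 : (N : ℝ) ≤ ν * N := le_mul_of_one_le_left hN0.le hν1'
    have h2 : (m : ℝ) ^ 2 ≤ r ^ 2 := pow_le_pow_left₀ hm0.le hmr' 2
    have h3 : 2 * (m : ℝ) ^ 2 * (Real.log A + 6.1) ≤ 2 * r ^ 2 * (Real.log A + 6.1) :=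
      mul_le_mul_of_nonneg_right (by linarith) hΛ0
    have h4 : 0 ≤ (r : ℝ) ^ 2 * Real.log A := by positivity
    nlinarith
  · rw [min_eq_right hcase] at hN
    have hm2 : (0 : ℝ) < (m : ℝ) ^ 2 := by positivity
    have h1 : (m : ℝ) ^ 2 * N ≤ (9 * (43 * A) * ν) * N := mul_le_mul_of_nonneg_right hν2 hN0.le
    have h2 : (9 * (43 * A) * ν) * (N : ℝ) = 387 * A * (ν * N) := by ring
    have h3 : 387 * (A : ℝ) * (ν * N) ≤ 387 * A * (2 * m ^ 2 * (Real.log A + 6.1)) :=
      mul_le_mul_of_nonneg_left hmain (by positivity)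
    have h4 : (m : ℝ) ^ 2 * N ≤ m ^ 2 * (774 * A * (Real.log A + 6.1)) := by
      rw [h2] at h1
      linarith
    have h5 : (N : ℝ) ≤ 774 * A * (Real.log A + 6.1) := le_of_mul_le_mul_left h4 hm2
    have h6 : 0 ≤ (A : ℝ) * Real.log A := by positivity
    nlinarith

end Pool.Agent.K4H57.UH
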