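import Mathlib

/-!
# Integral polynomials which are small at all primitive roots of unity of an order
-/

set_option autoImplicit false

open Finset Polynomial

namespace Pool.Agent.K4H57.UH

/-- An integral polynomial of small degree which is smaller than a product of cyclotomic units at all
primitive `L`-th roots of unity is `0`. -/
theorem cyc_aux (K : Type) [Field K] [Algebra ℚ K] (h : ℤ[X]) (L : ℕ) [NeZero L]
    [IsCyclotomicExtension {L} ℚ K] (hL2 : 2 < L)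
    (hLnp : ∀ {p : ℕ}, p.Prime → ∀ k : ℕ, p ^ k ≠ L) {r : ℕ} (κ : Fin r → ℕ)
    (hcop : ∀ j, (κ j).Coprime L) (hdeg : h.natDegree < L.totient)
    (hsmall : ∀ μ : ℂ, IsPrimitiveRoot μ L → ‖aeval μ h‖ < ∏ j, ‖1 - μ ^ κ j‖) : h = 0 := by
  by_contra hne
  have hL0 : 0 < L := by omega
  have : FiniteDimensional ℚ K := IsCyclotomicExtension.finiteDimensional {L} ℚ K
  have : CharZero K := algebraRat.charZero K
  have : Nonempty (K →ₐ[ℚ] ℂ) := ⟨IsAlgClosed.lift⟩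
  set ζ : K := IsCyclotomicExtension.zeta L ℚ K with hζ
  have hprim : IsPrimitiveRoot ζ L := IsCyclotomicExtension.zeta_spec L ℚ K
  have hirr : Irreducible (cyclotomic L ℚ) := cyclotomic.irreducible_rat hL0
  set β : K := aeval ζ h with hβ
  have hβ0 : β ≠ 0 := by
    intro h0
    have hint : IsIntegral ℤ ζ := hprim.isIntegral hL0
    have h1 : minpoly ℤ ζ ∣ h := minpoly.isIntegrallyClosed_dvd hint h0
    rw [← cyclotomic_eq_minpoly hprim hL0] at h1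
    have h2 := natDegree_le_of_dvd h1 hne
    rw [natDegree_cyclotomic] at h2
    omega
  have hβint : IsIntegral ℤ β := by
    have hint : IsIntegral ℤ ζ := hprim.isIntegral hL0
    exact IsIntegral.of_mem_of_fg _ (hint.fg_adjoin_singleton) _ (aeval_mem_adjoin_singleton ℤ ζ)
  -- the norm is a nonzero integer
  have hnorm : ∃ n : ℤ, Algebra.norm ℚ β = n ∧ n ≠ 0 := by
    have h1 : IsIntegral ℤ (Algebra.norm ℚ β) := Algebra.isIntegral_norm ℚ hβint
    obtain ⟨n, hn⟩ := IsIntegrallyClosed.isIntegral_iff.1 h1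
    refine ⟨n, ?_, ?_⟩
    · rw [← hn]
      simp
    · intro h0
      rw [h0, map_zero] at hn
      exact hβ0 (Algebra.norm_eq_zero_iff.1 hn.symm)
  obtain ⟨n, hn, hn0⟩ := hnorm
  have hprod1 : 1 ≤ ∏ σ : K →ₐ[ℚ] ℂ, ‖σ β‖ := by
    rw [← norm_prod, ← Algebra.norm_eq_prod_embeddings ℚ ℂ β, hn]
    have h1 : 1 ≤ |n| := Int.one_le_abs hn0
    have h2 : ((1 : ℤ) : ℝ) ≤ ((|n| : ℤ) : ℝ) := by exact_mod_cast h1
    have h3 : ‖(algebraMap ℚ ℂ) (n : ℚ)‖ = |(n : ℝ)| := by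
      rw [eq_ratCast, Rat.cast_intCast, Complex.norm_intCast]
    rw [h3]
    push_cast at h2
    exact h2
  -- the norms of the units
  have hunit : ∏ σ : K →ₐ[ℚ] ℂ, ∏ j, ‖1 - (σ ζ) ^ κ j‖ = 1 := by
    rw [prod_comm]
    refine prod_eq_one fun j _ => ?_
    have h1 : IsPrimitiveRoot (ζ ^ κ j) L := hprim.pow_of_coprime _ (hcop j)
    have h2 := h1.sub_one_norm_eq_eval_cyclotomic hL2 hirr
    rw [eval_one_cyclotomic_not_prime_pow hLnp] at h2
    have h3 := Algebra.norm_eq_prod_embeddings ℚ ℂ (ζ ^ κ j - 1)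
    rw [h2] at h3
    have h4 : ∏ σ : K →ₐ[ℚ] ℂ, ‖1 - (σ ζ) ^ κ j‖ = ‖∏ σ : K →ₐ[ℚ] ℂ, σ (ζ ^ κ j - 1)‖ := by
      rw [norm_prod]
      refine prod_congr rfl fun σ _ => ?_
      rw [map_sub, map_pow, map_one, norm_sub_rev]
    rw [h4, ← h3]
    simp
  have hlt : ∏ σ : K →ₐ[ℚ] ℂ, ‖σ β‖ < ∏ σ : K →ₐ[ℚ] ℂ, ∏ j, ‖1 - (σ ζ) ^ κ j‖ := by
    refine prod_lt_prod_of_nonempty (fun σ _ => ?_) (fun σ _ => ?_) univ_nonempty
    · exact norm_pos_iff.2 ((map_ne_zero σ).2 hβ0)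
    · have h1 : IsPrimitiveRoot (σ ζ) L := hprim.map_of_injective σ.toRingHom.injective
      have h2 := hsmall (σ ζ) h1
      have h3 : σ β = aeval (σ ζ) h := by
        rw [hβ]
        exact (Polynomial.aeval_algHom_apply (σ.restrictScalars ℤ) ζ h).symm
      rw [h3]
      exact h2
  rw [hunit] at hlt
  linarith

theorem cyc_core (h : ℤ[X]) (L : ℕ) (hL2 : 2 < L)
    (hLnp : ∀ {p : ℕ}, p.Prime → ∀ k : ℕ, p ^ k ≠ L) {r : ℕ} (κ : Fin r → ℕ)
    (hcop : ∀ j, (κ j).Coprime L) (hdeg : h.natDegree < L.totient)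
    (hsmall : ∀ μ : ℂ, IsPrimitiveRoot μ L → ‖aeval μ h‖ < ∏ j, ‖1 - μ ^ κ j‖) : h = 0 := by
  have : NeZero L := ⟨by omega⟩
  exact @cyc_aux (CyclotomicField L ℚ) _ (CyclotomicField.algebra L ℚ) h L _ inferInstance hL2
    hLnp r κ hcop hdeg hsmall

end Pool.Agent.K4H57.UH
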