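import Pool.Agent.K4H57.UH.Bound
import Pool.Agent.K4H57.UH.Cyc
import Pool.Agent.K4H57.UN.Lower

/-!
# The numerator of the Hilbert series
-/

set_option autoImplicit false

open Finset Polynomial

namespace Pool.Agent.K4H57.UH

open Pool.Agent.K4H57.UN

/-- The polynomial `(1 - z) ^ r ∑ δ l z ^ l`. -/
noncomputable def qH (e r : ℕ) (δ : ℕ → ℕ) : ℤ[X] :=
  (1 - X) ^ r * ∑ l ∈ range (e + 1), C (δ l : ℤ) * X ^ l

/-- The polynomial `∏ (1 - z ^ κ j)`. -/
noncomputable def q0 {r : ℕ} (κ : Fin r → ℕ) : ℤ[X] := ∏ j, (1 - X ^ κ j)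

lemma aeval_qH (e r : ℕ) (δ : ℕ → ℕ) (w : ℂ) : aeval (Complex.exp (-w)) (qH e r δ) = G e δ r w := by
  rw [qH, G, map_mul, map_pow, map_sub, map_one, aeval_X, map_sum]
  congr 1
  refine sum_congr rfl fun l _ => ?_
  rw [map_mul, map_pow, aeval_X, aeval_C, ← Complex.exp_nat_mul]
  have h1 : (l : ℂ) * -w = -w * l := mul_comm _ _
  rw [h1]
  simp

lemma aeval_q0 {r : ℕ} (κ : Fin r → ℕ) (w : ℂ) :
    aeval (Complex.exp (-w)) (q0 κ) = F (fun j => (κ j : ℂ)) w := by
  rw [q0, F, map_prod]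
  refine prod_congr rfl fun j _ => ?_
  rw [map_sub, map_one, map_pow, aeval_X, ← Complex.exp_nat_mul]
  have h1 : (κ j : ℂ) * -w = -w * κ j := mul_comm _ _
  rw [h1]

lemma deg_qH (e r : ℕ) (δ : ℕ → ℕ) : (qH e r δ).natDegree ≤ r + e := by
  rw [qH]
  refine natDegree_mul_le.trans (add_le_add ?_ ?_)
  · refine natDegree_pow_le.trans ?_
    have h1 : (1 - X : ℤ[X]).natDegree ≤ 1 := by
      refine (natDegree_sub_le _ _).trans ?_
      simp
    calc r * (1 - X : ℤ[X]).natDegree ≤ r * 1 := Nat.mul_le_mul_left _ h1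
      _ = r := mul_one _
  · refine natDegree_sum_le_of_forall_le _ _ fun l hl => ?_
    rw [mem_range] at hl
    refine (natDegree_C_mul_X_pow_le _ _).trans ?_
    omega

lemma deg_q0 {r : ℕ} (κ : Fin r → ℕ) : (q0 κ).natDegree ≤ ∑ j, κ j := by
  rw [q0]
  refine (natDegree_prod_le _ _).trans (sum_le_sum fun j _ => ?_)
  refine (natDegree_sub_le _ _).trans ?_
  simp

/-- The distance of the powers of a primitive root of unity to `1`. -/
lemma unit_lower (L i k : ℕ) (hL : 1 < L) (hi : i.Coprime L) (hk : k.Coprime L) :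
    1 / (2 * (L : ℝ)) ≤ ‖1 - Complex.exp (-(-(2 * Real.pi * Complex.I * (i / L))) * k)‖ := by
  have hL0 : (0 : ℝ) < L := by
    have : 0 < L := by omega
    exact_mod_cast this
  set a : ℂ := ((-(k * i / L) : ℝ) : ℂ) with ha
  have h1 : -(-(2 * Real.pi * Complex.I * (i / L))) * (k : ℂ) = -(2 * Real.pi * Complex.I) * a := by
    rw [ha]
    push_cast
    ring
  rw [h1]
  refine le_trans ?_ (dist_exp a)
  have hre : a.re = -(k * i / L) := by rw [ha, Complex.ofReal_re]
  have h2 : 1 / (L : ℝ) ≤ ‖a - round a.re‖ := by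
    have h3 : a - round a.re = (((-(k * i / L) - round a.re) : ℝ) : ℂ) := by
      rw [ha]
      push_cast
      ring
    rw [h3, Complex.norm_real, Real.norm_eq_abs]
    set n : ℤ := round a.re with hn
    have h4 : (-(k * i / L) - n : ℝ) = -((k * i + n * L : ℤ) : ℝ) / L := by
      push_cast
      field_simp
      ring
    rw [h4, abs_div, abs_neg, abs_of_pos hL0, div_le_div_iff_of_pos_right hL0]
    have h5 : (k * i + n * L : ℤ) ≠ 0 := by
      intro h
      have h6 : (L : ℤ) ∣ k * i := ⟨-n, by linear_combination h⟩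
      have h7 : L ∣ k * i := by exact_mod_cast h6
      have h8 : (k * i).Coprime L := Nat.Coprime.mul_left hk hi
      have h9 := Nat.eq_one_of_dvd_coprimes h8 h7 (dvd_refl L)
      omega
    have h6 : 1 ≤ |(k * i + n * L : ℤ)| := Int.one_le_abs h5
    have h7 : ((1 : ℤ) : ℝ) ≤ ((|(k * i + n * L : ℤ)| : ℤ) : ℝ) := by exact_mod_cast h6
    rw [Int.cast_abs] at h7
    simpa using h7
  have h3 : 1 / (L : ℝ) ≤ min 1 ‖a - round a.re‖ := by
    refine le_min ?_ h2
    rw [div_le_one hL0]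
    exact_mod_cast hL.le
  have h4 : 1 / (2 * (L : ℝ)) = 1 / L / 2 := by ring
  rw [h4]
  linarith

/-- **The numerator of the Hilbert series** is the one of a complete intersection. -/
theorem q_eq {r : ℕ} (e : ℕ) (x : Fin r → ℂ) (δ : ℕ → ℕ) (N A : ℕ) (hA : A = r + e) (hr : 1 ≤ r)
    (hN1 : 5000 * A ≤ N) (hN2 : 5000 * (r * Real.log A) ≤ N)
    (hFG : ∀ u : ℂ, ‖u‖ ≤ 6.55 → ‖F x u - G e δ r u‖ ≤ Real.exp (-N) / 2)
    (κ : Fin r → ℕ) (hκ1 : ∀ j, 1 ≤ κ j) (hκ2 : ∑ j, κ j ≤ 44 * A) (β : ℝ)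
    (hclose : ∀ j, ‖x j - κ j‖ ≤ β) (hβ : 5000000 * (r * A ^ 2 * β) ≤ 1) :
    qH e r δ = q0 κ := by
  have hA1 : 1 ≤ A := by omega
  have hA1' : (1 : ℝ) ≤ A := by exact_mod_cast hA1
  have hr1' : (1 : ℝ) ≤ r := by exact_mod_cast hr
  have hN1' : (5000 : ℝ) * A ≤ N := by exact_mod_cast hN1
  have hκle : ∀ j, κ j ≤ 44 * A := fun j =>
    (single_le_sum (fun i _ => Nat.zero_le (κ i)) (mem_univ j)).trans hκ2
  obtain ⟨j₀⟩ : Nonempty (Fin r) := ⟨⟨0, by omega⟩⟩
  have hβ0 : 0 ≤ β := (norm_nonneg _).trans (hclose j₀)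
  -- the two primes
  obtain ⟨p, hp, hp1, hp2⟩ := Nat.exists_prime_lt_and_le_two_mul (90 * A) (by omega)
  obtain ⟨q, hq, hq1, hq2⟩ := Nat.exists_prime_lt_and_le_two_mul (2 * (90 * A)) (by omega)
  have hpq : p ≠ q := by omega
  have hcopq : p.Coprime q := (Nat.coprime_primes hp hq).2 hpq
  set L : ℕ := p * q with hL
  have hLA : L ≤ 64800 * A ^ 2 := by
    have h1 : p * q ≤ (2 * (90 * A)) * (2 * (2 * (90 * A))) := Nat.mul_le_mul hp2 hq2
    calc L ≤ (2 * (90 * A)) * (2 * (2 * (90 * A))) := h1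
      _ = 64800 * A ^ 2 := by ring
  have hL2 : 2 < L := by
    have : 90 * A * 1 < p * q := Nat.mul_lt_mul_of_lt_of_le hp1 (by omega) (by omega)
    omega
  have hL0 : (0 : ℝ) < L := by
    have : 0 < L := by omega
    exact_mod_cast this
  have hLA' : (L : ℝ) ≤ 64800 * A ^ 2 := by exact_mod_cast hLA
  have hnp : ∀ {p' : ℕ}, p'.Prime → ∀ k : ℕ, p' ^ k ≠ L := by
    intro p' hp' k h
    have h1 : p ∣ p' ^ k := by rw [h, hL]; exact dvd_mul_right _ _
    have h2 : q ∣ p' ^ k := by rw [h, hL]; exact dvd_mul_left _ _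
    have h3 := (Nat.prime_dvd_prime_iff_eq hp hp').1 (hp.dvd_of_dvd_pow h1)
    have h4 := (Nat.prime_dvd_prime_iff_eq hq hp').1 (hq.dvd_of_dvd_pow h2)
    exact hpq (h3.trans h4.symm)
  have hcop : ∀ j, (κ j).Coprime L := by
    intro j
    have h0 := hκ1 j
    have h1 := hκle j
    refine Nat.Coprime.mul_right ?_ ?_
    · exact ((Nat.Prime.coprime_iff_not_dvd hp).2 fun h => by
        have := Nat.le_of_dvd (by omega) h
        omega).symm
    · exact ((Nat.Prime.coprime_iff_not_dvd hq).2 fun h => by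
        have := Nat.le_of_dvd (by omega) h
        omega).symm
  have htot : L.totient = (p - 1) * (q - 1) := by
    rw [hL, Nat.totient_mul hcopq, Nat.totient_prime hp, Nat.totient_prime hq]
  have hdeg : (qH e r δ - q0 κ).natDegree < L.totient := by
    have h1 : (qH e r δ - q0 κ).natDegree ≤ 44 * A := by
      refine (natDegree_sub_le _ _).trans (max_le ?_ ?_)
      · refine (deg_qH e r δ).trans ?_
        omega
      · exact (deg_q0 κ).trans hκ2
    have h2 : 90 * A * 1 ≤ (p - 1) * (q - 1) := Nat.mul_le_mul (by omega) (by omega)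
    rw [htot]
    omega
  have h2Lr : 2 * Real.exp (-N) * (2 * (L : ℝ)) ^ r ≤ 1 := by
    have h1 : (2 * (L : ℝ)) ^ r ≤ Real.exp (N / 500) * Real.exp (N / 500) := by
      have h2 := log_small e N A hA hr hN1 hN2 360 (by norm_num) (by norm_num)
      have h3 : (2 * (L : ℝ)) ^ r ≤ (360 * A : ℝ) ^ r * (360 * A) ^ r := by
        rw [← mul_pow]
        refine pow_le_pow_left₀ (by positivity) ?_ r
        nlinarith
      exact h3.trans (mul_le_mul h2 h2 (by positivity) (Real.exp_pos _).le)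
    have h4 : (2 : ℝ) ≤ Real.exp 1 := by
      have := Real.add_one_le_exp (1 : ℝ)
      linarith
    calc 2 * Real.exp (-N) * (2 * (L : ℝ)) ^ r ≤
        Real.exp 1 * Real.exp (-N) * (Real.exp (N / 500) * Real.exp (N / 500)) := by
          refine mul_le_mul (mul_le_mul_of_nonneg_right h4 (Real.exp_pos _).le) h1 (by positivity)
            (by positivity)
      _ = Real.exp (1 + -N + (N / 500 + N / 500)) := by
          rw [Real.exp_add, Real.exp_add, Real.exp_add]
      _ ≤ 1 := by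
          rw [Real.exp_le_one_iff]
          linarith
  have key := cyc_core (qH e r δ - q0 κ) L hL2 hnp κ hcop hdeg (by
    intro μ hμ
    obtain ⟨i, hi, hicop, rfl⟩ := (Complex.isPrimitiveRoot_iff μ L (by omega)).1 hμ
    set w : ℂ := -(2 * Real.pi * Complex.I * (i / L)) with hw
    have hwe : Complex.exp (2 * Real.pi * Complex.I * (i / L)) = Complex.exp (-w) := by
      rw [hw, neg_neg]
    have hwn : ‖w‖ ≤ 6.3 := by
      have h1 : ‖w‖ = 2 * Real.pi * (i / L) := by
        rw [hw, norm_neg, norm_mul, norm_mul, norm_mul, Complex.norm_I, Complex.norm_real,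
          Complex.norm_two, Real.norm_of_nonneg Real.pi_pos.le, mul_one, norm_div,
          Complex.norm_natCast, Complex.norm_natCast]
      have h2 : (i : ℝ) / L ≤ 1 := by
        rw [div_le_one hL0]
        exact_mod_cast hi.le
      have h3 := Real.pi_lt_d2
      have h4 := Real.pi_pos
      rw [h1]
      nlinarith
    have hprod : ∏ j, ‖1 - Complex.exp (2 * Real.pi * Complex.I * (i / L)) ^ κ j‖ =
        ‖F (fun j => (κ j : ℂ)) w‖ := by
      rw [F, norm_prod, hwe]
      refine prod_congr rfl fun j _ => ?_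
      rw [← Complex.exp_nat_mul]
      have h1 : (κ j : ℂ) * -w = -w * κ j := mul_comm _ _
      rw [h1]
    have hfac : ∀ j, 1 / (2 * (L : ℝ)) ≤ ‖1 - Complex.exp (-w * κ j)‖ := fun j =>
      unit_lower L i (κ j) (by omega) hicop (hcop j)
    have h1L : (0 : ℝ) < 1 / (2 * L) := by positivity
    have hne : ∀ j, 1 - Complex.exp (-w * κ j) ≠ 0 := fun j =>
      norm_pos_iff.1 (lt_of_lt_of_le h1L (hfac j))
    have hlow : (1 / (2 * (L : ℝ))) ^ r ≤ ‖F (fun j => (κ j : ℂ)) w‖ := by
      rw [F, norm_prod]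
      have h1 : ∏ _j : Fin r, (1 / (2 * (L : ℝ))) ≤ ∏ j, ‖1 - Complex.exp (-w * κ j)‖ :=
        prod_le_prod (fun _ _ => h1L.le) fun j _ => hfac j
      rwa [prod_const, card_univ, Fintype.card_fin] at h1
    -- comparison of the two products
    set θ : Fin r → ℂ := fun j => (Complex.exp (-w * κ j) - Complex.exp (-w * x j)) /
      (1 - Complex.exp (-w * κ j)) with hθ
    have hθF : F x w = F (fun j => (κ j : ℂ)) w * ∏ j, (1 + θ j) := by
      rw [F, F, ← prod_mul_distrib]
      refine prod_congr rfl fun j _ => ?_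
      rw [hθ]
      have h1 := hne j
      show _ = (1 - Complex.exp (-w * κ j)) * (1 + (Complex.exp (-w * κ j) -
        Complex.exp (-w * x j)) / (1 - Complex.exp (-w * κ j)))
      rw [mul_add, mul_one, mul_div_cancel₀ _ h1]
      ring
    have hLβ : r * (14 * L * β) ≤ 1 / 5 := by
      have h1 : (r : ℝ) * (14 * L * β) ≤ r * (14 * (64800 * A ^ 2) * β) := by
        apply mul_le_mul_of_nonneg_left _ (by positivity)
        apply mul_le_mul_of_nonneg_right _ hβ0
        linarith
      have h2 : (r : ℝ) * (14 * (64800 * A ^ 2) * β) = 907200 * (r * A ^ 2 * β) := by ring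
      rw [h2] at h1
      linarith
    have hwβ : ‖w‖ * β ≤ 1 / 100 := by
      have h1 : (1 : ℝ) ≤ r * A ^ 2 := by nlinarith
      have h2 : β ≤ r * A ^ 2 * β := le_mul_of_one_le_left hβ0 h1
      have h3 : ‖w‖ * β ≤ 6.3 * β := mul_le_mul_of_nonneg_right hwn hβ0
      linarith
    have hθn : ∀ j, ‖θ j‖ ≤ 14 * L * β := by
      intro j
      have hexpκ : ‖Complex.exp (-w * κ j)‖ = 1 := by
        have h1 : -w * (κ j : ℂ) = ((2 * Real.pi * (i / L) * κ j : ℝ) : ℂ) * Complex.I := by
          rw [hw]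
          push_cast
          ring
        rw [h1, Complex.norm_exp_ofReal_mul_I]
      have h1 : Complex.exp (-w * κ j) - Complex.exp (-w * x j) =
          Complex.exp (-w * κ j) * (1 - Complex.exp (-w * (x j - κ j))) := by
        rw [mul_sub, mul_one, ← Complex.exp_add]
        congr 2
        ring
      have h2 : ‖-w * (x j - κ j)‖ ≤ ‖w‖ * β := by
        rw [norm_mul, norm_neg]
        exact mul_le_mul_of_nonneg_left (hclose j) (norm_nonneg _)
      have h3 : ‖1 - Complex.exp (-w * (x j - κ j))‖ ≤ 7 * β := by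
        refine (norm_one_sub_exp _).trans ?_
        have h4 : Real.exp ‖-w * (x j - κ j)‖ ≤ 100 / 99 := by
          refine (Real.exp_le_exp.2 (h2.trans hwβ)).trans ?_
          have h5 := Real.add_one_le_exp (-(1 / 100 : ℝ))
          have h6 : Real.exp (-(1 / 100)) * Real.exp (1 / 100) = 1 := by
            rw [← Real.exp_add]
            norm_num
          nlinarith [Real.exp_pos (1 / 100 : ℝ)]
        have h5 : ‖w‖ * β ≤ 6.3 * β := mul_le_mul_of_nonneg_right hwn hβ0
        calc ‖-w * (x j - κ j)‖ * Real.exp ‖-w * (x j - κ j)‖ ≤ (6.3 * β) * (100 / 99) :=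
              mul_le_mul (h2.trans h5) h4 (Real.exp_pos _).le (by positivity)
          _ ≤ 7 * β := by linarith
      rw [hθ]
      show ‖(Complex.exp (-w * κ j) - Complex.exp (-w * x j)) / (1 - Complex.exp (-w * κ j))‖ ≤ _
      rw [norm_div, h1, norm_mul, hexpκ, one_mul, div_le_iff₀ (lt_of_lt_of_le h1L (hfac j))]
      refine h3.trans ?_
      have h4 : 14 * (L : ℝ) * β * (1 / (2 * L)) ≤ 14 * L * β * ‖1 - Complex.exp (-w * κ j)‖ :=
        mul_le_mul_of_nonneg_left (hfac j) (by positivity)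
      have h5 : 14 * (L : ℝ) * β * (1 / (2 * L)) = 7 * β := by
        field_simp
        ring
      linarith
    have hθs : ‖∏ j, (1 + θ j) - 1‖ ≤ 1 / 4 := by
      refine (Finset.norm_prod_one_add_sub_one_le _ _).trans ?_
      have h1 : ∑ j, ‖θ j‖ ≤ 1 / 5 := by
        refine (sum_le_sum fun j _ => hθn j).trans ?_
        rw [sum_const, card_univ, Fintype.card_fin, nsmul_eq_mul]
        exact hLβ
      have h2 : Real.exp (∑ j, ‖θ j‖) ≤ 5 / 4 := by
        refine (Real.exp_le_exp.2 h1).trans ?_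
        have h5 := Real.add_one_le_exp (-(1 / 5 : ℝ))
        have h6 : Real.exp (-(1 / 5)) * Real.exp (1 / 5) = 1 := by
          rw [← Real.exp_add]
          norm_num
        nlinarith [Real.exp_pos (1 / 5 : ℝ)]
      linarith
    have hd1 : ‖F x w - F (fun j => (κ j : ℂ)) w‖ ≤ ‖F (fun j => (κ j : ℂ)) w‖ * (1 / 4) := by
      have h1 : F x w - F (fun j => (κ j : ℂ)) w =
          F (fun j => (κ j : ℂ)) w * (∏ j, (1 + θ j) - 1) := by
        rw [hθF]
        ring
      rw [h1, norm_mul]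
      exact mul_le_mul_of_nonneg_left hθs (norm_nonneg _)
    have hd2 : ‖F x w - G e δ r w‖ ≤ ‖F (fun j => (κ j : ℂ)) w‖ * (1 / 4) := by
      refine (hFG w (hwn.trans (by norm_num))).trans ?_
      have h1 : (1 / (2 * (L : ℝ))) ^ r * (2 * L) ^ r = 1 := by
        rw [← mul_pow, one_div_mul_cancel (by positivity), one_pow]
      have h2 : 2 * Real.exp (-N) ≤ (1 / (2 * (L : ℝ))) ^ r := by
        have h3 : 0 < (1 / (2 * (L : ℝ))) ^ r := by positivity
        calc 2 * Real.exp (-N) = (1 / (2 * (L : ℝ))) ^ r * (2 * Real.exp (-N) * (2 * L) ^ r) := by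
              have h1' : ∀ a b c : ℝ, a * b = 1 → 2 * c = a * (2 * c * b) := by
                intro a b c h
                linear_combination (-(2 * c)) * h
              exact h1' _ _ _ h1
          _ ≤ (1 / (2 * (L : ℝ))) ^ r * 1 := mul_le_mul_of_nonneg_left h2Lr h3.le
          _ = _ := mul_one _
      linarith
    rw [hprod, hwe, map_sub, aeval_qH, aeval_q0]
    have h1 : G e δ r w - F (fun j => (κ j : ℂ)) w = (F x w - F (fun j => (κ j : ℂ)) w) -
        (F x w - G e δ r w) := by ring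
    rw [h1]
    have h2 : 0 < ‖F (fun j => (κ j : ℂ)) w‖ := lt_of_lt_of_le (by positivity) hlow
    refine lt_of_le_of_lt (norm_sub_le _ _) ?_
    linarith)
  exact sub_eq_zero.1 key

end Pool.Agent.K4H57.UH
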