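import Pool.Agent.K4H57.UH.PS

/-!
# The Bernoulli numbers and the power sums
-/

set_option autoImplicit false

open Finset PowerSeries

namespace Pool.Agent.K4H57.UH

/-- The series `exp (- a T)`. -/
noncomputable def eS (a : ℂ) : PowerSeries ℂ := PowerSeries.rescale (-a) (PowerSeries.exp ℂ)

/-- The series `a T / (exp (a T) - 1)`. -/
noncomputable def psi (a : ℂ) : PowerSeries ℂ := PowerSeries.rescale a (bernoulliPowerSeries ℂ)

lemma psi_mul (a : ℂ) : psi a * (1 - eS a) = C a * X * eS a := by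
  have h1 : rescale a (bernoulliPowerSeries ℂ * (exp ℂ - 1)) = rescale a X := by
    rw [bernoulliPowerSeries_mul_exp_sub_one]
  rw [map_mul, map_sub, map_one, rescale_X] at h1
  have h2 : rescale a (exp ℂ) * eS a = 1 := by
    rw [eS, exp_mul_exp_eq_exp_add, add_neg_cancel, rescale_zero_apply]
    simp
  have h3 : psi a * (1 - eS a) = (psi a * (rescale a (exp ℂ) - 1)) * eS a := by
    rw [mul_assoc, sub_mul, h2, one_mul]
  rw [h3]
  show rescale a (bernoulliPowerSeries ℂ) * (rescale a (exp ℂ) - 1) * eS a = _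
  rw [h1]

lemma deriv_eS (a : ℂ) : d⁄dX ℂ (eS a) = -(C a * eS a) := by
  ext n
  rw [coeff_derivative, map_neg, coeff_C_mul, eS, coeff_rescale, coeff_rescale, coeff_exp, coeff_exp,
    Nat.factorial_succ]
  have h1 : (n.factorial : ℂ) ≠ 0 := by exact_mod_cast n.factorial_ne_zero
  have h2 : ((n : ℂ) + 1) ≠ 0 := by exact_mod_cast n.succ_ne_zero
  simp only [one_div, map_inv₀, map_natCast]
  push_cast
  field_simp
  ring

lemma log_deriv {r : ℕ} (a : Fin r → ℂ) (s : Finset (Fin r)) :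
    X * d⁄dX ℂ (∏ j ∈ s, (1 - eS (a j))) = (∏ j ∈ s, (1 - eS (a j))) * ∑ j ∈ s, psi (a j) := by
  classical
  induction s using Finset.induction_on with
  | empty => simp
  | insert i s hi ih =>
    rw [prod_insert hi, sum_insert hi, Derivation.leibniz, smul_eq_mul, smul_eq_mul, map_sub,
      Derivation.map_one_eq_zero, deriv_eS]
    have h1 := psi_mul (a i)
    calc X * ((1 - eS (a i)) * d⁄dX ℂ (∏ j ∈ s, (1 - eS (a j))) +
        (∏ j ∈ s, (1 - eS (a j))) * (0 - -(C (a i) * eS (a i))))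
        = (1 - eS (a i)) * (X * d⁄dX ℂ (∏ j ∈ s, (1 - eS (a j)))) +
          (∏ j ∈ s, (1 - eS (a j))) * (C (a i) * X * eS (a i)) := by ring
      _ = _ := by
        rw [ih, ← h1]
        ring

/-- The series divided by `X`. -/
lemma factor_X (a : ℂ) : ∃ u : PowerSeries ℂ, 1 - eS a = X * u ∧ constantCoeff u = a := by
  have h1 : X ∣ (1 - eS a) := by
    rw [X_dvd_iff, map_sub, map_one, eS, ← coeff_zero_eq_constantCoeff_apply, coeff_rescale,
      coeff_exp]
    simp
  obtain ⟨u, hu⟩ := h1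
  refine ⟨u, hu, ?_⟩
  have h2 := congrArg (coeff 1) hu
  rw [show (1 : ℕ) = 0 + 1 from rfl, coeff_succ_X_mul, coeff_zero_eq_constantCoeff_apply] at h2
  rw [← h2, map_sub, eS, coeff_rescale, coeff_exp]
  simp

lemma bernoulli_ne (k : ℕ) (hk : k ≠ 0) : bernoulli (2 * k) ≠ 0 := by
  intro h
  have h1 := hasSum_zeta_nat hk
  rw [h] at h1
  simp only [Rat.cast_zero, mul_zero, zero_div] at h1
  have h2 : (1 : ℝ) / ((1 : ℕ) : ℝ) ^ (2 * k) ≤ 0 :=
    le_hasSum h1 1 fun i _ => by positivity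
  norm_num at h2

/-- The even power sums agree. -/
theorem power_sums {r : ℕ} (x y : Fin r → ℂ) (hx : ∀ j, x j ≠ 0) (N : ℕ)
    (h : ∀ m ≤ N, coeff m (FP x) = coeff m (FP y)) (k : ℕ) (hk : 2 * k + r ≤ N) :
    ∑ j, (x j ^ 2) ^ k = ∑ j, (y j ^ 2) ^ k := by
  classical
  rcases Nat.eq_zero_or_pos k with rfl | hk0
  · simp
  have hFx : FP x = ∏ j, (1 - eS (x j)) := rfl
  have hFy : FP y = ∏ j, (1 - eS (y j)) := rfl
  have hLx := log_deriv x univ
  have hLy := log_deriv y univ
  rw [← hFx] at hLx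
  rw [← hFy] at hLy
  set S : PowerSeries ℂ := ∑ j, psi (x j) - ∑ j, psi (y j) with hS
  set D : PowerSeries ℂ := FP x - FP y with hD
  have h1 : X ^ (N + 1) ∣ D := by
    rw [X_pow_dvd_iff]
    intro m hm
    rw [hD, map_sub, h m (by omega), sub_self]
  have h2 : X ^ (N + 1) ∣ X * d⁄dX ℂ D := by
    rw [X_pow_dvd_iff]
    intro m hm
    rcases m with _ | m
    · simp
    · rw [coeff_succ_X_mul, coeff_derivative]
      rw [X_pow_dvd_iff] at h1
      rw [h1 (m + 1) hm, zero_mul]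
  have h3 : FP x * S = X * d⁄dX ℂ D - D * ∑ j, psi (y j) := by
    rw [hD, map_sub, hS]
    linear_combination (-1) * hLx + hLy
  have h4 : X ^ (N + 1) ∣ FP x * S := by
    rw [h3]
    exact dvd_sub h2 (h1.mul_right _)
  choose u hu huc using fun j => factor_X (x j)
  have h5 : FP x = X ^ r * ∏ j, u j := by
    rw [hFx, prod_congr rfl fun j _ => hu j, prod_mul_distrib, prod_const, card_univ,
      Fintype.card_fin]
  have h6 : IsUnit (∏ j, u j) := by
    rw [isUnit_iff_constantCoeff, map_prod, prod_congr rfl fun j _ => huc j, isUnit_iff_ne_zero]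
    exact prod_ne_zero_iff.2 fun j _ => hx j
  have h7 : X ^ (N + 1 - r) ∣ S := by
    have h8 : N + 1 = r + (N + 1 - r) := by omega
    rw [h5, h8, pow_add, mul_assoc] at h4
    have h9 : (X : PowerSeries ℂ) ^ r ≠ 0 := pow_ne_zero _ X_ne_zero
    rw [mul_dvd_mul_iff_left h9] at h4
    exact (h6.dvd_mul_left).1 h4
  rw [X_pow_dvd_iff] at h7
  have h8 := h7 (2 * k) (by omega)
  rw [hS, map_sub, map_sum, map_sum] at h8
  have h9 : ∀ a : ℂ, coeff (2 * k) (psi a) =
      (algebraMap ℚ ℂ (bernoulli (2 * k) / (2 * k).factorial)) * (a ^ 2) ^ k := by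
    intro a
    rw [psi, coeff_rescale, bernoulliPowerSeries, coeff_mk, ← pow_mul, mul_comm]
  simp only [h9] at h8
  rw [← mul_sum, ← mul_sum, ← mul_sub] at h8
  have h10 : (algebraMap ℚ ℂ (bernoulli (2 * k) / (2 * k).factorial)) ≠ 0 := by
    rw [Ne, _root_.map_eq_zero]
    exact div_ne_zero (bernoulli_ne k hk0.ne') (by exact_mod_cast (2 * k).factorial_ne_zero)
  exact sub_eq_zero.1 ((mul_eq_zero.1 h8).resolve_left h10)

theorem bern {r : ℕ} (x y : Fin r → ℂ) (hx : ∀ j, x j ≠ 0) (N : ℕ)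
    (hN : 5 * r ≤ N) (h : ∀ m ≤ N, PowerSeries.coeff m (FP x) = PowerSeries.coeff m (FP y)) :
    ∀ j, ∃ i, x j = y i ∨ x j = - y i := by
  classical
  intro j
  by_contra hcon
  push Not at hcon
  have hps : ∀ k ≤ 2 * r, ∑ i, (x i ^ 2) ^ k = ∑ i, (y i ^ 2) ^ k := fun k hk =>
    power_sums x y hx N h k (by omega)
  set T : Finset ℂ := (univ.image fun i => x i ^ 2) ∪ (univ.image fun i => y i ^ 2) with hT
  set v : ℂ := x j ^ 2 with hv
  have hvT : v ∈ T := by
    rw [hT, mem_union, mem_image]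
    exact Or.inl ⟨j, mem_univ j, rfl⟩
  set g : Polynomial ℂ := ∏ z ∈ T.erase v, (Polynomial.X - Polynomial.C z) with hg
  have hdeg : g.natDegree ≤ 2 * r := by
    rw [hg, Polynomial.natDegree_finsetProd_X_sub_C_eq_card]
    have h1 : T.card ≤ r + r := by
      refine (card_union_le _ _).trans (add_le_add ?_ ?_) <;>
      · refine card_image_le.trans ?_
        rw [card_univ, Fintype.card_fin]
    have h2 := card_erase_le (s := T) (a := v)
    omega
  have hsum : ∑ i, g.eval (x i ^ 2) = ∑ i, g.eval (y i ^ 2) := by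
    have h1 : ∀ z : ℂ, g.eval z = ∑ k ∈ range (2 * r + 1), g.coeff k * z ^ k := fun z =>
      Polynomial.eval_eq_sum_range' (Nat.lt_succ_of_le hdeg) z
    simp only [h1]
    rw [sum_comm, sum_comm (s := univ) (t := range (2 * r + 1)) (f := fun i k => g.coeff k * (y i ^ 2) ^ k)]
    refine sum_congr rfl fun k hk => ?_
    rw [mem_range] at hk
    rw [← mul_sum, ← mul_sum, hps k (by omega)]
  have hzero : ∀ z ∈ T, z ≠ v → g.eval z = 0 := by
    intro z hz hzv
    rw [hg, Polynomial.eval_prod]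
    refine prod_eq_zero (mem_erase.2 ⟨hzv, hz⟩) ?_
    simp
  have hyv : ∀ i, y i ^ 2 ≠ v := by
    intro i hi
    have h1 : (x j - y i) * (x j + y i) = 0 := by
      have h2 : (x j - y i) * (x j + y i) = x j ^ 2 - y i ^ 2 := by ring
      rw [h2, hi, hv, sub_self]
    rcases mul_eq_zero.1 h1 with h2 | h2
    · exact (hcon i).1 (sub_eq_zero.1 h2)
    · exact (hcon i).2 (eq_neg_of_add_eq_zero_left h2)
  have hR : ∑ i, g.eval (y i ^ 2) = 0 := by
    refine sum_eq_zero fun i _ => hzero _ ?_ (hyv i)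
    rw [hT, mem_union, mem_image, mem_image]
    exact Or.inr ⟨i, mem_univ i, rfl⟩
  have hgv : g.eval v ≠ 0 := by
    rw [hg, Polynomial.eval_prod]
    refine prod_ne_zero_iff.2 fun z hz => ?_
    rw [Polynomial.eval_sub, Polynomial.eval_X, Polynomial.eval_C, sub_ne_zero]
    exact (ne_of_mem_erase hz).symm
  have hL : ∑ i, g.eval (x i ^ 2) = ((univ.filter fun i => x i ^ 2 = v).card : ℂ) * g.eval v := by
    have h1 : ∀ i, g.eval (x i ^ 2) = if x i ^ 2 = v then g.eval v else 0 := by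
      intro i
      split_ifs with h2
      · rw [h2]
      · refine hzero _ ?_ h2
        rw [hT, mem_union, mem_image]
        exact Or.inl ⟨i, mem_univ i, rfl⟩
    simp only [h1]
    rw [← sum_filter, sum_const, nsmul_eq_mul]
  rw [hL, hR] at hsum
  have hc : (univ.filter fun i => x i ^ 2 = v).card ≠ 0 := by
    rw [card_ne_zero]
    exact ⟨j, by simp [hv]⟩
  exact (mul_ne_zero (by exact_mod_cast hc) hgv) hsum

end Pool.Agent.K4H57.UH
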