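import Pool.Agent.K4H57.UH.Bound
import Pool.Agent.K4H57.UH.Close
import Pool.Agent.K4H57.CI.Fin

/-!
# The Chern roots are close to natural numbers
-/

set_option autoImplicit false

open Finset Polynomial

namespace Pool.Agent.K4H57.UH

open Pool.Agent.R920.CH Pool.Agent.K4H57.CI

section

variable {r : ℕ} (e : ℕ) (x : Fin r → ℂ) (δ : ℕ → ℕ) (N : ℕ)
  (hm : ∀ m ≤ N, ∑ i ∈ TT r e, cc r δ i * vv x i ^ m = 0) (A : ℕ) (hA : A = r + e) (hr : 1 ≤ r)
  (hx : ∀ j, ‖x j‖ ≤ 2 * e + 1) (hx0 : ∀ j, x j ≠ 0) (hN1 : 5000 * A ≤ N)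
  (hN2 : 5000 * (r * Real.log A) ≤ N)

include hm hA hr hx hx0 hN1 hN2 in
/-- The two entire functions are close. -/
theorem FG_bound (u : ℂ) (hu : ‖u‖ ≤ 6.55) : ‖F x u - G e δ r u‖ ≤ Real.exp (-N) / 2 := by
  have hsize := size e x δ N hm A hA hr hx hx0 hN1 hN2
  obtain ⟨hd1, hd2⟩ := deg_bounds e x δ N hm A hA hr hx hx0 hN1
  have hA1 : (1 : ℝ) ≤ A := by
    have : 1 ≤ A := by omega
    exact_mod_cast this
  have hAre : (r : ℝ) + e = A := by rw [hA]; push_cast; ring
  have hN1' : (5000 : ℝ) * A ≤ N := by exact_mod_cast hN1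
  have h2 := tail_fam e x δ N hm 8 (by norm_num) u
  refine h2.trans ?_
  rw [hAre]
  set d : ℝ := ∑ l ∈ range (e + 1), (δ l : ℝ) with hd
  have h3 : Real.exp (8 * ((∑ j, ‖x j‖ + A) * ‖u‖)) ≤ Real.exp (2310 * A) := by
    refine Real.exp_le_exp.2 ?_
    have h4 : (∑ j, ‖x j‖ + A) * ‖u‖ ≤ (44 * A) * 6.55 :=
      mul_le_mul (by linarith) hu (norm_nonneg _) (by positivity)
    linarith
  have h4 : (4 * A : ℝ) ^ r ≤ Real.exp (N / 500) :=
    log_small e N A hA hr hN1 hN2 4 (by norm_num) (by norm_num)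
  have h5 : (2 : ℝ) ^ r * (1 + d) ≤ 2 * (4 * A) ^ r := by
    have h6 : (4 * A : ℝ) ^ r = 2 ^ r * (2 * A) ^ r := by rw [← mul_pow]; congr 1; ring
    have h7 : (0 : ℝ) < 2 ^ r := by positivity
    rw [h6]
    nlinarith
  rw [div_le_iff₀ (by positivity), pow_succ]
  have h8 : Real.exp 2 ≤ 8 := by
    have h11 : Real.exp 1 < 2.7182818286 := Real.exp_one_lt_d9
    have h12 : Real.exp 2 = Real.exp 1 ^ 2 := by rw [← Real.exp_nat_mul]; norm_num
    rw [h12]
    nlinarith [Real.exp_pos 1]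
  have h9 : Real.exp (2 * N) ≤ 8 ^ N := by
    have h10 : Real.exp (2 * N) = Real.exp 2 ^ N := by
      rw [← Real.exp_nat_mul]
      congr 1
      ring
    rw [h10]
    exact pow_le_pow_left₀ (Real.exp_pos _).le h8 N
  calc 2 ^ r * (1 + d) * Real.exp (8 * ((∑ j, ‖x j‖ + A) * ‖u‖)) ≤
      (2 * Real.exp (N / 500)) * Real.exp (2310 * A) := by
        apply mul_le_mul _ h3 (Real.exp_pos _).le (by positivity)
        linarith
    _ = 2 * Real.exp (N / 500 + 2310 * A) := by rw [Real.exp_add]; ring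
    _ ≤ 2 * Real.exp (-N + 2 * N) := by
        apply mul_le_mul_of_nonneg_left _ (by norm_num)
        exact Real.exp_le_exp.2 (by linarith)
    _ = 2 * (Real.exp (-N) * Real.exp (2 * N)) := by rw [Real.exp_add]
    _ ≤ 2 * (Real.exp (-N) * 8 ^ N) := by
        apply mul_le_mul_of_nonneg_left _ (by norm_num)
        exact mul_le_mul_of_nonneg_left h9 (Real.exp_pos _).le
    _ ≤ Real.exp (-N) / 2 * (8 ^ N * 8) := by
        have : 0 ≤ Real.exp (-N) * 8 ^ N := by positivity
        linarith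

include hm hA hr hx hx0 hN1 hN2 in
/-- **Every root is close to an integer.** -/
theorem near_int : ∃ β : ℝ, 0 ≤ β ∧ (∀ j, ‖x j - round (x j).re‖ ≤ β) ∧
    5000000 * (r * A ^ 2 * β) ≤ 1 := by
  have hsize := size e x δ N hm A hA hr hx hx0 hN1 hN2
  obtain ⟨hd1, hd2⟩ := deg_bounds e x δ N hm A hA hr hx hx0 hN1
  have hnear := near2 e x δ N hm A hA hr hx hx0 hN1 hN2
  have hA1 : (1 : ℝ) ≤ A := by
    have : 1 ≤ A := by omega
    exact_mod_cast this
  have hr1 : (1 : ℝ) ≤ r := by exact_mod_cast hr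
  have hr0 : (0 : ℝ) < r := by linarith
  have hAre : (r : ℝ) + e = A := by rw [hA]; push_cast; ring
  have he0 : (0 : ℝ) ≤ e := by positivity
  have hrA : (r : ℝ) ≤ A := by linarith
  have heA : (e : ℝ) + 1 ≤ A := by linarith
  have hN1' : (5000 : ℝ) * A ≤ N := by exact_mod_cast hN1
  set T : ℝ := N / r with hT
  have hlog0 : 0 ≤ Real.log A := Real.log_nonneg hA1
  have hbig : 215000000 * (A : ℝ) ^ 4 ≤ Real.exp T := by
    have h2 : 215000000 * (A : ℝ) ^ 4 = Real.exp (Real.log 215000000 + 4 * Real.log A) := by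
      rw [Real.exp_add, Real.exp_log (by norm_num)]
      have h3 : Real.exp (4 * Real.log A) = (A : ℝ) ^ 4 := by
        have := Real.exp_nat_mul (Real.log A) 4
        push_cast at this
        rw [this, Real.exp_log (by linarith)]
      rw [h3]
    rw [h2]
    refine Real.exp_le_exp.2 ?_
    have h3 : Real.log 215000000 ≤ 20 := by
      have h4 : Real.log 215000000 ≤ Real.log (2 ^ 28) := Real.log_le_log (by norm_num) (by norm_num)
      rw [Real.log_pow] at h4
      have := Real.log_two_lt_d9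
      push_cast at h4
      linarith
    rw [hT, le_div_iff₀ hr0]
    have h5 : Real.log 215000000 * r ≤ 20 * A := by
      have : 0 ≤ Real.log 215000000 := Real.log_nonneg (by norm_num)
      nlinarith
    have h6 : (Real.log 215000000 + 4 * Real.log A) * r =
        Real.log 215000000 * r + 4 * (r * Real.log A) := by ring
    rw [h6]
    linarith
  have hTT : Real.exp (-T) * Real.exp T = 1 := by
    rw [← Real.exp_add]
    simp
  have hsm : Real.exp (-T) * (215000000 * A ^ 4) ≤ 1 := by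
    rw [← hTT]
    exact mul_le_mul_of_nonneg_left hbig (Real.exp_pos _).le
  have hE := Real.exp_pos (-T)
  have hprod : 1 ≤ ∏ i, ‖x i‖ := by
    rw [deg_norm e x δ N hm A hA hr hN1]
    exact hd1
  have hpow : Real.exp (-T) ^ r = Real.exp (-N) := by
    rw [← Real.exp_nat_mul, hT]
    congr 1
    field_simp
  have hρ : (((2 * e + 1 : ℕ) : ℝ)) = 2 * e + 1 := by push_cast; ring
  have hclose := close x hr (2 * e + 1) (fun j => by rw [hρ]; exact hx j) hprod
    (1 / (2 * (((2 * e + 1 : ℕ) : ℝ) + 1)))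
    (Real.exp (-T)) (1 / (1000 * A)) (43 * A) rfl hE
    (fun w hw => by
      rw [hpow]
      refine hnear w (hw.trans ?_)
      rw [hρ, one_div_le_one_div (by positivity) (by norm_num)]
      linarith) (by positivity) (by
      rw [mul_one_div, div_le_div_iff₀ (by positivity) (by positivity), hρ]
      linarith) hsize (by
      rw [mul_one_div, ← mul_div_assoc, div_le_one (by positivity)]
      linarith) (by
      rw [le_div_iff₀ (by positivity)]
      have h4 : (r : ℝ) * A ≤ A ^ 4 := by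
        have h5 : (r : ℝ) * A ≤ A ^ 2 := by nlinarith
        exact h5.trans (pow_le_pow_right₀ hA1 (by norm_num))
      have h5 : 4 * (r : ℝ) * Real.exp (-T) * (1000 * A) = 4000 * (Real.exp (-T) * (r * A)) := by ring
      rw [h5]
      have h6 : Real.exp (-T) * (r * A) ≤ Real.exp (-T) * A ^ 4 :=
        mul_le_mul_of_nonneg_left h4 hE.le
      have h7 : 0 ≤ Real.exp (-T) * (A : ℝ) ^ 4 := by positivity
      linarith)
  refine ⟨Real.exp (-T) * (43 * A), by positivity, fun j => ?_, ?_⟩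
  · refine (hclose j).trans (mul_le_mul_of_nonneg_left ?_ hE.le)
    exact (single_le_sum (fun i _ => norm_nonneg (x i)) (mem_univ j)).trans hsize
  · have h4 : (r : ℝ) * A ^ 2 * (Real.exp (-T) * (43 * A)) ≤ 43 * (Real.exp (-T) * A ^ 4) := by
      have h5 : (r : ℝ) * A ^ 2 * (Real.exp (-T) * (43 * A)) =
          r * (43 * (Real.exp (-T) * A ^ 3)) := by ring
      rw [h5]
      have h6 : (r : ℝ) * (43 * (Real.exp (-T) * A ^ 3)) ≤ A * (43 * (Real.exp (-T) * A ^ 3)) :=
        mul_le_mul_of_nonneg_right hrA (by positivity)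
      refine h6.trans (le_of_eq ?_)
      ring
    linarith

end

/-- A root close to an integer is close to a natural number `≥ 1`. -/
lemma round_pos (r : ℕ) (hr : 1 ≤ r) (c : ℕ → ℤ) (h0 : c 0 = 1) (hpos : ∀ i ≤ r, 0 ≤ c i) (x : ℂ)
    (hx : aeval x (chernPoly r c) = 0) (β : ℝ) (k : ℤ) (hk : ‖x - k‖ ≤ β) (hβ : 3 * (r * β) ≤ 1) :
    1 ≤ k := by
  by_contra hlt
  push Not at hlt
  have hr1 : (1 : ℝ) ≤ r := by exact_mod_cast hr
  have hβ0 : 0 ≤ β := (norm_nonneg _).trans hk
  have hm : (1 : ℝ) ≤ 1 - k := by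
    have h1 : (k : ℝ) ≤ 0 := by exact_mod_cast (by omega : k ≤ 0)
    linarith
  set m : ℝ := 1 - k with hmdef
  have hm0 : 0 < m := by linarith
  have hmC : (m : ℂ) ≠ 0 := by exact_mod_cast hm0.ne'
  -- the sum
  have h2 : ∑ i ∈ Finset.range (r + 1), (c i : ℂ) * (1 - x) ^ (r - i) = 0 := by
    have h3 : (-1) ^ r * aeval x (chernPoly r c) =
        ∑ i ∈ Finset.range (r + 1), (c i : ℂ) * (1 - x) ^ (r - i) := by
      rw [aeval_chernPoly, Finset.mul_sum]
      refine Finset.sum_congr rfl fun i hi => ?_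
      rw [Finset.mem_range] at hi
      have h3 : ((-1 : ℂ)) ^ r = (-1) ^ (r - i) * (-1) ^ i := by
        rw [← pow_add]
        congr 1
        omega
      have h4 : (x - 1) ^ (r - i) = (-1) ^ (r - i) * (1 - x) ^ (r - i) := by
        rw [← mul_pow]
        congr 1
        ring
      have h5 : ((-1 : ℂ)) ^ i * (-1) ^ i = 1 := by rw [← mul_pow]; simp
      have h6 : ((-1 : ℂ)) ^ (r - i) * (-1) ^ (r - i) = 1 := by rw [← mul_pow]; simp
      rw [h3, h4]
      calc (-1) ^ (r - i) * (-1) ^ i * ((-1) ^ i * c i * ((-1) ^ (r - i) * (1 - x) ^ (r - i)))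
          = ((-1 : ℂ) ^ i * (-1) ^ i) * ((-1) ^ (r - i) * (-1) ^ (r - i)) *
            (c i * (1 - x) ^ (r - i)) := by ring
        _ = _ := by rw [h5, h6, one_mul, one_mul]
    rw [← h3, hx, mul_zero]
  -- the real parts
  set θ : ℂ := (k - x) / m with hθ
  have hθn : ‖θ‖ ≤ β := by
    rw [hθ, norm_div, Complex.norm_real, Real.norm_of_nonneg hm0.le, norm_sub_rev]
    exact (div_le_self (norm_nonneg _) hm).trans hk
  have h1x : 1 - x = m * (1 + θ) := by
    rw [hθ, mul_add, mul_div_cancel₀ _ hmC, hmdef]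
    push_cast
    ring
  have hre : ∀ j ≤ r, m ^ j / 2 ≤ ((1 - x) ^ j).re := by
    intro j hj
    rw [h1x, mul_pow]
    have h3 : ‖(1 + θ) ^ j - 1‖ ≤ 1 / 2 := by
      have h4 := Finset.norm_prod_one_add_sub_one_le (Finset.range j) (fun _ => θ)
      simp only [Finset.prod_const, Finset.sum_const, Finset.card_range, nsmul_eq_mul] at h4
      refine h4.trans ?_
      have h5 : (j : ℝ) * ‖θ‖ ≤ 1 / 3 := by
        have h6 : (j : ℝ) ≤ r := by exact_mod_cast hj
        have h7 : (j : ℝ) * ‖θ‖ ≤ r * β := mul_le_mul h6 hθn (norm_nonneg _) (by positivity)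
        linarith
      have h6 : Real.exp (j * ‖θ‖) ≤ 3 / 2 := by
        refine (Real.exp_le_exp.2 h5).trans ?_
        have h7 := Real.add_one_le_exp (-(1 / 3 : ℝ))
        have h8 : Real.exp (-(1 / 3)) * Real.exp (1 / 3) = 1 := by
          rw [← Real.exp_add]
          norm_num
        nlinarith [Real.exp_pos (1 / 3 : ℝ)]
      linarith
    have h4 : ((1 + θ) ^ j).re = 1 + ((1 + θ) ^ j - 1).re := by
      rw [Complex.sub_re, Complex.one_re]
      ring
    have h5 : -(1 / 2) ≤ ((1 + θ) ^ j - 1).re := by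
      have h6 := Complex.abs_re_le_norm ((1 + θ) ^ j - 1)
      have h7 := neg_abs_le ((1 + θ) ^ j - 1).re
      linarith
    have h6 : ((m : ℂ) ^ j * (1 + θ) ^ j).re = m ^ j * ((1 + θ) ^ j).re := by
      rw [← Complex.ofReal_pow, Complex.re_ofReal_mul]
    rw [h6]
    have h7 : 0 < m ^ j := by positivity
    nlinarith
  have h3 : (∑ i ∈ Finset.range (r + 1), (c i : ℂ) * (1 - x) ^ (r - i)).re =
      ∑ i ∈ Finset.range (r + 1), (c i : ℝ) * ((1 - x) ^ (r - i)).re := by
    rw [Complex.re_sum]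
    refine Finset.sum_congr rfl fun i _ => ?_
    rw [← Complex.ofReal_intCast, Complex.re_ofReal_mul]
  rw [h2, Complex.zero_re, Finset.sum_range_succ', h0] at h3
  have h4 : 0 ≤ ∑ i ∈ Finset.range r, (c (i + 1) : ℝ) * ((1 - x) ^ (r - (i + 1))).re := by
    refine Finset.sum_nonneg fun i hi => ?_
    rw [Finset.mem_range] at hi
    have h5 : (0 : ℝ) ≤ c (i + 1) := by exact_mod_cast hpos (i + 1) (by omega)
    have h6 := hre (r - (i + 1)) (by omega)
    have h7 : 0 < m ^ (r - (i + 1)) := by positivity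
    exact mul_nonneg h5 (by linarith)
  have h5 := hre r le_rfl
  have h6 : 0 < m ^ r := by positivity
  rw [Nat.sub_zero, Int.cast_one, one_mul] at h3
  linarith

end Pool.Agent.K4H57.UH
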