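import Pool.Agent.K4H57.UH.PS
import Pool.Agent.K4H57.UH.Num

/-!
# The coefficients of the power series
-/

set_option autoImplicit false

open Finset Polynomial

namespace Pool.Agent.K4H57.UH

/-- The series `exp (- a T)`. -/
noncomputable def EE (a : ℂ) : PowerSeries ℂ := PowerSeries.rescale (-a) (PowerSeries.exp ℂ)

lemma EE_add (a b : ℂ) : EE (a + b) = EE a * EE b := by
  rw [EE, EE, EE, PowerSeries.exp_mul_exp_eq_exp_add, neg_add]

lemma EE_zero : EE 0 = 1 := by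
  rw [EE, neg_zero, PowerSeries.rescale_zero_apply]
  simp

lemma EE_sum {ι : Type*} (s : Finset ι) (f : ι → ℂ) : EE (∑ i ∈ s, f i) = ∏ i ∈ s, EE (f i) := by
  classical
  induction s using Finset.induction_on with
  | empty => simp [EE_zero]
  | insert a s ha ih => rw [sum_insert ha, prod_insert ha, EE_add, ih]

lemma EE_nat (k : ℕ) : EE (k : ℂ) = EE 1 ^ k := by
  have h1 := EE_sum (range k) (fun _ => (1 : ℂ))
  simp only [sum_const, card_range, nsmul_eq_mul, mul_one, prod_const] at h1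
  exact h1

lemma coeff_EE (a : ℂ) (m : ℕ) : PowerSeries.coeff m (EE a) = (-1) ^ m / m.factorial * a ^ m := by
  rw [EE, PowerSeries.coeff_rescale, PowerSeries.coeff_exp, neg_pow]
  simp
  ring

lemma FP_eq {r : ℕ} (a : Fin r → ℂ) : FP a = ∏ j, (1 - EE (a j)) := rfl

lemma FP_sum {r : ℕ} (a : Fin r → ℂ) :
    FP a = ∑ S ∈ (univ : Finset (Fin r)).powerset, (-1 : PowerSeries ℂ) ^ S.card * EE (∑ i ∈ S, a i) := by
  rw [FP_eq]
  have h1 : ∀ j, 1 - EE (a j) = 1 + -EE (a j) := fun j => by ring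
  simp only [h1]
  rw [prod_one_add]
  refine sum_congr rfl fun S _ => ?_
  rw [prod_neg, EE_sum]

lemma coeff_neg_one_pow_mul (k m : ℕ) (f : PowerSeries ℂ) :
    PowerSeries.coeff m ((-1 : PowerSeries ℂ) ^ k * f) = (-1) ^ k * PowerSeries.coeff m f := by
  have h1 : (-1 : PowerSeries ℂ) ^ k = PowerSeries.C ((-1 : ℂ) ^ k) := by
    rw [map_pow, map_neg, map_one]
  rw [h1, PowerSeries.coeff_C_mul]

lemma coeff_FP {r : ℕ} (a : Fin r → ℂ) (m : ℕ) : PowerSeries.coeff m (FP a) =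
    (-1) ^ m / m.factorial *
      ∑ S ∈ (univ : Finset (Fin r)).powerset, (-1 : ℂ) ^ S.card * (∑ i ∈ S, a i) ^ m := by
  rw [FP_sum, map_sum, mul_sum]
  refine sum_congr rfl fun S _ => ?_
  rw [coeff_neg_one_pow_mul, coeff_EE]
  ring

/-- The value of `qH` at `exp (- T)`. -/
lemma coeff_qH (e r : ℕ) (δ : ℕ → ℕ) (m : ℕ) : PowerSeries.coeff m (aeval (EE 1) (qH e r δ)) =
    (-1) ^ m / m.factorial * ∑ l ∈ range (e + 1), (δ l : ℂ) *
      ∑ S ∈ (univ : Finset (Fin r)).powerset, (-1 : ℂ) ^ S.card * (l + S.card) ^ m := by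
  have h1 : aeval (EE 1) (qH e r δ) = ∑ l ∈ range (e + 1), PowerSeries.C (δ l : ℂ) *
      ∑ S ∈ (univ : Finset (Fin r)).powerset, (-1 : PowerSeries ℂ) ^ S.card * EE (l + S.card) := by
    rw [qH, map_mul, map_pow, map_sub, map_one, aeval_X, map_sum, mul_sum]
    refine sum_congr rfl fun l _ => ?_
    rw [map_mul, map_pow, aeval_X, aeval_C]
    have h2 := FP_sum (r := r) (fun _ => 1)
    rw [FP_eq, prod_const, card_univ, Fintype.card_fin] at h2
    rw [h2, sum_mul, mul_sum]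
    refine sum_congr rfl fun S _ => ?_
    rw [EE_add, EE_nat l, sum_const, nsmul_eq_mul, mul_one]
    have h3 : (algebraMap ℤ (PowerSeries ℂ)) (δ l : ℤ) = PowerSeries.C (δ l : ℂ) := by
      simp
    rw [h3]
    ring
  rw [h1, map_sum, mul_sum]
  refine sum_congr rfl fun l _ => ?_
  rw [PowerSeries.coeff_C_mul, map_sum, mul_sum, mul_sum, mul_sum]
  refine sum_congr rfl fun S _ => ?_
  rw [coeff_neg_one_pow_mul, coeff_EE]
  ring

lemma aeval_q0_EE {r : ℕ} (κ : Fin r → ℕ) :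
    aeval (EE 1) (q0 κ) = FP fun j => (κ j : ℂ) := by
  rw [q0, FP_eq, map_prod]
  refine prod_congr rfl fun j _ => ?_
  rw [map_sub, map_one, map_pow, aeval_X, EE_nat]

/-- The coefficients agree. -/
theorem coeff_agree {r : ℕ} (e : ℕ) (x : Fin r → ℂ) (δ : ℕ → ℕ) (N : ℕ)
    (hm : ∀ m ≤ N, ∑ i ∈ TT r e, cc r δ i * vv x i ^ m = 0) (κ : Fin r → ℕ)
    (hq : qH e r δ = q0 κ) (m : ℕ) (hmN : m ≤ N) :
    PowerSeries.coeff m (FP x) = PowerSeries.coeff m (FP fun j => (κ j : ℂ)) := by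
  rw [← aeval_q0_EE, ← hq, coeff_qH, coeff_FP]
  have h1 := hm m hmN
  rw [sum_fam e x δ fun z => z ^ m, sub_eq_zero] at h1
  rw [h1]

end Pool.Agent.K4H57.UH
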