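import Pool.Agent.K4H57.UH.Final
import Pool.Agent.K4H57.UH.Near
import Pool.Agent.K4H57.UH.Pow
import Pool.Agent.K4H57.UH.Bern

/-!
# Smooth subvarieties of almost maximal index
-/

set_option autoImplicit false

open Finset Polynomial

namespace Pool.Agent.K4H57.UH

open Pool.Agent.R920.CH Pool.Agent.K4H57.CI Pool.Agent.K4H57.UN

/-- **Large index, any codimension**, the bound linear in the index. -/
theorem almost_linear (n r : ℕ) (hr : 1 ≤ r) (c : ℕ → ℤ) (h0 : c 0 = 1)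
    (hpos : ∀ i ≤ r, 0 ≤ c i) (hle : ∀ i ≤ r, c i ≤ c 1 ^ i) (e : ℕ) (hee : c 1 = e)
    (δ : ℕ → ℕ) (hH : HilbertNumerator n r (chernPoly r c) e δ)
    (hN : 5000 * ((e : ℝ) + r * (1 + Real.log r)) ≤ n + r) :
    ∃ a : Multiset ℤ, (∀ x ∈ a, 1 ≤ x) ∧ Multiset.card a = r ∧
      chernPoly r c = (a.map fun x => X - C x).prod := by
  obtain ⟨hM, hD⟩ := chernPoly_monic r c h0
  obtain ⟨hcard, hnorm, hne, -⟩ := root_facts r hr c h0 hpos hle e hee
  obtain ⟨x, hx'⟩ := exists_fun (rootsOf (chernPoly r c)) (r := r) hcard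
  have hx := hx'.symm
  have hxmem : ∀ j, x j ∈ rootsOf (chernPoly r c) := fun j => by
    rw [hx]
    exact Multiset.mem_map_of_mem _ (mem_univ j)
  have hroot : ∀ j, aeval (x j) (chernPoly r c) = 0 := by
    intro j
    have h1 := hxmem j
    rw [rootsOf, mem_roots (hM.map _).ne_zero, IsRoot, eval_map] at h1
    exact h1
  set A : ℕ := r + e with hA
  set N : ℕ := n + r with hNdef
  have hAr : ((r : ℝ) + e) = A := by rw [hA]; push_cast; ring
  have hNr : ((n : ℝ) + r) = N := by rw [hNdef]; push_cast; ring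
  rw [hNr] at hN
  have hr1 : (1 : ℝ) ≤ r := by exact_mod_cast hr
  have hr0 : (0 : ℝ) < r := by linarith
  have he0 : (0 : ℝ) ≤ e := by positivity
  have hlogr : 0 ≤ Real.log r := Real.log_nonneg hr1
  have hA1 : (1 : ℝ) ≤ A := by linarith
  have hA0 : (0 : ℝ) < A := by linarith
  have hrl : 0 ≤ (r : ℝ) * Real.log r := by positivity
  have hN1' : (5000 : ℝ) * A ≤ N := by
    rw [← hAr]
    nlinarith
  have hN1 : 5000 * A ≤ N := by
    have h1 : ((5000 * A : ℕ) : ℝ) ≤ N := by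
      push_cast
      linarith
    exact_mod_cast h1
  have hN2 : 5000 * (r * Real.log A) ≤ N := by
    have h1 : Real.log (A / r) ≤ A / r - 1 := Real.log_le_sub_one_of_pos (by positivity)
    rw [Real.log_div hA0.ne' hr0.ne'] at h1
    have h2 : (r : ℝ) * (Real.log A - Real.log r) ≤ r * (A / r - 1) :=
      mul_le_mul_of_nonneg_left h1 hr0.le
    have h3 : (r : ℝ) * (A / r - 1) = e := by
      rw [← hAr]
      field_simp
      ring
    rw [h3] at h2
    nlinarith
  have hm : ∀ m ≤ N, ∑ i ∈ TT r e, cc r δ i * vv x i ^ m = 0 := fun m hm =>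
    fam_of (chernPoly r c) δ hH x hx m hm
  have hxn : ∀ j, ‖x j‖ ≤ 2 * e + 1 := fun j => hnorm _ (hxmem j)
  have hx0 : ∀ j, x j ≠ 0 := fun j => hne _ (hxmem j)
  have hsize := size e x δ N hm A hA hr hxn hx0 hN1 hN2
  obtain ⟨β, hβ0, hβ1, hβ2⟩ := near_int e x δ N hm A hA hr hxn hx0 hN1 hN2
  have hrA : (1 : ℝ) ≤ A ^ 2 := one_le_pow₀ hA1
  have hrβ : 5000000 * (r * β) ≤ 1 := by
    have h1 : (r : ℝ) * β * 1 ≤ r * β * A ^ 2 := mul_le_mul_of_nonneg_left hrA (by positivity)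
    linarith
  have hround : ∀ j, 1 ≤ round (x j).re := fun j =>
    round_pos r hr c h0 hpos (x j) (hroot j) β (round (x j).re) (hβ1 j) (by
      have : 0 ≤ (r : ℝ) * β := by positivity
      linarith)
  set κ : Fin r → ℕ := fun j => (round (x j).re).toNat with hκ
  have hκc : ∀ j, ((κ j : ℕ) : ℂ) = ((round (x j).re : ℤ) : ℂ) := by
    intro j
    have h1 : ((κ j : ℕ) : ℤ) = round (x j).re := by
      rw [hκ]
      exact Int.toNat_of_nonneg (by have := hround j; omega)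
    rw [← h1]
    push_cast
    rfl
  have hκ1 : ∀ j, 1 ≤ κ j := by
    intro j
    have h1 := hround j
    show 1 ≤ (round (x j).re).toNat
    omega
  have hclose : ∀ j, ‖x j - κ j‖ ≤ β := by
    intro j
    rw [hκc]
    exact hβ1 j
  have hκ2 : ∑ j, κ j ≤ 44 * A := by
    have h1 : ∀ j, (κ j : ℝ) ≤ ‖x j‖ + β := by
      intro j
      have h2 : ‖((κ j : ℕ) : ℂ)‖ ≤ ‖x j‖ + ‖x j - κ j‖ := by
        calc ‖((κ j : ℕ) : ℂ)‖ = ‖x j - (x j - κ j)‖ := by ring_nf
          _ ≤ _ := norm_sub_le _ _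
      rw [Complex.norm_natCast] at h2
      have := hclose j
      linarith
    have h2 : ∑ j, (κ j : ℝ) ≤ ∑ j, ‖x j‖ + r * β := by
      refine (sum_le_sum fun j _ => h1 j).trans (le_of_eq ?_)
      rw [sum_add_distrib, sum_const, card_univ, Fintype.card_fin, nsmul_eq_mul]
    have h3 : ((∑ j, κ j : ℕ) : ℝ) ≤ ((44 * A : ℕ) : ℝ) := by
      push_cast
      linarith
    exact_mod_cast h3
  have hq := q_eq e x δ N A hA hr hN1 hN2
    (FG_bound e x δ N hm A hA hr hxn hx0 hN1 hN2) κ hκ1 hκ2 β hclose hβ2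
  have hco := coeff_agree e x δ N hm κ hq
  have hbern := bern x (fun j => (κ j : ℂ)) hx0 N (by omega) hco
  obtain ⟨a, ha⟩ := splits_of (chernPoly r c) hM (by
    intro z hz
    rw [hx, Multiset.mem_map] at hz
    obtain ⟨j, -, rfl⟩ := hz
    obtain ⟨i, h1 | h1⟩ := hbern j
    · exact ⟨κ i, by rw [h1]; push_cast; rfl⟩
    · exact ⟨-κ i, by rw [h1]; push_cast; rfl⟩)
  refine ⟨a, ?_, ?_, ha⟩
  · intro z hz
    apply root_pos r c h0 hpos
    rw [ha, eval_multiset_prod, Multiset.prod_eq_zero_iff, Multiset.map_map, Multiset.mem_map]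
    exact ⟨z, hz, by simp⟩
  · have h1 := congrArg natDegree ha
    rw [hD] at h1
    rw [h1]
    have h2 := natDegree_multiset_prod_X_sub_C_eq_card a
    exact h2.symm

end Pool.Agent.K4H57.UH
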