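import Pool.Agent.K4H57.UH.Fam

/-!
# The sum of the absolute values of the Chern roots
-/

set_option autoImplicit false

open Finset

namespace Pool.Agent.K4H57.UH

section

variable {r : ℕ} (e : ℕ) (x : Fin r → ℂ) (δ : ℕ → ℕ) (N : ℕ)
  (hm : ∀ m ≤ N, ∑ i ∈ TT r e, cc r δ i * vv x i ^ m = 0)

include hm in
lemma tail_fam (b : ℝ) (hb : 1 ≤ b) (w : ℂ) : ‖F x w - G e δ r w‖ ≤
    2 ^ r * (1 + ∑ l ∈ range (e + 1), (δ l : ℝ)) *
      Real.exp (b * ((∑ j, ‖x j‖ + (r + e)) * ‖w‖)) / b ^ (N + 1) := by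
  have h1 := tail (TT r e) (cc r δ) (vv x) N hm (∑ j, ‖x j‖ + (r + e))
    (2 ^ r * (1 + ∑ l ∈ range (e + 1), (δ l : ℝ))) (by
      have : 0 ≤ ∑ j, ‖x j‖ := sum_nonneg fun j _ => norm_nonneg _
      positivity) (fun i hi => norm_vv e x i hi) (norm_fam e δ) b hb w
  rwa [exp_fam] at h1

lemma norm_one_sub_exp (z : ℂ) : ‖1 - Complex.exp z‖ ≤ ‖z‖ * Real.exp ‖z‖ := by
  have h1 := Complex.norm_exp_sub_sum_le_norm_mul_exp z 1
  simp only [sum_range_one, pow_zero, Nat.factorial_zero, Nat.cast_one, div_one, pow_one] at h1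
  rwa [norm_sub_rev] at h1

lemma norm_G (w : ℂ) : ‖G e δ r w‖ ≤ ‖w‖ ^ r * Real.exp ((r + e) * ‖w‖) *
    ∑ l ∈ range (e + 1), (δ l : ℝ) := by
  rw [G, norm_mul, norm_pow]
  have h1 : ‖1 - Complex.exp (-w)‖ ^ r ≤ ‖w‖ ^ r * Real.exp (r * ‖w‖) := by
    have h2 := norm_one_sub_exp (-w)
    rw [norm_neg] at h2
    calc ‖1 - Complex.exp (-w)‖ ^ r ≤ (‖w‖ * Real.exp ‖w‖) ^ r :=
          pow_le_pow_left₀ (norm_nonneg _) h2 r
      _ = _ := by rw [mul_pow, ← Real.exp_nat_mul]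
  have h2 : ‖∑ l ∈ range (e + 1), (δ l : ℂ) * Complex.exp (-w * l)‖ ≤
      Real.exp (e * ‖w‖) * ∑ l ∈ range (e + 1), (δ l : ℝ) := by
    rw [mul_sum]
    refine norm_sum_le_of_le _ fun l hl => ?_
    rw [mem_range] at hl
    rw [norm_mul, Complex.norm_natCast, mul_comm]
    refine mul_le_mul_of_nonneg_right ?_ (by positivity)
    rw [Complex.norm_exp]
    refine Real.exp_le_exp.2 ((Complex.re_le_norm _).trans ?_)
    rw [norm_mul, norm_neg, Complex.norm_natCast, mul_comm]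
    refine mul_le_mul_of_nonneg_right ?_ (norm_nonneg _)
    exact_mod_cast (by omega : l ≤ e)
  calc ‖1 - Complex.exp (-w)‖ ^ r * ‖∑ l ∈ range (e + 1), (δ l : ℂ) * Complex.exp (-w * l)‖ ≤
      (‖w‖ ^ r * Real.exp (r * ‖w‖)) * (Real.exp (e * ‖w‖) * ∑ l ∈ range (e + 1), (δ l : ℝ)) :=
        mul_le_mul h1 h2 (norm_nonneg _) (by positivity)
    _ = _ := by
      rw [add_mul, Real.exp_add]
      ring

variable (A : ℕ) (hA : A = r + e) (hr : 1 ≤ r) (hx : ∀ j, ‖x j‖ ≤ 2 * e + 1)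
  (hx0 : ∀ j, x j ≠ 0) (hN1 : 5000 * A ≤ N) (hN2 : 5000 * (r * Real.log A) ≤ N)

include hm hr hA hN1 in
lemma deg_norm : ∏ j, ‖x j‖ = ∑ l ∈ range (e + 1), (δ l : ℝ) := by
  have h1 := deg_fam e x δ 0 (hm r (by omega))
  have h2 : ‖∏ j, x j‖ = ‖∑ l ∈ range (e + 1), (δ l : ℂ)‖ := by rw [h1]
  rw [norm_prod] at h2
  rw [h2]
  have h3 : ∑ l ∈ range (e + 1), (δ l : ℂ) = ((∑ l ∈ range (e + 1), δ l : ℕ) : ℂ) := by push_cast; rfl
  rw [h3, Complex.norm_natCast]
  push_cast
  rfl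

include hA hr in
lemma prod_le : ∏ j : Fin r, (2 * e + 1 : ℝ) ≤ (2 * A : ℝ) ^ r := by
  rw [prod_const, card_univ, Fintype.card_fin]
  refine pow_le_pow_left₀ (by positivity) ?_ r
  have h1 : 2 * e + 1 ≤ 2 * A := by omega
  exact_mod_cast h1

include hm hA hr hx hx0 hN1 in
lemma deg_bounds : 1 ≤ ∑ l ∈ range (e + 1), (δ l : ℝ) ∧
    ∑ l ∈ range (e + 1), (δ l : ℝ) ≤ (2 * A : ℝ) ^ r := by
  have h1 := deg_norm e x δ N hm A hA hr hN1
  constructor
  · have h2 : 0 < ∏ j, ‖x j‖ := prod_pos fun j _ => norm_pos_iff.2 (hx0 j)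
    rw [h1] at h2
    have h3 : ∑ l ∈ range (e + 1), (δ l : ℝ) = ((∑ l ∈ range (e + 1), δ l : ℕ) : ℝ) := by
      push_cast; rfl
    rw [h3] at h2 ⊢
    have h4 : 0 < ∑ l ∈ range (e + 1), δ l := by exact_mod_cast h2
    exact_mod_cast h4
  · rw [← h1]
    refine (prod_le_prod (fun _ _ => norm_nonneg _) fun j _ => hx j).trans ?_
    exact prod_le e A hA hr

include hA hr hN1 hN2 in
/-- All logarithmic terms are small. -/
lemma log_small (t : ℝ) (ht : 1 ≤ t) (ht2 : t ≤ 2000) : (t * A : ℝ) ^ r ≤ Real.exp (N / 500) := by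
  have hA1 : (1 : ℝ) ≤ A := by
    have : 1 ≤ A := by omega
    exact_mod_cast this
  have hrA : (r : ℝ) ≤ A := by
    have : r ≤ A := by omega
    exact_mod_cast this
  have hN1' : (5000 : ℝ) * A ≤ N := by exact_mod_cast hN1
  have h1 : (t * A : ℝ) ^ r = Real.exp (r * Real.log (t * A)) := by
    rw [Real.exp_nat_mul, Real.exp_log (by positivity)]
  rw [h1]
  refine Real.exp_le_exp.2 ?_
  rw [Real.log_mul (by positivity) (by positivity)]
  have h2 : Real.log t ≤ 8 := by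
    refine (Real.log_le_log (by positivity) ht2).trans ?_
    have h3 : Real.log 2000 ≤ Real.log (2 ^ 11) := Real.log_le_log (by norm_num) (by norm_num)
    rw [Real.log_pow] at h3
    have := Real.log_two_lt_d9
    push_cast at h3
    linarith
  have h3 : (r : ℝ) * Real.log t ≤ A * 8 := mul_le_mul hrA h2 (Real.log_nonneg ht) (by linarith)
  linarith

include hm hA hr hx hx0 hN1 hN2 in
/-- The sum of the absolute values of the roots. -/
theorem size : ∑ j, ‖x j‖ ≤ 43 * A := by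
  set k : ℝ := ∑ j, ‖x j‖ with hk
  have hk0 : 0 ≤ k := sum_nonneg fun j _ => norm_nonneg _
  have hA1 : (1 : ℝ) ≤ A := by
    have : 1 ≤ A := by omega
    exact_mod_cast this
  have hr1 : (1 : ℝ) ≤ r := by exact_mod_cast hr
  have hrA : (r : ℝ) ≤ A := by
    have : r ≤ A := by omega
    exact_mod_cast this
  have hAre : (r : ℝ) + e = A := by rw [hA]; push_cast; ring
  have hN1' : (5000 : ℝ) * A ≤ N := by exact_mod_cast hN1
  have hN0 : (0 : ℝ) < N := by linarith
  set K : ℝ := k + A with hK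
  have hK0 : 0 < K := by linarith
  have hKA : K ≤ 3 * A ^ 2 := by
    have h1 : k ≤ r * (2 * e + 1) := by
      have h2 : k ≤ ∑ _j : Fin r, (2 * e + 1 : ℝ) := sum_le_sum fun j _ => hx j
      rwa [sum_const, card_univ, Fintype.card_fin, nsmul_eq_mul] at h2
    have h2 : (2 * e + 1 : ℝ) ≤ 2 * A := by
      have : 2 * e + 1 ≤ 2 * A := by omega
      exact_mod_cast this
    have h3 : (r : ℝ) * (2 * e + 1) ≤ A * (2 * A) :=
      mul_le_mul hrA h2 (by positivity) (by linarith)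
    nlinarith
  set ϱ : ℝ := min 1 (N / (20 * K)) with hϱ
  have hϱ0 : 0 < ϱ := lt_min one_pos (by positivity)
  have hϱ1 : ϱ ≤ 1 := min_le_left _ _
  have hϱK : 20 * (K * ϱ) ≤ N := by
    have h1 : ϱ ≤ N / (20 * K) := min_le_right _ _
    rw [le_div_iff₀ (by positivity)] at h1
    linarith
  have hϱlow : 1 / (60 * A) ≤ ϱ := by
    refine le_min ?_ ?_
    · rw [div_le_one (by positivity)]
      linarith
    · rw [div_le_div_iff₀ (by positivity) (by positivity)]
      nlinarith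
  obtain ⟨hd1, hd2⟩ := deg_bounds e x δ N hm A hA hr hx hx0 hN1
  set d : ℝ := ∑ l ∈ range (e + 1), (δ l : ℝ) with hd
  -- the bound for the product
  have hF : ∀ w : ℂ, ‖w‖ = ϱ → ∏ j, ‖1 - Complex.exp (-w * x j)‖ ≤
      2 * (ϱ ^ r * d * Real.exp (A * ϱ)) := by
    intro w hw
    have h1 := tail_fam e x δ N hm 20 (by norm_num) w
    rw [hw, ← hk, hAre, ← hK, ← hd] at h1
    have h2 := norm_G (r := r) e δ w
    rw [hw, hAre, ← hd] at h2
    have h3 : ∏ j, ‖1 - Complex.exp (-w * x j)‖ = ‖F x w‖ := by rw [F, norm_prod]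
    have h4 : ‖F x w‖ ≤ ‖G e δ r w‖ + ‖F x w - G e δ r w‖ := by
      calc ‖F x w‖ = ‖G e δ r w + (F x w - G e δ r w)‖ := by congr 1; ring
        _ ≤ _ := norm_add_le _ _
    have h5 : 2 ^ r * (1 + d) * Real.exp (20 * (K * ϱ)) / 20 ^ (N + 1) ≤ ϱ ^ r * d := by
      rw [div_le_iff₀ (by positivity)]
      have h6 : (60 * A : ℝ) ^ r * ϱ ^ r ≥ 1 := by
        rw [← mul_pow]
        refine one_le_pow₀ ?_
        rw [div_le_iff₀ (by positivity)] at hϱlow
        linarith
      have h7 : (120 * A : ℝ) ^ r ≤ Real.exp (N / 500) :=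
        log_small e N A hA hr hN1 hN2 120 (by norm_num) (by norm_num)
      have h8 : Real.exp (20 * (K * ϱ)) ≤ Real.exp N := Real.exp_le_exp.2 hϱK
      have h9 : Real.exp (N / 500) * Real.exp N ≤ 20 ^ N := by
        have h10 : Real.exp 2 ≤ 20 := by
          have h11 : Real.exp 1 < 2.7182818286 := Real.exp_one_lt_d9
          have h12 : Real.exp 2 = Real.exp 1 ^ 2 := by rw [← Real.exp_nat_mul]; norm_num
          rw [h12]
          nlinarith [Real.exp_pos 1]
        have h11 : Real.exp (N / 500) * Real.exp N ≤ Real.exp 2 ^ N := by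
          rw [← Real.exp_add, ← Real.exp_nat_mul]
          exact Real.exp_le_exp.2 (by linarith)
        exact h11.trans (pow_le_pow_left₀ (Real.exp_pos _).le h10 N)
      have h10 : (2 : ℝ) ^ r = (120 * A) ^ r / (60 * A) ^ r := by
        rw [← div_pow]
        congr 1
        field_simp
        norm_num
      have h60 : (0 : ℝ) < (60 * A) ^ r := by positivity
      have h11 : (2 : ℝ) ^ r ≤ (120 * A) ^ r * ϱ ^ r := by
        rw [h10, div_le_iff₀ h60]
        have h12 : (0 : ℝ) ≤ (120 * A) ^ r := by positivity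
        nlinarith
      calc 2 ^ r * (1 + d) * Real.exp (20 * (K * ϱ)) ≤
          ((120 * A) ^ r * ϱ ^ r) * (2 * d) * Real.exp N := by
            apply mul_le_mul _ h8 (Real.exp_pos _).le (by positivity)
            exact mul_le_mul h11 (by linarith) (by positivity) (by positivity)
        _ ≤ (Real.exp (N / 500) * ϱ ^ r) * (2 * d) * Real.exp N := by
            apply mul_le_mul_of_nonneg_right _ (Real.exp_pos _).le
            apply mul_le_mul_of_nonneg_right _ (by positivity)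
            exact mul_le_mul_of_nonneg_right h7 (by positivity)
        _ = (ϱ ^ r * d) * 2 * (Real.exp (N / 500) * Real.exp N) := by ring
        _ ≤ (ϱ ^ r * d) * 2 * 20 ^ N := mul_le_mul_of_nonneg_left h9 (by positivity)
        _ ≤ ϱ ^ r * d * 20 ^ (N + 1) := by
            rw [pow_succ]
            have : 0 ≤ ϱ ^ r * d * (20 : ℝ) ^ N := by positivity
            nlinarith
    have h6 : 1 ≤ Real.exp (A * ϱ) := Real.one_le_exp (by positivity)
    have h7 : ϱ ^ r * d ≤ ϱ ^ r * d * Real.exp (A * ϱ) :=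
      le_mul_of_one_le_right (by positivity) h6
    rw [h3]
    calc ‖F x w‖ ≤ ϱ ^ r * Real.exp (A * ϱ) * d + ϱ ^ r * d := by linarith
      _ ≤ _ := by linarith
  have hpi := Real.pi_pos
  have hpi2 : Real.pi < 3.15 := Real.pi_lt_d2
  have hjen := jensen x ϱ _ hϱ0 hF (fun j => ⌊‖x j‖ * ϱ / (6 * Real.pi)⌋₊) (by
    intro j
    have h1 := Nat.floor_le (a := ‖x j‖ * ϱ / (6 * Real.pi)) (by positivity)
    calc 3 * ((⌊‖x j‖ * ϱ / (6 * Real.pi)⌋₊ : ℕ) : ℝ) ≤ 3 * (‖x j‖ * ϱ / (6 * Real.pi)) := by linarith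
      _ = _ := by field_simp; ring)
  rw [deg_norm e x δ N hm A hA hr hN1, ← hd] at hjen
  set t : ℕ := ∑ j, ⌊‖x j‖ * ϱ / (6 * Real.pi)⌋₊ with ht
  have h4 : (4 : ℝ) ^ t ≤ 2 * Real.exp (A * ϱ) := by
    have h5 : 0 < d * ϱ ^ r := by positivity
    have h6 : d * ϱ ^ r * 4 ^ t ≤ d * ϱ ^ r * (2 * Real.exp (A * ϱ)) := by
      refine hjen.trans (le_of_eq ?_)
      ring
    exact le_of_mul_le_mul_left h6 h5
  have h5 : (t : ℝ) * (2 * Real.log 2) ≤ Real.log 2 + A * ϱ := by
    have h6 := Real.log_le_log (by positivity) h4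
    rw [Real.log_pow, Real.log_mul (by norm_num) (Real.exp_pos _).ne', Real.log_exp,
      show (4 : ℝ) = 2 ^ 2 by norm_num, Real.log_pow] at h6
    push_cast at h6
    exact h6
  have h6 : k * ϱ / (6 * Real.pi) - r ≤ t := by
    have h7 : ∑ j : Fin r, (‖x j‖ * ϱ / (6 * Real.pi) - 1) ≤
        ∑ j, ((⌊‖x j‖ * ϱ / (6 * Real.pi)⌋₊ : ℕ) : ℝ) :=
      sum_le_sum fun j _ => (Nat.sub_one_lt_floor _).le
    rw [sum_sub_distrib, sum_const, card_univ, Fintype.card_fin, nsmul_eq_mul, mul_one,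
      ← sum_div, ← sum_mul, ← hk] at h7
    rw [ht]
    push_cast
    exact h7
  have h7 : k * ϱ ≤ 18.9 * (t + r) := by
    have h8 : k * ϱ / (6 * Real.pi) ≤ t + r := by linarith
    rw [div_le_iff₀ (by positivity)] at h8
    have h9 : (0 : ℝ) ≤ (t : ℝ) + r := by positivity
    nlinarith
  have hlog1 := Real.log_two_gt_d9
  have hlog2 := Real.log_two_lt_d9
  have h8 : (t : ℝ) ≤ 0.51 + 0.722 * (A * ϱ) := by
    have h9 : 0 ≤ A * ϱ := by positivity
    nlinarith
  have h9 : k * ϱ ≤ 28.6 * r + 13.7 * (A * ϱ) := by nlinarith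
  rcases le_or_gt (1 : ℝ) (N / (20 * K)) with hcase | hcase
  · have h10 : ϱ = 1 := min_eq_left hcase
    rw [h10] at h9
    linarith
  · exfalso
    have h10 : ϱ = N / (20 * K) := min_eq_right hcase.le
    have h11 : K * ϱ = N / 20 := by
      rw [h10]
      field_simp
    have h12 : A * ϱ ≤ A := mul_le_of_le_one_right (by linarith) hϱ1
    have h13 : K * ϱ = k * ϱ + A * ϱ := by rw [hK]; ring
    linarith

include hm hA hr hx hx0 hN1 hN2 in
/-- The product is nearly periodic. -/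
theorem near2 (w : ℂ) (hw : ‖w‖ ≤ 1 / 4) :
    ‖∏ j, (1 - Complex.exp ((-(2 * Real.pi * Complex.I) - w) * x j)) -
      ∏ j, (1 - Complex.exp (-w * x j))‖ ≤ Real.exp (-N) := by
  have hsize := size e x δ N hm A hA hr hx hx0 hN1 hN2
  obtain ⟨hd1, hd2⟩ := deg_bounds e x δ N hm A hA hr hx hx0 hN1
  have hA1 : (1 : ℝ) ≤ A := by
    have : 1 ≤ A := by omega
    exact_mod_cast this
  have hAre : (r : ℝ) + e = A := by rw [hA]; push_cast; ring
  have hN1' : (5000 : ℝ) * A ≤ N := by exact_mod_cast hN1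
  set w' : ℂ := w + 2 * Real.pi * Complex.I with hw'
  have h1 : ∏ j, (1 - Complex.exp ((-(2 * Real.pi * Complex.I) - w) * x j)) = F x w' := by
    rw [F, hw']
    refine prod_congr rfl fun j _ => ?_
    congr 2
    ring
  have hG : G e δ r w' = G e δ r w := by
    rw [G, G]
    have h2 : Complex.exp (-w') = Complex.exp (-w) := by
      rw [hw', neg_add, Complex.exp_add, Complex.exp_neg (2 * Real.pi * Complex.I),
        Complex.exp_two_pi_mul_I, inv_one, mul_one]
    have h3 : ∀ l : ℕ, Complex.exp (-w' * l) = Complex.exp (-w * l) := by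
      intro l
      have h4 : -w' * l = (l : ℂ) * -w' := mul_comm _ _
      have h5 : -w * l = (l : ℂ) * -w := mul_comm _ _
      rw [h4, h5, Complex.exp_nat_mul, Complex.exp_nat_mul, h2]
    rw [h2]
    simp only [h3]
  have hwn : ‖w'‖ ≤ 6.55 := by
    rw [hw']
    refine (norm_add_le _ _).trans ?_
    rw [norm_mul, norm_mul, Complex.norm_I, Complex.norm_real, Complex.norm_two,
      Real.norm_of_nonneg Real.pi_pos.le]
    have := Real.pi_lt_d2
    linarith
  have hb : ∀ u : ℂ, ‖u‖ ≤ 6.55 → ‖F x u - G e δ r u‖ ≤ Real.exp (-N) / 2 := by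
    intro u hu
    have h2 := tail_fam e x δ N hm 8 (by norm_num) u
    refine h2.trans ?_
    rw [hAre]
    set d : ℝ := ∑ l ∈ range (e + 1), (δ l : ℝ) with hd
    have h3 : Real.exp (8 * ((∑ j, ‖x j‖ + A) * ‖u‖)) ≤ Real.exp (2310 * A) := by
      refine Real.exp_le_exp.2 ?_
      have h4 : (∑ j, ‖x j‖ + A) * ‖u‖ ≤ (44 * A) * 6.55 :=
        mul_le_mul (by linarith) hu (norm_nonneg _) (by positivity)
      linarith
    have h4 : (4 * A : ℝ) ^ r ≤ Real.exp (N / 500) :=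
      log_small e N A hA hr hN1 hN2 4 (by norm_num) (by norm_num)
    have h5 : (2 : ℝ) ^ r * (1 + d) ≤ 2 * (4 * A) ^ r := by
      have h6 : (4 * A : ℝ) ^ r = 2 ^ r * (2 * A) ^ r := by rw [← mul_pow]; congr 1; ring
      have h7 : (0 : ℝ) < 2 ^ r := by positivity
      rw [h6]
      nlinarith
    rw [div_le_iff₀ (by positivity), pow_succ]
    have h8 : Real.exp 2 ≤ 8 := by
      have h11 : Real.exp 1 < 2.7182818286 := Real.exp_one_lt_d9
      have h12 : Real.exp 2 = Real.exp 1 ^ 2 := by rw [← Real.exp_nat_mul]; norm_num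
      rw [h12]
      nlinarith [Real.exp_pos 1]
    have h9 : Real.exp (2 * N) ≤ 8 ^ N := by
      have h10 : Real.exp (2 * N) = Real.exp 2 ^ N := by
        rw [← Real.exp_nat_mul]
        congr 1
        ring
      rw [h10]
      exact pow_le_pow_left₀ (Real.exp_pos _).le h8 N
    calc 2 ^ r * (1 + d) * Real.exp (8 * ((∑ j, ‖x j‖ + A) * ‖u‖)) ≤
        (2 * Real.exp (N / 500)) * Real.exp (2310 * A) := by
          apply mul_le_mul _ h3 (Real.exp_pos _).le (by positivity)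
          linarith
      _ = 2 * Real.exp (N / 500 + 2310 * A) := by rw [Real.exp_add]; ring
      _ ≤ 2 * Real.exp (-N + 2 * N) := by
          apply mul_le_mul_of_nonneg_left _ (by norm_num)
          exact Real.exp_le_exp.2 (by linarith)
      _ = 2 * (Real.exp (-N) * Real.exp (2 * N)) := by rw [Real.exp_add]
      _ ≤ 2 * (Real.exp (-N) * 8 ^ N) := by
          apply mul_le_mul_of_nonneg_left _ (by norm_num)
          exact mul_le_mul_of_nonneg_left h9 (Real.exp_pos _).le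
      _ ≤ Real.exp (-N) / 2 * (8 ^ N * 8) := by
          have : 0 ≤ Real.exp (-N) * 8 ^ N := by positivity
          linarith
  have h2 := hb w' hwn
  have h3 := hb w (hw.trans (by norm_num))
  rw [h1]
  have h4 : F x w' - ∏ j, (1 - Complex.exp (-w * x j)) = (F x w' - G e δ r w') -
      (F x w - G e δ r w) := by
    rw [hG]
    show F x w' - F x w = _
    ring
  rw [h4]
  refine (norm_sub_le _ _).trans ?_
  linarith

end

end Pool.Agent.K4H57.UH
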