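import Pool.Agent.K4H57.UN.Newton

/-!
# Jensen's inequality for products of the functions `1 - exp (- w x)`
-/

set_option autoImplicit false

open Finset

namespace Pool.Agent.K4H57.UH

open Pool.Agent.K4H57.UN

lemma divide' (u : ℂ → ℂ) (hu : Differentiable ℂ u) (a : ℕ → ℂ) (ha : Function.Injective a)
    (hz : ∀ j, u (a j) = 0) (n : ℕ) :
    ∃ g : ℂ → ℂ, Differentiable ℂ g ∧ ∀ z, u z = (∏ j ∈ range n, (z - a j)) * g z := by
  induction n with
  | zero => exact ⟨u, hu, fun z => by simp⟩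
  | succ n ih =>
    obtain ⟨g, hg, hgz⟩ := ih
    have h1 : ∏ j ∈ range n, (a n - a j) ≠ 0 := by
      rw [prod_ne_zero_iff]
      intro j hj h
      rw [sub_eq_zero] at h
      have := ha h
      rw [mem_range] at hj
      omega
    have h2 : g (a n) = 0 := by
      have h3 := hgz (a n)
      rw [hz, eq_comm, mul_eq_zero] at h3
      exact h3.resolve_left h1
    refine ⟨dslope g (a n), ?_, fun z => ?_⟩
    · have h3 := (Complex.differentiableOn_dslope (f := g) (s := Set.univ) (c := a n)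
        Filter.univ_mem).2 hg.differentiableOn
      exact differentiableOn_univ.1 h3
    · have h4 := sub_smul_dslope g (a n) z
      rw [smul_eq_mul, h2, sub_zero] at h4
      rw [prod_range_succ, hgz z, ← h4]
      ring

/-- The product of the `z - l` over the integers `l` with `0 < |l| ≤ L`. -/
noncomputable def E (L : ℕ) (z : ℂ) : ℂ := ∏ j ∈ range (2 * L), (z - UN.sq (j + 1))

lemma E_succ (L : ℕ) (z : ℂ) : E (L + 1) z = E L z * ((z + (L + 1)) * (z - (L + 1))) := by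
  rw [E, show 2 * (L + 1) = 2 * L + 1 + 1 by ring, prod_range_succ, prod_range_succ, sq_odd,
    show 2 * L + 1 + 1 = 2 * (L + 1) by ring, sq_even, E]
  push_cast
  ring

lemma E_zero (L : ℕ) : ‖E L 0‖ = (L.factorial : ℝ) ^ 2 := by
  induction L with
  | zero => simp [E]
  | succ L ih =>
    rw [E_succ, norm_mul, ih, Nat.factorial_succ]
    have h1 : ‖((0 : ℂ) + (L + 1)) * (0 - (L + 1))‖ = ((L : ℝ) + 1) ^ 2 := by
      have h2 : ((0 : ℂ) + (L + 1)) * (0 - (L + 1)) = -(((((L : ℝ) + 1) ^ 2 : ℝ)) : ℂ) := by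
        push_cast
        ring
      rw [h2, norm_neg, Complex.norm_real, Real.norm_of_nonneg (by positivity)]
    rw [h1]
    push_cast
    ring

lemma E_large (L : ℕ) (z : ℂ) (hz : 3 * (L : ℝ) ≤ ‖z‖) :
    4 ^ L * (L.factorial : ℝ) ^ 2 ≤ ‖E L z‖ := by
  induction L with
  | zero => simp [E]
  | succ L ih =>
    push_cast at hz
    have h1 := ih (by linarith)
    have h0 : ‖((L : ℂ) + 1)‖ = L + 1 := by
      have : ((L : ℂ) + 1) = (((L : ℝ) + 1 : ℝ) : ℂ) := by push_cast; ring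
      rw [this, Complex.norm_real, Real.norm_of_nonneg (by positivity)]
    have h2 : 2 * ((L : ℝ) + 1) ≤ ‖z + (L + 1)‖ := by
      have h3 := norm_sub_norm_le z (-((L : ℂ) + 1))
      rw [norm_neg, h0, sub_neg_eq_add] at h3
      linarith
    have h3 : 2 * ((L : ℝ) + 1) ≤ ‖z - (L + 1)‖ := by
      have h4 := norm_sub_norm_le z ((L : ℂ) + 1)
      rw [h0] at h4
      linarith
    rw [E_succ, norm_mul, norm_mul, Nat.factorial_succ]
    have h4 : (2 * ((L : ℝ) + 1)) * (2 * ((L : ℝ) + 1)) ≤ ‖z + (L + 1)‖ * ‖z - (L + 1)‖ :=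
      mul_le_mul h2 h3 (by positivity) (norm_nonneg _)
    calc (4 : ℝ) ^ (L + 1) * (((L + 1) * L.factorial : ℕ) : ℝ) ^ 2 =
        (4 ^ L * (L.factorial : ℝ) ^ 2) * ((2 * ((L : ℝ) + 1)) * (2 * ((L : ℝ) + 1))) := by
          push_cast
          ring
      _ ≤ _ := mul_le_mul h1 h4 (by positivity) (norm_nonneg _)

lemma quot (L : ℕ) : ∃ g : ℂ → ℂ, Differentiable ℂ g ∧
    (L.factorial : ℝ) ^ 2 * ‖g 0‖ = 2 * Real.pi ∧
    ∀ z : ℂ, 3 * (L : ℝ) ≤ ‖z‖ → ‖z‖ * (4 ^ L * (L.factorial : ℝ) ^ 2) * ‖g z‖ ≤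
      ‖1 - Complex.exp (-(2 * Real.pi * Complex.I) * z)‖ := by
  set φ : ℂ → ℂ := fun z => 1 - Complex.exp (-(2 * Real.pi * Complex.I) * z) with hφ
  have hd : Differentiable ℂ φ := by
    rw [hφ]
    fun_prop
  have hz : ∀ m : ℤ, φ m = 0 := by
    intro m
    have h1 : Complex.exp (-(2 * Real.pi * Complex.I) * m) = 1 := by
      rw [Complex.exp_eq_one_iff]
      exact ⟨-m, by push_cast; ring⟩
    rw [hφ]
    show 1 - Complex.exp (-(2 * Real.pi * Complex.I) * m) = 0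
    rw [h1, sub_self]
  have h00 : φ 0 = 0 := by
    have := hz 0
    simpa using this
  set u : ℂ → ℂ := dslope φ 0 with hu
  have hud : Differentiable ℂ u := by
    have h3 := (Complex.differentiableOn_dslope (f := φ) (s := Set.univ) (c := 0)
      Filter.univ_mem).2 hd.differentiableOn
    exact differentiableOn_univ.1 h3
  have huz : ∀ z, φ z = z * u z := by
    intro z
    have h4 := sub_smul_dslope φ 0 z
    rw [smul_eq_mul, h00, sub_zero, sub_zero] at h4
    exact h4.symm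
  have hu0 : ‖u 0‖ = 2 * Real.pi := by
    rw [hu, dslope_same]
    have h1 : HasDerivAt φ (-(Complex.exp (-(2 * Real.pi * Complex.I) * 0) *
        (-(2 * Real.pi * Complex.I) * 1))) 0 := by
      rw [hφ]
      exact (((hasDerivAt_id (0 : ℂ)).const_mul (-(2 * Real.pi * Complex.I))).cexp).const_sub 1
    rw [h1.deriv]
    simp [abs_of_pos Real.pi_pos]
  obtain ⟨g, hg, hgz⟩ := divide' u hud (fun j => ((UN.sq (j + 1) : ℤ) : ℂ)) (by
    intro a b h
    have h0 : ((UN.sq (a + 1) : ℤ) : ℂ) = ((UN.sq (b + 1) : ℤ) : ℂ) := h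
    have h1 : UN.sq (a + 1) = UN.sq (b + 1) := by exact_mod_cast h0
    have := sq_inj h1
    omega) (by
    intro j
    have h1 := hz (UN.sq (j + 1))
    rw [huz, mul_eq_zero] at h1
    refine h1.resolve_left ?_
    intro h
    have h2 : UN.sq (j + 1) = UN.sq 0 := by
      have h3 : UN.sq 0 = 0 := by simp [UN.sq]
      rw [h3]
      exact_mod_cast h
    have := sq_inj h2
    omega) (2 * L)
  refine ⟨g, hg, ?_, fun z hL => ?_⟩
  · have h1 := hgz 0
    have h2 : ‖u 0‖ = ‖E L 0‖ * ‖g 0‖ := by rw [h1, norm_mul]; rfl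
    rw [← hu0, h2, E_zero]
  · have h1 : φ z = z * (E L z * g z) := by rw [huz, hgz]; rfl
    show _ ≤ ‖φ z‖
    rw [h1, norm_mul, norm_mul, mul_assoc]
    exact mul_le_mul_of_nonneg_left (mul_le_mul_of_nonneg_right (E_large L z hL) (norm_nonneg _))
      (norm_nonneg _)

/-- **Jensen's inequality**. -/
theorem jensen {r : ℕ} (x : Fin r → ℂ) (ϱ M : ℝ) (hϱ : 0 < ϱ)
    (hM : ∀ w : ℂ, ‖w‖ = ϱ → ∏ j, ‖1 - Complex.exp (-w * x j)‖ ≤ M) (L : Fin r → ℕ)
    (hL : ∀ j, 3 * (L j : ℝ) ≤ ‖x j‖ * ϱ / (2 * Real.pi)) :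
    (∏ j, ‖x j‖) * ϱ ^ r * 4 ^ (∑ j, L j) ≤ M := by
  choose g hg hg0 hgz using fun j => quot (L j)
  have hpi := Real.pi_pos
  set Q : Fin r → ℝ := fun j => ‖x j‖ * ϱ / (2 * Real.pi) * (4 ^ L j * ((L j).factorial : ℝ) ^ 2)
    with hQ
  have hQ0 : ∀ j, 0 ≤ Q j := fun j => by rw [hQ]; positivity
  set Φ : ℂ → ℂ := fun w => ∏ j, ((Q j : ℝ) : ℂ) * g j (x j * w / (2 * Real.pi * Complex.I)) with hΦ
  have hΦd : Differentiable ℂ Φ := by
    rw [hΦ]
    refine Differentiable.fun_finsetProd fun j _ => ?_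
    refine (differentiable_const _).mul ((hg j).comp ?_)
    fun_prop
  have hb : ∀ w : ℂ, ‖w‖ = ϱ → ‖Φ w‖ ≤ M := by
    intro w hw
    refine le_trans ?_ (hM w hw)
    rw [hΦ]
    show ‖∏ j, _‖ ≤ _
    rw [norm_prod]
    refine prod_le_prod (fun _ _ => norm_nonneg _) fun j _ => ?_
    set z : ℂ := x j * w / (2 * Real.pi * Complex.I) with hz
    have hzn : ‖z‖ = ‖x j‖ * ϱ / (2 * Real.pi) := by
      rw [hz, norm_div, norm_mul, norm_mul, norm_mul, Complex.norm_I, Complex.norm_real,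
        Complex.norm_two, Real.norm_of_nonneg hpi.le, hw, mul_one]
    have h1 := hgz j z (by rw [hzn]; exact hL j)
    have h2 : -(2 * Real.pi * Complex.I) * z = -w * x j := by
      rw [hz]
      have h3 : (2 * Real.pi * Complex.I : ℂ) ≠ 0 := Complex.two_pi_I_ne_zero
      field_simp
    rw [h2, hzn] at h1
    rw [norm_mul, Complex.norm_real, Real.norm_of_nonneg (hQ0 j)]
    exact h1
  have h0 : ‖Φ 0‖ ≤ M := by
    refine Complex.norm_le_of_forall_mem_frontier_norm_le (U := Metric.ball 0 ϱ)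
      Metric.isBounded_ball hΦd.diffContOnCl (fun z hz => ?_)
      (subset_closure (Metric.mem_ball_self hϱ))
    rw [frontier_ball _ hϱ.ne', mem_sphere_zero_iff_norm] at hz
    exact hb z hz
  refine le_trans (le_of_eq ?_) h0
  rw [hΦ]
  show _ = ‖∏ j, _‖
  rw [norm_prod]
  have h1 : ∀ j, ‖((Q j : ℝ) : ℂ) * g j (x j * 0 / (2 * Real.pi * Complex.I))‖ =
      ‖x j‖ * ϱ * 4 ^ L j := by
    intro j
    rw [mul_zero, zero_div, norm_mul, Complex.norm_real, Real.norm_of_nonneg (hQ0 j), hQ]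
    have h2 := hg0 j
    show ‖x j‖ * ϱ / (2 * Real.pi) * (4 ^ L j * ((L j).factorial : ℝ) ^ 2) * ‖g j 0‖ = _
    calc ‖x j‖ * ϱ / (2 * Real.pi) * (4 ^ L j * ((L j).factorial : ℝ) ^ 2) * ‖g j 0‖ =
        ‖x j‖ * ϱ * 4 ^ L j * (((L j).factorial : ℝ) ^ 2 * ‖g j 0‖) / (2 * Real.pi) := by ring
      _ = _ := by
        rw [h2]
        field_simp
  simp only [h1]
  rw [prod_mul_distrib, prod_mul_distrib, prod_const, card_univ, Fintype.card_fin,
    prod_pow_eq_pow_sum]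

end Pool.Agent.K4H57.UH
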