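import Pool.Agent.K4H57.UH.Mom
import Pool.Agent.K4H57.UH.Jen
import Pool.Agent.K4H57.CI.ModP

/-!
# The family of the sums of the Chern roots and the numerator of the Hilbert series
-/

set_option autoImplicit false

open Finset

namespace Pool.Agent.K4H57.UH

/-- Iterated differences of binomial coefficients. -/
lemma diff_iter {α : Type*} [DecidableEq α] (s : Finset α) (n : ℕ) :
    ∀ y : ℂ, ∑ S ∈ s.powerset, (-1 : ℂ) ^ S.card * B (n + s.card) (y + s.card - S.card) = B n y := by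
  induction s using Finset.induction_on with
  | empty => intro y; simp
  | insert a s ha ih =>
    intro y
    rw [sum_powerset_insert ha, card_insert_of_notMem ha]
    have h1 : ∀ S ∈ s.powerset, (-1 : ℂ) ^ (insert a S).card *
        B (n + (s.card + 1)) (y + (s.card + 1 : ℕ) - (insert a S).card) =
        -((-1 : ℂ) ^ S.card * B (n + s.card + 1) ((y + s.card + 1 - S.card) - 1)) := by
      intro S hS
      have h2 : a ∉ S := fun h => ha (mem_powerset.1 hS h)
      rw [card_insert_of_notMem h2, pow_succ]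
      have e1 : y + ((s.card + 1 : ℕ) : ℂ) - ((S.card + 1 : ℕ) : ℂ) =
          y + s.card + 1 - S.card - 1 := by push_cast; ring
      rw [e1, ← add_assoc]
      ring
    rw [sum_congr rfl h1, sum_neg_distrib, ← sub_eq_add_neg, ← sum_sub_distrib, ← ih y]
    refine sum_congr rfl fun S _ => ?_
    have h3 := B_diff (n + s.card) (y + s.card + 1 - S.card)
    have e2 : y + ((s.card + 1 : ℕ) : ℂ) - (S.card : ℂ) = y + s.card + 1 - S.card := by
      push_cast; ring
    have e3 : y + s.card + 1 - S.card - 1 = y + s.card - S.card := by ring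
    rw [e2, ← add_assoc, ← mul_sub, h3, e3]

/-- The index set. -/
abbrev Ix (r : ℕ) := Finset (Fin r) ⊕ (ℕ × Finset (Fin r))

/-- All indices. -/
def TT (r e : ℕ) : Finset (Ix r) :=
  ((univ : Finset (Fin r)).powerset).disjSum (range (e + 1) ×ˢ (univ : Finset (Fin r)).powerset)

/-- The weights. -/
noncomputable def cc (r : ℕ) (δ : ℕ → ℕ) : Ix r → ℂ :=
  Sum.elim (fun S => (-1) ^ S.card) (fun p => -(δ p.1 * (-1) ^ p.2.card))

/-- The points. -/
noncomputable def vv {r : ℕ} (x : Fin r → ℂ) : Ix r → ℂ :=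
  Sum.elim (fun S => ∑ i ∈ S, x i) (fun p => (p.1 : ℂ) + p.2.card)

section

variable {r : ℕ} (e : ℕ) (x : Fin r → ℂ) (δ : ℕ → ℕ)

lemma sum_fam (g : ℂ → ℂ) : ∑ i ∈ TT r e, cc r δ i * g (vv x i) =
    ∑ S ∈ (univ : Finset (Fin r)).powerset, (-1 : ℂ) ^ S.card * g (∑ i ∈ S, x i) -
      ∑ l ∈ range (e + 1), (δ l : ℂ) * ∑ S ∈ (univ : Finset (Fin r)).powerset,
        (-1 : ℂ) ^ S.card * g (l + S.card) := by
  rw [TT, sum_disjSum, sub_eq_add_neg, ← sum_neg_distrib, sum_product]
  congr 1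
  refine sum_congr rfl fun l _ => ?_
  rw [mul_sum, ← sum_neg_distrib]
  refine sum_congr rfl fun S _ => ?_
  show -((δ l : ℂ) * (-1) ^ S.card) * g (l + S.card) = _
  ring

/-- The product of the `1 - exp (- w x)`. -/
noncomputable def F (w : ℂ) : ℂ := ∏ j, (1 - Complex.exp (-w * x j))

/-- The numerator of the Hilbert series at `exp (- w)`. -/
noncomputable def G (r : ℕ) (w : ℂ) : ℂ := (1 - Complex.exp (-w)) ^ r *
  ∑ l ∈ range (e + 1), (δ l : ℂ) * Complex.exp (-w * l)

lemma prod_exp (u : ℂ) : ∏ j, (1 - Complex.exp (u * x j)) =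
    ∑ S ∈ (univ : Finset (Fin r)).powerset, (-1 : ℂ) ^ S.card * Complex.exp (u * ∑ i ∈ S, x i) := by
  have h1 : ∀ j, 1 - Complex.exp (u * x j) = 1 + -Complex.exp (u * x j) := fun j => by ring
  simp only [h1]
  rw [prod_one_add]
  refine sum_congr rfl fun S _ => ?_
  rw [prod_neg, mul_sum, Complex.exp_sum]

lemma exp_fam (w : ℂ) : ∑ i ∈ TT r e, cc r δ i * Complex.exp (-w * vv x i) =
    F x w - G e δ r w := by
  rw [sum_fam e x δ fun z => Complex.exp (-w * z), F, prod_exp, G, mul_sum]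
  congr 1
  refine sum_congr rfl fun l _ => ?_
  have h1 := prod_exp (r := r) (fun _ => 1) (-w)
  rw [prod_const, card_univ, Fintype.card_fin, mul_one] at h1
  rw [h1]
  rw [mul_left_comm, sum_mul]
  congr 1
  refine sum_congr rfl fun S _ => ?_
  rw [sum_const, nsmul_eq_mul, mul_one, mul_add, Complex.exp_add]
  ring

lemma norm_fam : ∑ i ∈ TT r e, ‖cc r δ i‖ ≤ 2 ^ r * (1 + ∑ l ∈ range (e + 1), (δ l : ℝ)) := by
  rw [TT, sum_disjSum, sum_product]
  have h1 : ∀ S : Finset (Fin r), ‖cc r δ (Sum.inl S)‖ = 1 := by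
    intro S
    show ‖(-1 : ℂ) ^ S.card‖ = 1
    rw [norm_pow, norm_neg, norm_one, one_pow]
  have h2 : ∀ (l : ℕ) (S : Finset (Fin r)), ‖cc r δ (Sum.inr (l, S))‖ = δ l := by
    intro l S
    show ‖-((δ l : ℂ) * (-1) ^ S.card)‖ = _
    rw [norm_neg, norm_mul, norm_pow, norm_neg, norm_one, one_pow, mul_one, Complex.norm_natCast]
  simp only [h1, h2, sum_const, card_powerset, card_univ, Fintype.card_fin, nsmul_eq_mul, mul_one]
  push_cast
  rw [← mul_sum]
  linarith

lemma norm_vv (i : Ix r) (hi : i ∈ TT r e) : ‖vv x i‖ ≤ ∑ j, ‖x j‖ + (r + e) := by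
  rcases i with S | ⟨l, S⟩
  · have h1 : ‖∑ i ∈ S, x i‖ ≤ ∑ j, ‖x j‖ :=
      (norm_sum_le _ _).trans (sum_le_univ_sum_of_nonneg fun j => norm_nonneg _)
    show ‖∑ i ∈ S, x i‖ ≤ _
    have : (0 : ℝ) ≤ r + e := by positivity
    linarith
  · rw [TT, inr_mem_disjSum, mem_product, mem_range] at hi
    have h1 : (l : ℝ) ≤ e := by
      have : l ≤ e := by have := hi.1; simp only at this; omega
      exact_mod_cast this
    have h2 : (S.card : ℝ) ≤ r := by
      have := card_le_univ S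
      rw [Fintype.card_fin] at this
      exact_mod_cast this
    show ‖(l : ℂ) + S.card‖ ≤ _
    refine (norm_add_le _ _).trans ?_
    rw [Complex.norm_natCast, Complex.norm_natCast]
    have : 0 ≤ ∑ j, ‖x j‖ := sum_nonneg fun j _ => norm_nonneg _
    linarith

/-- The condition on the Hilbert polynomial gives the moments. -/
lemma mom_fam (n : ℕ) (hH : ∀ t : ℤ, ∑ S ∈ (univ : Finset (Fin r)).powerset,
      (-1 : ℂ) ^ S.card * B (n + r) ((n + r : ℕ) + t - ∑ i ∈ S, x i) =
        ∑ l ∈ range (e + 1), (δ l : ℂ) * B n (n + t - l)) (m : ℕ) (hm : m ≤ n + r) :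
    ∑ i ∈ TT r e, cc r δ i * vv x i ^ m = 0 := by
  refine mom (TT r e) (cc r δ) (vv x) (n + r) (fun t => ?_) m hm
  rw [sum_fam e x δ fun z => B (n + r) ((n + r : ℕ) + t - z), hH, sub_eq_zero]
  refine sum_congr rfl fun l _ => ?_
  congr 1
  rw [← diff_iter (univ : Finset (Fin r)) n, card_univ, Fintype.card_fin]
  refine sum_congr rfl fun S _ => ?_
  congr 2
  push_cast
  ring

/-- The product of the roots. -/
lemma deg_fam (n : ℕ) (hm : ∑ i ∈ TT r e, cc r δ i * vv x i ^ r = 0) :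
    ∏ j, x j = ∑ l ∈ range (e + 1), (δ l : ℂ) := by
  have key : ∀ (y : Fin r → ℂ) (z : ℂ), ∑ S ∈ (univ : Finset (Fin r)).powerset,
      (-1 : ℂ) ^ S.card * (z + ∑ i ∈ S, y i) ^ r = (-1) ^ r * r.factorial * ∏ j, y j := by
    intro y z
    have h1 := (CI.polar (univ.val.map y : Multiset ℂ)).2 z
    rw [CI.sum_powerset_fin] at h1
    simp only [Multiset.card_map] at h1
    have h2 : Multiset.card (univ : Finset (Fin r)).val = r := by simp
    rw [h2] at h1
    exact h1
  rw [sum_fam e x δ fun z => z ^ r] at hm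
  have h1 := key x 0
  simp only [zero_add] at h1
  have h2 : ∀ l : ℕ, ∑ S ∈ (univ : Finset (Fin r)).powerset,
      (-1 : ℂ) ^ S.card * ((l : ℂ) + S.card) ^ r = (-1) ^ r * r.factorial := by
    intro l
    have h3 := key (fun _ => 1) l
    simp only [sum_const, nsmul_eq_mul, mul_one, prod_const_one] at h3
    exact h3
  simp only [h2] at hm
  rw [h1, ← sum_mul, sub_eq_zero, mul_comm] at hm
  have h4 : ((-1 : ℂ)) ^ r * r.factorial ≠ 0 :=
    mul_ne_zero (pow_ne_zero _ (by norm_num)) (by exact_mod_cast r.factorial_ne_zero)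
  exact mul_right_cancel₀ h4 hm

end

end Pool.Agent.K4H57.UH
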