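import Pool.Agent.K4H57.UH.Pow
import Pool.Agent.K4H57.UH.Final

/-!
# The Hilbert series
-/

set_option autoImplicit false

open Finset Polynomial

namespace Pool.Agent.K4H57.UH

open Pool.Agent.R920.CH Pool.Agent.K4H57.CI Pool.Agent.K4H57.UN

/-- A polynomial of degree `≤ N` whose value at `exp (- T)` vanishes of order `N + 1` is `0`. -/
lemma eq_zero_of_EE (p : ℤ[X]) (N : ℕ) (hdeg : p.natDegree ≤ N)
    (h : ∀ m ≤ N, PowerSeries.coeff m (aeval (EE 1) p) = 0) : p = 0 := by
  have hk : ∀ m ≤ N, ∑ k ∈ range (N + 1), (p.coeff k : ℂ) * (k : ℂ) ^ m = 0 := by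
    intro m hm
    have h1 := h m hm
    rw [aeval_eq_sum_range' (Nat.lt_succ_of_le hdeg), map_sum] at h1
    have h2 : (-1) ^ m / (m.factorial : ℂ) *
        ∑ k ∈ range (N + 1), (p.coeff k : ℂ) * (k : ℂ) ^ m = 0 := by
      rw [← h1, mul_sum]
      refine sum_congr rfl fun k _ => ?_
      have h3 : (algebraMap ℤ (PowerSeries ℂ)) (p.coeff k) = PowerSeries.C (p.coeff k : ℂ) := by
        simp
      rw [Algebra.smul_def, h3, PowerSeries.coeff_C_mul, ← EE_nat, coeff_EE]
      ring
    refine (mul_eq_zero.1 h2).resolve_left ?_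
    exact div_ne_zero (pow_ne_zero _ (by norm_num)) (by exact_mod_cast m.factorial_ne_zero)
  have hg : ∀ g : ℂ[X], g.natDegree ≤ N → ∑ k ∈ range (N + 1), (p.coeff k : ℂ) * g.eval (k : ℂ) = 0 := by
    intro g hgd
    have h1 : ∀ z : ℂ, g.eval z = ∑ m ∈ range (N + 1), g.coeff m * z ^ m := fun z =>
      Polynomial.eval_eq_sum_range' (Nat.lt_succ_of_le hgd) z
    simp only [h1, mul_sum]
    rw [sum_comm]
    refine sum_eq_zero fun m hm => ?_
    rw [mem_range] at hm
    have h2 : ∀ k ∈ range (N + 1), (p.coeff k : ℂ) * (g.coeff m * (k : ℂ) ^ m) =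
        g.coeff m * ((p.coeff k : ℂ) * (k : ℂ) ^ m) := fun k _ => by ring
    rw [sum_congr rfl h2, ← mul_sum, hk m (by omega), mul_zero]
  ext i
  rw [coeff_zero]
  rcases lt_or_ge N i with hi | hi
  · exact coeff_eq_zero_of_natDegree_lt (by omega)
  have h1 := hg (∏ k ∈ (range (N + 1)).erase i, (X - C (k : ℂ))) (by
    have h2 := natDegree_prod_le ((range (N + 1)).erase i) fun k : ℕ => (X - C (k : ℂ))
    refine h2.trans ?_
    simp only [natDegree_X_sub_C, sum_const, smul_eq_mul, mul_one]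
    rw [card_erase_of_mem (mem_range.2 (by omega)), card_range]
    omega)
  rw [sum_eq_single i] at h1
  · rcases mul_eq_zero.1 h1 with h2 | h2
    · exact_mod_cast h2
    · exfalso
      rw [eval_prod, prod_eq_zero_iff] at h2
      obtain ⟨k, hk1, hk2⟩ := h2
      rw [eval_sub, eval_X, eval_C, sub_eq_zero] at hk2
      exact (ne_of_mem_erase hk1) (by exact_mod_cast hk2.symm)
  · intro k hk1 hki
    rw [eval_prod, prod_eq_zero (mem_erase.2 ⟨hki, hk1⟩) (by simp), mul_zero]
  · intro h2
    exact absurd (mem_range.2 (by omega)) h2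

/-- **The Hilbert series**, if the Chern roots are natural numbers. -/
theorem hilb_eq {n r e : ℕ} (c : ℕ → ℤ) (hee : c 1 = e) (hr : 1 ≤ r) (δ : ℕ → ℕ)
    (hH : HilbertNumerator n r (chernPoly r c) e δ) (hN : r + e ≤ n + r) (a : Multiset ℤ)
    (ha1 : ∀ x ∈ a, 1 ≤ x) (hcard : Multiset.card a = r)
    (ha : chernPoly r c = (a.map fun x => X - C x).prod) :
    (1 - X) ^ r * ∑ l ∈ range (e + 1), C (δ l : ℤ) * X ^ l =
      (a.map fun x => (1 - X ^ x.toNat : ℤ[X])).prod := by
  obtain ⟨b, hb⟩ := exists_fun a (r := r) hcard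
  set κ : Fin r → ℕ := fun j => (b j).toNat with hκ
  have hb1 : ∀ j, 1 ≤ b j := fun j => ha1 _ (by
    rw [← hb]
    exact Multiset.mem_map_of_mem _ (mem_univ j))
  have hκb : ∀ j, ((κ j : ℕ) : ℤ) = b j := fun j => Int.toNat_of_nonneg (by have := hb1 j; omega)
  have hroots : rootsOf (chernPoly r c) = univ.val.map fun j => (b j : ℂ) := by
    have h1 : (chernPoly r c).map (Int.castRingHom ℂ) =
        ((univ.val.map fun j => (b j : ℂ)).map fun z => X - C z).prod := by
      rw [ha, ← hb, Polynomial.map_multiset_prod, Multiset.map_map, Multiset.map_map,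
        Multiset.map_map]
      congr 1
      refine Multiset.map_congr rfl fun j _ => ?_
      simp
    rw [rootsOf, h1, roots_multiset_prod_X_sub_C]
  have hm : ∀ m ≤ n + r, ∑ i ∈ TT r e, cc r δ i * vv (fun j => (b j : ℂ)) i ^ m = 0 := fun m hm =>
    fam_of (chernPoly r c) δ hH _ hroots m hm
  have hsum : ∑ j, κ j = r + e := by
    have h1 := chern_eq r c a hcard ha 1 hr
    rw [hee, Multiset.esymm, Multiset.powersetCard_one, Multiset.map_map, ← hb, Multiset.map_map,
      Multiset.map_map] at h1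
    simp only [Function.comp_def, Multiset.prod_singleton] at h1
    have h2 : (univ.val.map fun j => b j - 1).sum = ∑ j, (b j - 1) := rfl
    rw [h2, sum_sub_distrib, sum_const, card_univ, Fintype.card_fin, nsmul_eq_mul, mul_one] at h1
    have h3 : ((∑ j, κ j : ℕ) : ℤ) = ((r + e : ℕ) : ℤ) := by
      push_cast
      rw [sum_congr rfl fun j _ => hκb j, h1]
      ring
    exact_mod_cast h3
  have hp : qH e r δ - q0 κ = 0 := by
    refine eq_zero_of_EE _ (n + r) ?_ fun m hmN => ?_
    · refine (natDegree_sub_le _ _).trans (max_le ?_ ?_)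
      · exact (deg_qH e r δ).trans hN
      · refine (deg_q0 κ).trans ?_
        rw [hsum]
        exact hN
    · rw [map_sub, map_sub, coeff_qH, aeval_q0_EE, coeff_FP, sub_eq_zero]
      have h1 := hm m hmN
      rw [sum_fam e _ δ fun z => z ^ m, sub_eq_zero] at h1
      rw [← h1]
      congr 1
      refine sum_congr rfl fun S _ => ?_
      congr 2
      refine sum_congr rfl fun j _ => ?_
      rw [← hκb]
      push_cast
      rfl
  have h1 := sub_eq_zero.1 hp
  rw [qH, q0] at h1
  rw [h1, ← hb, Multiset.map_map]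
  rfl

end Pool.Agent.K4H57.UH
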