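import Mathlib

/-!
# Signed families of points whose moments vanish
-/

set_option autoImplicit false

open Finset

namespace Pool.Agent.K4H57.UH

/-- The binomial coefficient `binom (y, n)`. -/
noncomputable def B (n : ℕ) (y : ℂ) : ℂ := (n.factorial : ℂ)⁻¹ * ∏ j ∈ range n, (y - j)

lemma B_diff (n : ℕ) (y : ℂ) : B (n + 1) y - B (n + 1) (y - 1) = B n (y - 1) := by
  have h1 : ∏ j ∈ range (n + 1), (y - j) = (∏ j ∈ range n, (y - 1 - j)) * y := by
    rw [prod_range_succ']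
    congr 1
    · refine prod_congr rfl fun j _ => ?_
      push_cast
      ring
    · simp
  have h2 : ∏ j ∈ range (n + 1), (y - 1 - j) = (∏ j ∈ range n, (y - 1 - j)) * (y - 1 - n) :=
    prod_range_succ _ _
  have h3 : (n.factorial : ℂ) ≠ 0 := by exact_mod_cast n.factorial_ne_zero
  have h4 : ((n : ℂ) + 1) ≠ 0 := by exact_mod_cast n.succ_ne_zero
  rw [B, B, B, h1, h2, Nat.factorial_succ]
  push_cast
  field_simp
  ring

section

variable {ι : Type*} (T : Finset ι) (c v : ι → ℂ) (N : ℕ)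

lemma down (hB : ∀ t : ℤ, ∑ i ∈ T, c i * B N (N + t - v i) = 0) (k : ℕ) :
    ∀ n, n + k = N → ∀ t : ℤ, ∑ i ∈ T, c i * B n (n + t - v i) = 0 := by
  induction k with
  | zero =>
    intro n hn t
    rw [add_zero] at hn
    subst hn
    exact hB t
  | succ k ih =>
    intro n hn t
    have h1 := ih (n + 1) (by omega) t
    have h2 := ih (n + 1) (by omega) (t - 1)
    have h3 : ∀ i, B n (n + t - v i) = B (n + 1) ((n + 1 : ℕ) + t - v i) -
        B (n + 1) ((n + 1 : ℕ) + ((t - 1 : ℤ) : ℂ) - v i) := by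
      intro i
      have h4 := B_diff n ((n + 1 : ℕ) + t - v i)
      have e1 : ((n + 1 : ℕ) : ℂ) + t - v i - 1 = n + t - v i := by push_cast; ring
      have e2 : ((n + 1 : ℕ) : ℂ) + ((t - 1 : ℤ) : ℂ) - v i = n + t - v i := by push_cast; ring
      rw [e1] at h4
      rw [e2, ← h4]
    simp only [h3, mul_sub, sum_sub_distrib]
    rw [h1, h2, sub_zero]

lemma desc (hB : ∀ t : ℤ, ∑ i ∈ T, c i * B N (N + t - v i) = 0) (n : ℕ) (hn : n ≤ N) :
    ∑ i ∈ T, c i * ∏ j ∈ range n, (v i - j) = 0 := by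
  have h1 := down T c v N hB (N - n) n (by omega) (-1)
  have h2 : ∀ i, B n (n + ((-1 : ℤ) : ℂ) - v i) = ((n.factorial : ℂ)⁻¹ * (-1) ^ n) *
      ∏ j ∈ range n, (v i - j) := by
    intro i
    rw [B, mul_assoc]
    congr 1
    rw [← prod_range_reflect]
    have h3 : ((-1 : ℂ)) ^ n = ∏ _j ∈ range n, (-1 : ℂ) := by rw [prod_const, card_range]
    rw [h3, ← prod_mul_distrib]
    refine prod_congr rfl fun j hj => ?_
    rw [mem_range] at hj
    rw [Nat.cast_sub (by omega), Nat.cast_sub (by omega)]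
    push_cast
    ring
  have h3 : ∑ i ∈ T, c i * B n (n + ((-1 : ℤ) : ℂ) - v i) = ((n.factorial : ℂ)⁻¹ * (-1) ^ n) *
      ∑ i ∈ T, c i * ∏ j ∈ range n, (v i - j) := by
    rw [mul_sum]
    refine sum_congr rfl fun i _ => ?_
    rw [h2]
    ring
  rw [h3, mul_eq_zero] at h1
  refine h1.resolve_left ?_
  refine mul_ne_zero (inv_ne_zero (by exact_mod_cast n.factorial_ne_zero)) ?_
  exact pow_ne_zero _ (by norm_num)

lemma mom_aux (hB : ∀ t : ℤ, ∑ i ∈ T, c i * B N (N + t - v i) = 0) (k : ℕ) :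
    ∀ n, n + k ≤ N → ∑ i ∈ T, c i * ((∏ j ∈ range n, (v i - j)) * v i ^ k) = 0 := by
  induction k with
  | zero =>
    intro n hn
    have := desc T c v N hB n (by omega)
    simpa using this
  | succ k ih =>
    intro n hn
    have h1 := ih (n + 1) (by omega)
    have h2 := ih n (by omega)
    have h3 : ∑ i ∈ T, c i * ((∏ j ∈ range n, (v i - j)) * v i ^ (k + 1)) =
        ∑ i ∈ T, c i * ((∏ j ∈ range (n + 1), (v i - j)) * v i ^ k) +
          (n : ℂ) * ∑ i ∈ T, c i * ((∏ j ∈ range n, (v i - j)) * v i ^ k) := by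
      rw [mul_sum, ← sum_add_distrib]
      refine sum_congr rfl fun i _ => ?_
      rw [prod_range_succ]
      ring
    rw [h3, h1, h2, mul_zero, add_zero]

lemma mom (hB : ∀ t : ℤ, ∑ i ∈ T, c i * B N (N + t - v i) = 0) (k : ℕ) (hk : k ≤ N) :
    ∑ i ∈ T, c i * v i ^ k = 0 := by
  have := mom_aux T c v N hB k 0 (by omega)
  simpa using this

lemma tail (hm : ∀ m ≤ N, ∑ i ∈ T, c i * v i ^ m = 0) (K C : ℝ) (hK : 0 ≤ K)
    (hv : ∀ i ∈ T, ‖v i‖ ≤ K) (hC : ∑ i ∈ T, ‖c i‖ ≤ C) (b : ℝ) (hb : 1 ≤ b) (w : ℂ) :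
    ‖∑ i ∈ T, c i * Complex.exp (-w * v i)‖ ≤ C * Real.exp (b * (K * ‖w‖)) / b ^ (N + 1) := by
  have hC0 : 0 ≤ C := (sum_nonneg fun i _ => norm_nonneg _).trans hC
  have hb0 : 0 < b := by linarith
  have h1 : HasSum (fun m : ℕ => ∑ i ∈ T, c i * ((-w * v i) ^ m / m.factorial))
      (∑ i ∈ T, c i * Complex.exp (-w * v i)) := by
    refine hasSum_sum fun i _ => ?_
    have h2 := NormedSpace.expSeries_div_hasSum_exp (-w * v i)
    rw [← Complex.exp_eq_exp_ℂ] at h2
    exact h2.mul_left _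
  have h2 : ∀ m : ℕ, ∑ i ∈ T, c i * ((-w * v i) ^ m / m.factorial) =
      ((-w) ^ m / m.factorial) * ∑ i ∈ T, c i * v i ^ m := by
    intro m
    rw [mul_sum]
    refine sum_congr rfl fun i _ => ?_
    rw [mul_pow]
    ring
  simp only [h2] at h1
  have h3 : HasSum (fun m : ℕ => C / b ^ (N + 1) * ((b * (K * ‖w‖)) ^ m / m.factorial))
      (C / b ^ (N + 1) * Real.exp (b * (K * ‖w‖))) := by
    have h4 := NormedSpace.expSeries_div_hasSum_exp (b * (K * ‖w‖))
    rw [← Real.exp_eq_exp_ℝ] at h4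
    exact h4.mul_left _
  have h4 : C * Real.exp (b * (K * ‖w‖)) / b ^ (N + 1) =
      C / b ^ (N + 1) * Real.exp (b * (K * ‖w‖)) := by ring
  rw [h4]
  refine h1.norm_le_of_bounded h3 fun m => ?_
  rcases le_or_gt m N with hmN | hmN
  · rw [hm m hmN, mul_zero, norm_zero]
    positivity
  · have h5 : ‖∑ i ∈ T, c i * v i ^ m‖ ≤ C * K ^ m := by
      calc ‖∑ i ∈ T, c i * v i ^ m‖ ≤ ∑ i ∈ T, ‖c i‖ * K ^ m := by
            refine norm_sum_le_of_le _ fun i hi => ?_
            rw [norm_mul, norm_pow]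
            exact mul_le_mul_of_nonneg_left (pow_le_pow_left₀ (norm_nonneg _) (hv i hi) _)
              (norm_nonneg _)
        _ = (∑ i ∈ T, ‖c i‖) * K ^ m := by rw [sum_mul]
        _ ≤ C * K ^ m := mul_le_mul_of_nonneg_right hC (by positivity)
    have h6 : (0 : ℝ) < m.factorial := by exact_mod_cast m.factorial_pos
    rw [norm_mul, norm_div, norm_pow, norm_neg, Complex.norm_natCast]
    calc ‖w‖ ^ m / m.factorial * ‖∑ i ∈ T, c i * v i ^ m‖ ≤
        ‖w‖ ^ m / m.factorial * (C * K ^ m) := mul_le_mul_of_nonneg_left h5 (by positivity)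
      _ = (C * ((K * ‖w‖) ^ m / m.factorial)) * 1 := by rw [mul_pow]; ring
      _ ≤ (C * ((K * ‖w‖) ^ m / m.factorial)) * (b ^ m / b ^ (N + 1)) := by
        apply mul_le_mul_of_nonneg_left _ (by positivity)
        rw [le_div_iff₀ (by positivity), one_mul]
        exact pow_le_pow_right₀ hb (by omega)
      _ = _ := by
        rw [mul_pow b]
        ring

end

end Pool.Agent.K4H57.UH
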