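import Mathlib

/-!
# The power series `∏ (1 - exp (- a_j T))`
-/

set_option autoImplicit false

namespace Pool.Agent.K4H57.UH

/-- The power series `∏ (1 - exp (- a_j T))`. -/
noncomputable def FP {r : ℕ} (a : Fin r → ℂ) : PowerSeries ℂ :=
  ∏ j, (1 - PowerSeries.rescale (-(a j)) (PowerSeries.exp ℂ))

end Pool.Agent.K4H57.UH
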